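import Pool.Agent.W_332fe5_h47.Norms

set_option autoImplicit false

/-! Block 3, congruence and equivariance of the mollifier. -/

open MeasureTheory ProbabilityTheory Set Filter Topology TopologicalSpace
open scoped ENNReal NNReal

namespace Pool.Agent.W_332fe5

theorem moll_congr {u u' : E3 → E3} (h : u =ᵐ[volume] u') (ε : ℝ) : moll ε u = moll ε u' := by
  funext x
  unfold moll
  congr 1
  refine integral_congr_ae ?_
  filter_upwards [h] with y hy
  rw [hy]

theorem ker_iso (Q : E3 ≃ₗᵢ[ℝ] E3) (x : E3) : ker (Q x) = ker x := by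
  unfold ker
  rw [LinearIsometryEquiv.norm_map]

/-- The mollifier commutes with isometries (change of variables; `Q` commutes with the Bochner
integral, `LinearIsometryEquiv.integral_comp_comm`-type lemma). -/
theorem moll_actF (Q : E3 ≃ₗᵢ[ℝ] E3) (ε : ℝ) (u : E3 → E3) :
    moll ε (actF Q u) = actF Q (moll ε u) := by
  funext x
  have h1 : (∫ y, ker (ε⁻¹ • (x - y)) • Q (u (Q.symm y))) =
      ∫ y, ker (ε⁻¹ • (x - Q y)) • Q (u y) := by
    rw [← (A6_mp Q).integral_comp Q.toHomeomorph.measurableEmbedding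
      (fun y => ker (ε⁻¹ • (x - y)) • Q (u (Q.symm y)))]
    simp only [LinearIsometryEquiv.symm_apply_apply]
  have h2 : (∫ y, ker (ε⁻¹ • (x - Q y)) • Q (u y)) =
      ∫ y, Q (ker (ε⁻¹ • (Q.symm x - y)) • u y) := by
    refine integral_congr_ae (ae_of_all _ fun y => ?_)
    have h3 : ε⁻¹ • (x - Q y) = Q (ε⁻¹ • (Q.symm x - y)) := by
      rw [map_smul, map_sub, LinearIsometryEquiv.apply_symm_apply]
    simp only
    rw [h3, ker_iso, map_smul]
  have h4 : (∫ y, Q (ker (ε⁻¹ • (Q.symm x - y)) • u y)) =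
      Q (∫ y, ker (ε⁻¹ • (Q.symm x - y)) • u y) :=
    Q.toContinuousLinearEquiv.integral_comp_comm fun y => ker (ε⁻¹ • (Q.symm x - y)) • u y
  unfold moll
  simp only [actF]
  rw [h1, h2, h4, map_smul]

end Pool.Agent.W_332fe5
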