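import Pool.Agent.W_332fe5_h47.Stop
import Pool.Agent.W_332fe5_h47.Moll
import Pool.Agent.W_332fe5.O.A13

set_option autoImplicit false
set_option linter.unusedSectionVars false

/-! Block 3, part I: rotations of solutions; uniqueness gives rotation invariance. -/

open MeasureTheory ProbabilityTheory Set Filter Topology TopologicalSpace
open scoped ENNReal NNReal

namespace Pool.Agent.W_332fe5

/-! ### Equivariance of the coefficients and of the operations -/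

theorem rotI_smul (a c : ℝ) (x : E3) : rot a (c • x) = c • rot a x := (rotE a).map_smul c x

theorem rotI_neg (a : ℝ) (x : E3) : rot a (-x) = -rot a x := (rotE a).map_neg x

theorem rotI_zero (a : ℝ) : rot a 0 = 0 := (rotE a).map_zero

theorem bEx_rot (zt : ℝ) {r : E3 → ℝ} (hr : ∀ a x, r (rot a x) = r x) (n : ℕ) (a : ℝ) (x : E3) :
    bEx zt r n (rot a x) = rot a (bEx zt r n x) := by
  unfold bEx
  split_ifs
  · rw [rotI_smul]
  · rw [rotI_smul, hr, mm_rot]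
  · rw [rotI_zero]

theorem gEx_rot (zt : ℝ) {r : E3 → ℝ} (hr : ∀ a x, r (rot a x) = r x) (n : ℕ) (a : ℝ)
    (x y : E3) : gEx zt r n (rot a x) (rot a y) = rot a (gEx zt r n x y) := by
  unfold gEx
  split_ifs
  · rw [rotI_smul]
  · rw [rotI_neg, rotI_smul, hr, mm_rot]
  · rw [rotI_zero]

theorem ker_actF (Q : E3 ≃ₗᵢ[ℝ] E3) (x : E3) : ker (Q x) = ker x := by
  unfold ker
  rw [Q.norm_map]

theorem HasTransport_congr {b u u' φ : E3 → E3} {a : ℝ} (h : u =ᵐ[volume] u') :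
    HasTransport b u φ a ↔ HasTransport b u' φ a := by
  unfold HasTransport
  simp only [moll_congr h]

/-- Change of variables. -/
theorem rotI_integral (Q : E3 ≃ₗᵢ[ℝ] E3) (F : E3 → ℝ) : ∫ x, F (Q x) = ∫ x, F x :=
  Q.measurePreserving.integral_comp Q.toHomeomorph.measurableEmbedding F

theorem rotI_lintegral (Q : E3 ≃ₗᵢ[ℝ] E3) (F : E3 → ℝ≥0∞) : ∫⁻ x, F (Q x) = ∫⁻ x, F x :=
  Q.measurePreserving.lintegral_comp_emb Q.toHomeomorph.measurableEmbedding F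

theorem rotI_fderiv (Q : E3 ≃ₗᵢ[ℝ] E3) (m : E3 → E3) (x v : E3) :
    fderiv ℝ (actF Q m) x v = Q (fderiv ℝ m (Q.symm x) (Q.symm v)) := by
  have h1 : actF Q m = Q ∘ (m ∘ Q.symm) := rfl
  have h2 : fderiv ℝ (Q ∘ (m ∘ Q.symm)) x =
      (Q.toContinuousLinearEquiv : E3 →L[ℝ] E3).comp (fderiv ℝ (m ∘ Q.symm) x) :=
    Q.toContinuousLinearEquiv.comp_fderiv
  have h3 : fderiv ℝ (m ∘ Q.symm) x =
      (fderiv ℝ m (Q.symm x)).comp (Q.symm.toContinuousLinearEquiv : E3 →L[ℝ] E3) :=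
    Q.symm.toContinuousLinearEquiv.comp_right_fderiv
  rw [h1, h2, h3]
  rfl

theorem rotI_inner (Q : E3 ≃ₗᵢ[ℝ] E3) (x y : E3) : inner ℝ (Q x) y = inner ℝ x (Q.symm y) := by
  rw [← Q.inner_map_map x (Q.symm y), Q.apply_symm_apply]

/-- `⟨(b · ∇) (Q.u), φ⟩ = ⟨(b · ∇) u, Q⁻¹.φ⟩` for equivariant `b` (`fderiv` of
`Q ∘ moll ε u ∘ Q.symm` by the chain rule; if `moll ε u` is not differentiable both are `0`). -/
theorem HasTransport_actF (Q : E3 ≃ₗᵢ[ℝ] E3) {b : E3 → E3} (hb : ∀ x, b (Q x) = Q (b x))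
    (u φ : E3 → E3) (a : ℝ) :
    HasTransport b (actF Q u) φ a ↔ HasTransport b u (actF Q.symm φ) a := by
  unfold HasTransport
  have h1 : ∀ ε : ℝ, ∫ x, inner ℝ (fderiv ℝ (moll ε (actF Q u)) x (b x)) (φ x) =
      ∫ x, inner ℝ (fderiv ℝ (moll ε u) x (b x)) (actF Q.symm φ x) := by
    intro ε
    rw [← rotI_integral Q]
    refine integral_congr_ae (Eventually.of_forall fun x => ?_)
    dsimp only
    rw [moll_actF, rotI_fderiv, hb, Q.symm_apply_apply, Q.symm_apply_apply, rotI_inner]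
    rfl
  simp only [h1]

theorem conv_congr {u u' φ : E3 → E3} (h : u =ᵐ[volume] u') : conv u φ = conv u' φ := by
  unfold conv
  apply integral_congr_ae
  filter_upwards [h] with x hx
  rw [hx]

theorem conv_actF (Q : E3 ≃ₗᵢ[ℝ] E3) (u φ : E3 → E3) :
    conv (actF Q u) φ = conv u (actF Q.symm φ) := by
  unfold conv
  rw [← rotI_integral Q]
  refine integral_congr_ae (Eventually.of_forall fun x => ?_)
  dsimp only
  rw [rotI_fderiv]
  unfold actF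
  rw [Q.symm_apply_apply, rotI_inner]
  rfl

theorem int_g_actF (Q : E3 ≃ₗᵢ[ℝ] E3) {g : E3 → E3 → E3} (hg : ∀ x y, g (Q x) (Q y) = Q (g x y))
    (u φ : E3 → E3) : ∫ x, inner ℝ (g x (actF Q u x)) (φ x) =
      ∫ x, inner ℝ (g x (u x)) (actF Q.symm φ x) := by
  rw [← rotI_integral Q]
  refine integral_congr_ae (Eventually.of_forall fun x => ?_)
  dsimp only
  unfold actF
  rw [Q.symm_apply_apply, hg, rotI_inner]
  rfl

theorem fld_actL (Q : E3 ≃ₗᵢ[ℝ] E3) {δ : ℝ} (h0 : -1 < δ) (h1 : δ ≤ 0) (w : L2) :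
    fld Bl δ (actL Q w) = actL Q (fld Bl δ w) :=
  negPow_actL Q (by linarith) (by linarith) w

theorem pairX_actL (Q : E3 ≃ₗᵢ[ℝ] E3) {δ : ℝ} (h0 : -1 < δ) (h1 : δ ≤ 0) (v : L2)
    {φ : E3 → E3} (hφ : φ ∈ TF Bl) :
    pairX Bl δ (actL Q v) φ = pairX Bl δ v (actF Q.symm φ) := by
  unfold pairX
  have hs : ContDiff ℝ 2 φ := hφ.1.of_le (by norm_cast)
  rw [lapl_actF Q.symm hs, ← actL_toL2 Q.symm (CV_memLp (CV_lapl (TF_sub_CV hφ)) 2),
    negPow_actL Q.symm (by linarith) (by linarith), pair_eq_inner, pair_eq_inner,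
    ← inner_actL Q v, actL_symm]

theorem pairH_actL (Q : E3 ≃ₗᵢ[ℝ] E3) {δ : ℝ} (h0 : -1 < δ) (h1 : δ ≤ 0) (v : L2)
    {φ : E3 → E3} (hφ : φ ∈ TF Bl) :
    pairH Bl δ (actL Q v) φ = pairH Bl δ v (actF Q.symm φ) := by
  unfold pairH
  rw [negPow_actL Q (by norm_num) (by norm_num), pairX_actL Q h0 h1 _ hφ]

/-- The square function norm is invariant. -/
theorem sqfun_actL (Q : E3 ≃ₗᵢ[ℝ] E3) (f : ℕ → L2) (q : ℝ) :
    ∫⁻ x, (∑' n, ‖actL Q (f n) x‖ₑ ^ 2) ^ (q / 2) = ∫⁻ x, (∑' n, ‖f n x‖ₑ ^ 2) ^ (q / 2) := by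
  rw [← rotI_lintegral Q.symm fun x => (∑' n, ‖f n x‖ₑ ^ 2) ^ (q / 2)]
  apply lintegral_congr_ae
  have h1 : ∀ᵐ x ∂(volume : Measure E3), ∀ n, actL Q (f n) x = actF Q (f n) x :=
    ae_all_iff.2 fun n => actL_ae Q (f n)
  filter_upwards [h1] with x hx
  congr 1
  refine tsum_congr fun n => ?_
  rw [hx]
  unfold actF
  rw [← ofReal_norm, ← ofReal_norm, Q.norm_map]

section

variable {Ω : Type} [mΩ : MeasurableSpace Ω] {B : Basis Ω} {zt p κ δ q : ℝ} {r : E3 → ℝ}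
  {v₀ : Ω → L2} {τ σ : Ω → ℝ≥0∞} {v w : ℝ≥0 → Ω → L2}

theorem rotI_ind (Q : E3 ≃ₗᵢ[ℝ] E3) (τ : Ω → ℝ≥0∞) (w : ℝ≥0 → Ω → L2) (t : ℝ≥0) (ω : Ω) :
    ({s : ℝ≥0 | (s : ℝ≥0∞) < τ ω}.indicator (fun s => actL Q (w s ω)) t : L2) =
      actL Q ({s : ℝ≥0 | (s : ℝ≥0∞) < τ ω}.indicator (fun s => w s ω) t : L2) := by
  by_cases h : t ∈ {s : ℝ≥0 | (s : ℝ≥0∞) < τ ω}
  · rw [indicator_of_mem h, indicator_of_mem h]
  · rw [indicator_of_notMem h, indicator_of_notMem h, map_zero]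

theorem rotI_prog (Q : E3 ≃ₗᵢ[ℝ] E3) {w : ℝ≥0 → Ω → L2}
    (h : IsStronglyProgressive B.F fun t ω =>
      ({s : ℝ≥0 | (s : ℝ≥0∞) < τ ω}.indicator (fun s => w s ω) t : L2)) :
    IsStronglyProgressive B.F fun t ω =>
      ({s : ℝ≥0 | (s : ℝ≥0∞) < τ ω}.indicator (fun s => actL Q (w s ω)) t : L2) := by
  have h1 := prog_comp_cont h (actL Q).continuous
  simp only [rotI_ind]
  exact h1

theorem rotI_sub (Q : E3 ≃ₗᵢ[ℝ] E3) (f g : L2) (p : ℝ≥0∞) :
    eLpNorm (actL Q f - actL Q g : L2) p volume = eLpNorm (f - g : L2) p volume := by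
  rw [← map_sub, eLpNorm_actL]

theorem rotI_trsub (Q : E3 ≃ₗᵢ[ℝ] E3) (p κ q : ℝ) (f g : L2) :
    trPow Bl p κ q (actL Q f - actL Q g) = trPow Bl p κ q (f - g) := by
  rw [← map_sub, trPow_actL]

theorem rotI_conv (Q : E3 ≃ₗᵢ[ℝ] E3) {δ : ℝ} (h0 : -1 < δ) (h1 : δ ≤ 0) (w : L2) (φ : E3 → E3) :
    conv (fld Bl δ (actL Q w)) φ = conv (fld Bl δ w) (actF Q.symm φ) := by
  rw [fld_actL Q h0 h1, conv_congr (actL_ae Q _), conv_actF]

theorem rotI_noise {r : E3 → ℝ} (hr : ∀ a x, r (rot a x) = r x) (a : ℝ) {zt δ : ℝ} (h0 : -1 < δ)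
    (h1 : δ ≤ 0) {w h : L2} {n : ℕ} {φ : E3 → E3} (hφ : φ ∈ TF Bl)
    (hh : HasTransport (bEx zt r n) (fld Bl δ w) (actF (rotE a).symm φ)
      (pairH Bl δ h (actF (rotE a).symm φ) -
        ∫ x, inner ℝ (gEx zt r n x (fld Bl δ w x)) (actF (rotE a).symm φ x))) :
    HasTransport (bEx zt r n) (fld Bl δ (actL (rotE a) w)) φ
      (pairH Bl δ (actL (rotE a) h) φ -
        ∫ x, inner ℝ (gEx zt r n x (fld Bl δ (actL (rotE a) w) x)) (φ x)) := by
  rw [fld_actL _ h0 h1, HasTransport_congr (actL_ae _ _),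
    HasTransport_actF _ (fun x => bEx_rot zt hr n a x), pairH_actL _ h0 h1 _ hφ]
  have h2 : ∫ x, inner ℝ (gEx zt r n x (actL (rotE a) (fld Bl δ w) x)) (φ x) =
      ∫ x, inner ℝ (gEx zt r n x (fld Bl δ w x)) (actF (rotE a).symm φ x) := by
    rw [← int_g_actF (rotE a) (fun x y => gEx_rot zt hr n a x y)]
    apply integral_congr_ae
    filter_upwards [actL_ae (rotE a) (fld Bl δ w)] with x hx
    rw [hx]
  rw [h2]
  exact hh

theorem rotI_pair_lapl (Q : E3 ≃ₗᵢ[ℝ] E3) {δ : ℝ} (h0 : -1 < δ) (h1 : δ ≤ 0) (w : L2)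
    {φ : E3 → E3} (hφ : φ ∈ TF Bl) :
    pair (fld Bl δ (actL Q w)) (lapl φ) = pair (fld Bl δ w) (lapl (actF Q.symm φ)) := by
  have hs : ContDiff ℝ 2 φ := hφ.1.of_le (by norm_cast)
  rw [fld_actL Q h0 h1, pair_actL, lapl_actF Q.symm hs]

/-- The rotation of a strong solution is a strong solution. -/
theorem StrongSol.rot (hδ : -1 < δ) (hδ1 : δ ≤ 0) (hr : ∀ a x, r (rot a x) = r x) (a : ℝ)
    (h : StrongSol B Bl 1 (bEx zt r) (gEx zt r) p κ δ q v₀ τ v w) :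
    StrongSol B Bl 1 (bEx zt r) (gEx zt r) p κ δ q (fun ω => actL (rotE a) (v₀ ω)) τ
      (fun t ω => actL (rotE a) (v t ω)) (fun t ω => actL (rotE a) (w t ω)) where
  stop := h.stop
  prog_v := prog_comp_cont h.prog_v (actL (rotE a)).continuous
  prog_w := rotI_prog _ h.prog_w
  init := by
    filter_upwards [h.init] with ω hω
    rw [hω]
  cont := by
    filter_upwards [h.cont] with ω hω t ht
    obtain ⟨h1, h2, h3, h4⟩ := hω t ht
    refine ⟨LqS_actL _ h1, ?_, ?_, ?_⟩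
    · rw [trPow_actL]; exact h2
    · simp only [rotI_sub]; exact h3
    · simp only [rotI_trsub]; exact h4
  mem := by
    filter_upwards [h.mem] with ω hω
    filter_upwards [hω] with t ht htτ
    obtain ⟨h1, h2⟩ := ht htτ
    exact ⟨LqS_actL _ h1, by rw [res_actL _ le_rfl, ← h2]⟩
  int := by
    filter_upwards [h.int] with ω hω T
    simp only [eLpNorm_actL]
    exact hω T
  drift := by
    obtain ⟨f, h1, h2, h3⟩ := h.drift
    refine ⟨fun t ω => actL (rotE a) (f t ω), rotI_prog _ h1, ?_, ?_⟩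
    · filter_upwards [h2] with ω hω
      filter_upwards [hω] with t ht htτ
      obtain ⟨h4, h5⟩ := ht htτ
      refine ⟨LqS_actL _ h4, fun φ hφ => ?_⟩
      rw [rotI_conv _ hδ hδ1, pairX_actL _ hδ hδ1 _ hφ]
      exact h5 _ (TF_actF _ hφ)
    · filter_upwards [h3] with ω hω T
      simp only [eLpNorm_actL]
      exact hω T
  eqn := by
    obtain ⟨f, h1, h2, h3, h4⟩ := h.eqn
    refine ⟨fun n t ω => actL (rotE a) (f n t ω), fun n => rotI_prog _ (h1 n), ?_, ?_, ?_⟩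
    · filter_upwards [h2] with ω hω
      filter_upwards [hω] with t ht htτ n
      obtain ⟨h5, h6⟩ := ht htτ n
      exact ⟨LqS_actL _ h5, fun φ hφ => rotI_noise hr a hδ hδ1 hφ (h6 _ (TF_actF _ hφ))⟩
    · filter_upwards [h3] with ω hω T
      simp only [sqfun_actL (rotE a) (fun n => f n _ ω)]
      exact hω T
    · intro φ hφ
      have h5 := h4 (actF (rotE a).symm φ) (TF_actF _ hφ)
      have e1 : (fun n t ω => pairH Bl δ (actL (rotE a) (f n t ω)) φ) =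
          fun n t ω => pairH Bl δ (f n t ω) (actF (rotE a).symm φ) := by
        funext n t ω
        rw [pairH_actL _ hδ hδ1 _ hφ]
      have e2 : (fun (t : ℝ≥0) (ω : Ω) => pairX Bl δ (actL (rotE a) (v t ω)) φ -
          pairX Bl δ (actL (rotE a) (v 0 ω)) φ - ∫ s in Iic t,
            (1 * pair (fld Bl δ (actL (rotE a) (w s ω))) (lapl φ) +
              conv (fld Bl δ (actL (rotE a) (w s ω))) φ) ∂lam) =
          fun (t : ℝ≥0) (ω : Ω) => pairX Bl δ (v t ω) (actF (rotE a).symm φ) -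
          pairX Bl δ (v 0 ω) (actF (rotE a).symm φ) - ∫ s in Iic t,
            (1 * pair (fld Bl δ (w s ω)) (lapl (actF (rotE a).symm φ)) +
              conv (fld Bl δ (w s ω)) (actF (rotE a).symm φ)) ∂lam := by
        funext t ω
        rw [pairX_actL _ hδ hδ1 _ hφ, pairX_actL _ hδ hδ1 _ hφ]
        simp only [rotI_pair_lapl _ hδ hδ1 _ hφ, rotI_conv _ hδ hδ1]
      rw [e1, e2]
      exact h5

theorem LocalSol.rot (hδ : -1 < δ) (hδ1 : δ ≤ 0) (hr : ∀ a x, r (rot a x) = r x) (a : ℝ)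
    (h : LocalSol B Bl 1 (bEx zt r) (gEx zt r) p κ δ q v₀ σ v w) :
    LocalSol B Bl 1 (bEx zt r) (gEx zt r) p κ δ q (fun ω => actL (rotE a) (v₀ ω)) σ
      (fun t ω => actL (rotE a) (v t ω)) (fun t ω => actL (rotE a) (w t ω)) := by
  obtain ⟨τ, h1, h2, h3⟩ := h
  exact ⟨τ, fun n => (h1 n).rot hδ hδ1 hr a, h2, h3⟩

/-- A maximal solution with rotation invariant initial value is rotation invariant. -/
theorem MaximalSol.rotInv (hδ : -1 < δ) (hδ1 : δ ≤ 0) (hr : ∀ a x, r (rot a x) = r x)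
    (h0 : ∀ a ω, actL (rotE a) (v₀ ω) = v₀ ω)
    (h : MaximalSol B Bl 1 (bEx zt r) (gEx zt r) p κ δ q v₀ σ v w) :
    ∀ᵐ ω ∂B.P, ∀ t : ℝ≥0, (t : ℝ≥0∞) < σ ω → RotInv (v t ω) := by
  have h1 : ∀ a : ℚ, ∀ᵐ ω ∂B.P, ∀ t : ℝ≥0, (t : ℝ≥0∞) < σ ω →
      actL (rotE (a : ℝ)) (v t ω) = v t ω := by
    intro a
    have h2 := h.1.rot hδ hδ1 hr (a : ℝ)
    simp only [h0] at h2
    filter_upwards [h.2 _ _ _ h2] with ω hω
    exact fun t ht => hω t ht ht
  filter_upwards [ae_all_iff.2 h1] with ω hω t ht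
  refine RotInv_of_dense (D := range ((↑) : ℚ → ℝ)) Rat.denseRange_cast ?_
  rintro _ ⟨a, rfl⟩
  exact hω a t ht

/-- From well-posedness to good solutions on `[0, τ]` with `P (τ = 0)` small.
(`v₀ = v0 δ`, `v0_mem`, `v0_tr`, `v0_rot`; `τ = τ n` with `n` large: `{σ > 0}` is the increasing
union of `{τ n > 0}` up to a null set; `t < τ n ω → t < σ ω` a.s.; `RotInv_of_res` for `w`.) -/
theorem exists_good (hP : Par zt p κ δ q) (hr : ∀ a x, r (rot a x) = r x)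
    (h : LWP B Bl 1 (bEx zt r) (gEx zt r) p κ δ q) {ε : ℝ≥0∞} (hε : 0 < ε) :
    ∃ (τ : Ω → ℝ≥0∞) (v w : ℝ≥0 → Ω → L2) (hh : ℕ → ℝ≥0 → Ω → L2),
      Good B zt p κ δ q r τ v w hh ∧ B.P {ω | τ ω = 0} < ε := by
  have hprob := B.isProb
  have hz := hP.z1
  have hd0 := hP.d0
  have hδ1 := hP.d1
  have hδ4 : -(1 / 4) < δ := by linarith
  have hδ : -1 < δ := by linarith
  obtain ⟨σ, v, w, hmax, hpos⟩ := h (fun _ => v0 δ) stronglyMeasurable_const
    (fun ω => ⟨v0_mem hP, v0_tr hP⟩)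
  have hrot := hmax.rotInv hδ hδ1 hr (fun a ω => v0_rot hδ4 hδ1 a)
  obtain ⟨τ, hs, hmono, hsup⟩ := hmax.1
  -- choice of the index
  have hmeas : ∀ n, NullMeasurableSet {ω | τ n ω = 0} B.P := by
    intro n
    have h1 : {ω | τ n ω = 0} = {ω | τ n ω ≤ ((0 : ℝ≥0) : ℝ≥0∞)} := by
      ext ω; simp
    rw [h1]
    exact (B.F.le 0 _ ((hs n).stop 0)).nullMeasurableSet
  have hanti : Antitone fun n => {ω | τ n ω = 0} := by
    refine antitone_nat_of_succ_le fun n ω hω => ?_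
    have h1 : τ (n + 1) ω = 0 := hω
    have h2 := hmono n ω
    rw [h1] at h2
    exact le_antisymm h2 bot_le
  have hlim := tendsto_measure_iInter_atTop (μ := B.P) hmeas hanti ⟨0, measure_ne_top _ _⟩
  have hnull : B.P (⋂ n, {ω | τ n ω = 0}) = 0 := by
    have h1 : ∀ᵐ ω ∂B.P, ω ∉ ⋂ n, {ω | τ n ω = 0} := by
      filter_upwards [hpos, hsup] with ω h2 h3 h4
      rw [mem_iInter] at h4
      have h5 : ⨆ n, τ n ω = 0 := by
        simp only [ENNReal.iSup_eq_zero]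
        exact fun n => h4 n
      rw [h3] at h5
      exact absurd h5 h2.ne'
    exact measure_eq_zero_iff_ae_notMem.2 h1
  rw [hnull] at hlim
  obtain ⟨n, hn⟩ := (hlim.eventually (gt_mem_nhds hε)).exists
  obtain ⟨hh, e1, e2, e3, e4⟩ := (hs n).eqn
  refine ⟨τ n, v, w, hh, ?_, hn⟩
  refine
    { par := hP
      stop := (hs n).stop
      prog_v := (hs n).prog_v
      prog_w := (hs n).prog_w
      prog_h := e1
      null := ?_
      eqn := e4 }
  have hg : ∀ᵐ ω ∂B.P, GoodAt zt p κ δ q r (τ n) v w hh ω := by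
    filter_upwards [(hs n).init, (hs n).cont, (hs n).mem, (hs n).int, e2, hrot, hsup] with ω
      a1 a2 a3 a4 a5 a6 a7
    refine ⟨a1, fun t ht => ⟨(a2 t ht).1, (a2 t ht).2.2.1⟩, ?_, a4, ?_⟩
    · filter_upwards [a3] with t ht htτ
      obtain ⟨b1, b2⟩ := ht htτ
      refine ⟨b1, b2, ?_⟩
      refine RotInv_of_res b1.1 ?_
      rw [← b2]
      refine a6 t (htτ.trans_le ?_)
      rw [← a7]
      exact le_iSup (fun n => τ n ω) n
    · filter_upwards [a5] with t ht htτ n φ hφ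
      exact (ht htτ n).2 φ hφ
  exact hg

end

end Pool.Agent.W_332fe5
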