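import Pool.Agent.W_332fe5_h47.ItoG
import Pool.Agent.W_332fe5_h47.Rot
import Pool.Agent.W_332fe5.O.B2
import Pool.Agent.W_332fe5.Core

set_option autoImplicit false
set_option linter.unusedSectionVars false

/-! Block 3, the assembly: a good solution yields the data `Core`; `lwpCore`. -/

open MeasureTheory ProbabilityTheory Set Filter Topology TopologicalSpace
open scoped ENNReal NNReal

namespace Pool.Agent.W_332fe5

theorem c4_nonneg (h : E3 → ℝ) : 0 ≤ c4 h :=
  Finset.sum_nonneg fun _ _ => Real.iSup_nonneg fun _ => norm_nonneg _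

theorem CB_add {h h' : E3 → ℝ} (hh : h ∈ CB) (hh' : h' ∈ CB) : (fun x => h x + h' x) ∈ CB := by
  have := CB_lin hh hh' 1
  simpa using this

theorem pairX_add {δ : ℝ} (h0 : -(1 / 4) < δ) (h1 : δ ≤ 0) (v : L2) {h h' : E3 → ℝ}
    (hh : h ∈ CB) (hh' : h' ∈ CB) :
    pairX Bl δ v (phi fun x => h x + h' x) = pairX Bl δ v (phi h) + pairX Bl δ v (phi h') := by
  have e : (fun x => h x + h' x) = fun x => h x + 1 * h' x := by
    funext x
    rw [one_mul]
  rw [e, phi_lin hh hh' 1, pairX_lin h0 h1 v (phi_TF hh) (phi_TF hh') 1, one_mul]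

section

variable {Ω : Type} [mΩ : MeasurableSpace Ω] {B : Basis Ω} {zt p κ δ q : ℝ} {r : E3 → ℝ}
  {τ : Ω → ℝ≥0∞} {v w : ℝ≥0 → Ω → L2} {hh : ℕ → ℝ≥0 → Ω → L2}

/-- The martingale parts are additive. -/
theorem Good.MP_add (h : Good B zt p κ δ q r τ v w hh) {f g : E3 → ℝ} (hf : f ∈ CB)
    (hg : g ∈ CB) (t : ℝ≥0) (ω : Ω) :
    MP δ (bad zt p κ δ q r τ v w hh) (St zt p κ δ q r τ v w hh) v w (fun x => f x + g x) t ω =
      MP δ (bad zt p κ δ q r τ v w hh) (St zt p κ δ q r τ v w hh) v w f t ω +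
      MP δ (bad zt p κ δ q r τ v w hh) (St zt p κ δ q r τ v w hh) v w g t ω := by
  have hd := h.par.d2
  have hd1 := h.par.d1
  unfold MP
  rw [pairX_add hd hd1 _ hf hg, pairX_add hd hd1 _ hf hg]
  have e : ∫ s in Iic t, aF δ (wS (St zt p κ δ q r τ v w hh) w s ω) (fun x => f x + g x) ∂lam =
      (∫ s in Iic t, aF δ (wS (St zt p κ δ q r τ v w hh) w s ω) f ∂lam) +
      ∫ s in Iic t, aF δ (wS (St zt p κ δ q r τ v w hh) w s ω) g ∂lam := by
    rw [← integral_add (h.int_a hf ω).integrableOn (h.int_a hg ω).integrableOn]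
    refine integral_congr_ae (ae_of_all _ fun s => ?_)
    exact aF_lin δ hd hd1 _ hf hg
  rw [e]
  ring

/-- The process `X h`, real time. -/
noncomputable def XP (δ : ℝ) (N : Set Ω) (S : Ω → ℝ≥0∞) (v : ℝ≥0 → Ω → L2) (h : E3 → ℝ) (t : ℝ)
    (ω : Ω) : ℝ := pairX Bl δ (vS δ N S v t.toNNReal ω) (phi h)

theorem XR_eq (hd : -(1 / 4) < δ) (hd1 : δ ≤ 0) {f : E3 → ℝ} (hf : f ∈ CB) (N : Set Ω)
    (S : Ω → ℝ≥0∞) (t : ℝ) (ω : Ω) :
    XR (∫ x, Gam0 x * f x) (fun t ω => aF δ (wS S w t ω) f) (MP δ N S v w f) t ω =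
      XP δ N S v f t ω := by
  unfold XR MP XP
  rw [v0_pair hd hd1 (phi_TF hf), id_init hf]
  ring

theorem Good.x_sq (h : Good B zt p κ δ q r τ v w hh) (hr : Measurable r) (hr1 : ∀ x, |r x| ≤ 1)
    {f : E3 → ℝ} (hf : f ∈ CB) : ∃ K : ℝ, ∀ t : ℝ,
      Integrable (fun ω => XP δ (bad zt p κ δ q r τ v w hh) (St zt p κ δ q r τ v w hh) v f t ω ^ 2)
        B.P ∧
      ∫ ω, XP δ (bad zt p κ δ q r τ v w hh) (St zt p κ δ q r τ v w hh) v f t ω ^ 2 ∂B.P ≤ K := by
  have hprob := B.isProb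
  obtain ⟨K, hK⟩ := h.ito hr hr1 hf
  have hI := hK.toIto
  set x := ∫ x, Gam0 x * f x with hx
  refine ⟨3 * (x ^ 2 + (max K 0) ^ 2) + 3 * max K 0, ?_⟩
  have key : ∀ t ∈ Icc (0 : ℝ) 1,
      Integrable (fun ω => XP δ (bad zt p κ δ q r τ v w hh) (St zt p κ δ q r τ v w hh) v f t ω ^ 2)
        B.P ∧
      ∫ ω, XP δ (bad zt p κ δ q r τ v w hh) (St zt p κ δ q r τ v w hh) v f t ω ^ 2 ∂B.P ≤
        3 * (x ^ 2 + (max K 0) ^ 2) + 3 * max K 0 := by
    intro t ht
    have h1 := hI.x_sq_le x ht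
    simp only [XX_ext] at h1
    have h2 := hI.m_sq ht.1 ht.2
    have e : ∀ ω, XR x (fun t ω => aF δ (wS (St zt p κ δ q r τ v w hh) w t ω) f)
        (MP δ (bad zt p κ δ q r τ v w hh) (St zt p κ δ q r τ v w hh) v w f) t ω =
        XP δ (bad zt p κ δ q r τ v w hh) (St zt p κ δ q r τ v w hh) v f t ω := fun ω =>
      XR_eq h.par.d2 h.par.d1 hf _ _ t ω
    simp only [e] at h1
    refine ⟨?_, h1⟩
    have h3 : Measurable fun ω =>
        XP δ (bad zt p κ δ q r τ v w hh) (St zt p κ δ q r τ v w hh) v f t ω := by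
      unfold XP
      exact ((pairX_cont δ (phi f)).comp_stronglyMeasurable
        ((h.prog_vS.stronglyAdapted _).mono (B.F.le _))).measurable
    refine Integrable.mono' (((integrable_const (3 * (x ^ 2 + (max K 0) ^ 2))).add
      (h2.1.const_mul 3))) (h3.pow_const 2).aestronglyMeasurable (ae_of_all _ fun ω => ?_)
    have h4 : XP δ (bad zt p κ δ q r τ v w hh) (St zt p κ δ q r τ v w hh) v f t ω =
        XX x (ext fun t ω => aF δ (wS (St zt p κ δ q r τ v w hh) w t ω) f)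
          (extM (MP δ (bad zt p κ δ q r τ v w hh) (St zt p κ δ q r τ v w hh) v w f)) t ω := by
      rw [XX_ext, e]
    rw [Real.norm_eq_abs, abs_of_nonneg (sq_nonneg _), h4]
    have h5 := hI.da.prim_le hI.hK t ω
    have h6 : prim (ext fun t ω => aF δ (wS (St zt p κ δ q r τ v w hh) w t ω) f) t ω ^ 2 ≤
        (max K 0) ^ 2 := by
      rw [← sq_abs]
      exact pow_le_pow_left₀ (abs_nonneg _) h5 2
    unfold XX
    simp only [Pi.add_apply]
    set a := prim (ext fun t ω => aF δ (wS (St zt p κ δ q r τ v w hh) w t ω) f) t ω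
    set m := extM (MP δ (bad zt p κ δ q r τ v w hh) (St zt p κ δ q r τ v w hh) v w f) t ω
    nlinarith [sq_nonneg (x - a), sq_nonneg (x - m), sq_nonneg (a - m)]
  intro t
  rcases le_total t 1 with ht | ht
  · rcases le_total 0 t with ht0 | ht0
    · exact key t ⟨ht0, ht⟩
    · have := key 0 ⟨le_rfl, by norm_num⟩
      have e : ∀ ω, XP δ (bad zt p κ δ q r τ v w hh) (St zt p κ δ q r τ v w hh) v f t ω =
          XP δ (bad zt p κ δ q r τ v w hh) (St zt p κ δ q r τ v w hh) v f 0 ω := by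
        intro ω
        unfold XP
        rw [Real.toNNReal_of_nonpos ht0, Real.toNNReal_zero]
      simpa only [e] using this
  · have := key 1 ⟨by norm_num, le_rfl⟩
    have e : ∀ ω, XP δ (bad zt p κ δ q r τ v w hh) (St zt p κ δ q r τ v w hh) v f t ω =
        XP δ (bad zt p κ δ q r τ v w hh) (St zt p κ δ q r τ v w hh) v f 1 ω := by
      intro ω
      unfold XP
      rw [← vS_stop t.toNNReal ω, ← vS_stop (1 : ℝ).toNNReal ω]
      have h1 : ∀ s : ℝ≥0, 1 ≤ s → cutT s (St zt p κ δ q r τ v w hh ω) =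
          (St zt p κ δ q r τ v w hh ω).toNNReal := by
        intro s hs
        unfold cutT
        rw [min_eq_right ((St_le_one ω).trans (by exact_mod_cast hs))]
      rw [h1 _ (by rw [← Real.toNNReal_one]; exact Real.toNNReal_mono ht),
        h1 _ (by rw [Real.toNNReal_one])]
    simpa only [e] using this

/-- `X_eq`. -/
theorem Good.x_eq (h : Good B zt p κ δ q r τ v w hh) {f : E3 → ℝ} (hf : f ∈ CB) :
    ∀ᵐ z ∂((volume.restrict (Ioo (0 : ℝ) 1)).prod B.P),
      z.1 < (St zt p κ δ q r τ v w hh z.2).toReal →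
      XP δ (bad zt p κ δ q r τ v w hh) (St zt p κ δ q r τ v w hh) v f z.1 z.2 =
        ∫ x, Gam δ (wS (St zt p κ δ q r τ v w hh) w z.1.toNNReal z.2) x * f x := by
  have hprob := B.isProb
  have h1 : ∀ᵐ z ∂((volume.restrict (Ioo (0 : ℝ) 1)).prod B.P),
      z.1 < (St zt p κ δ q r τ v w hh z.2).toReal →
      vS δ (bad zt p κ δ q r τ v w hh) (St zt p κ δ q r τ v w hh) v z.1.toNNReal z.2 =
        res Bl 0 (wS (St zt p κ δ q r τ v w hh) w z.1.toNNReal z.2) := by
    have hm : Measurable fun z : ℝ × Ω => ((z.1.toNNReal, z.2) : ℝ≥0 × Ω) :=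
      measurable_fst.real_toNNReal.prodMk measurable_snd
    have m1 : StronglyMeasurable fun z : ℝ × Ω =>
        vS δ (bad zt p κ δ q r τ v w hh) (St zt p κ δ q r τ v w hh) v z.1.toNNReal z.2 :=
      (prog_joint h.prog_vS).comp_measurable hm
    have m2 : StronglyMeasurable fun z : ℝ × Ω =>
        res Bl 0 (wS (St zt p κ δ q r τ v w hh) w z.1.toNNReal z.2) := by
      have := (resL 0).continuous.comp_stronglyMeasurable
        ((prog_joint h.prog_wS).comp_measurable hm)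
      simpa only [resL_apply le_rfl, Function.comp_def] using this
    have m3 : MeasurableSet {z : ℝ × Ω | z.1 < (St zt p κ δ q r τ v w hh z.2).toReal →
        vS δ (bad zt p κ δ q r τ v w hh) (St zt p κ δ q r τ v w hh) v z.1.toNNReal z.2 =
          res Bl 0 (wS (St zt p κ δ q r τ v w hh) w z.1.toNNReal z.2)} := by
      have m4 : MeasurableSet {z : ℝ × Ω | z.1 < (St zt p κ δ q r τ v w hh z.2).toReal} :=
        measurableSet_lt measurable_fst (h.isStop.measurable.ennreal_toReal.comp measurable_snd)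
      exact m4.imp (StronglyMeasurable.measurableSet_eq_fun m1 m2)
    rw [Measure.ae_prod_iff_ae_ae m3, Measure.ae_ae_comm m3]
    have hnull : ∀ᵐ ω ∂B.P, ω ∉ bad zt p κ δ q r τ v w hh := by
      rw [ae_iff]
      simpa using h.null
    filter_upwards [hnull] with ω hω
    have h2 := ae_of_lam (vS_eq (δ := δ) hω)
    rw [ae_restrict_iff' measurableSet_Ioo]
    filter_upwards [h2] with t ht ht2 ht3
    refine ht ht2.1.le ?_
    have hS : St zt p κ δ q r τ v w hh ω ≠ ∞ := ((St_le_one ω).trans_lt ENNReal.one_lt_top).ne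
    have : ENNReal.ofReal t < St zt p κ δ q r τ v w hh ω := by
      rw [← ENNReal.ofReal_toReal hS]
      exact (ENNReal.ofReal_lt_ofReal_iff (ht2.1.trans ht3)).2 ht3
    exact this
  filter_upwards [h1] with z hz hz2
  unfold XP
  rw [hz hz2, id_pairX h.par.d2 h.par.d1 (wS_mem _ _) hf]

/-- The data of the analytic part. -/
noncomputable def Good.core (h : Good B zt p κ δ q r τ v w hh) (hr : Measurable r)
    (hr1 : ∀ x, |r x| ≤ 1) : Core zt p κ δ q where
  Ω := Ω
  mΩ := mΩ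
  P := B.P
  prob := B.isProb
  S ω := (St zt p κ δ q r τ v w hh ω).toReal
  S_meas := h.isStop.measurable.ennreal_toReal
  S_nonneg _ := ENNReal.toReal_nonneg
  S_le ω := by
    have := ENNReal.toReal_mono ENNReal.one_ne_top (St_le_one (zt := zt) (p := p) (κ := κ)
      (δ := δ) (q := q) (r := r) (τ := τ) (v := v) (w := w) (hh := hh) ω)
    simpa using this
  w t ω := wS (St zt p κ δ q r τ v w hh) w t.toNNReal ω
  w_meas := (prog_joint h.prog_wS).comp_measurable
    (measurable_fst.real_toNNReal.prodMk measurable_snd)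
  w_zero := by
    rintro t ω (ht | ht)
    · rw [Real.toNNReal_of_nonpos ht]
      exact wS_at_zero
    · refine wS_zero ?_
      have hS : St zt p κ δ q r τ v w hh ω ≠ ∞ := ((St_le_one ω).trans_lt ENNReal.one_lt_top).ne
      rw [← ENNReal.ofReal_toReal hS]
      exact ENNReal.ofReal_le_ofReal ht
  w_mem t ω := (wS_mem _ _).1
  w_rot t ω := (wS_mem _ _).2
  w_int ω := by
    refine le_trans ?_ (wS_int (zt := zt) (p := p) (κ := κ) (δ := δ) (q := q) (r := r) (τ := τ)
      (v := v) (w := w) (hh := hh) (by linarith [h.par.hp]) ω)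
    have h1 := lintegral_lam fun x : ℝ => eLpNorm (wS (St zt p κ δ q r τ v w hh) w x.toNNReal ω)
      (ENNReal.ofReal q) volume ^ p * ENNReal.ofReal (x ^ κ)
    simp only [Real.toNNReal_coe] at h1
    rw [h1]
    exact lintegral_mono_set Ioo_subset_Ioi_self
  X := XP δ (bad zt p κ δ q r τ v w hh) (St zt p κ δ q r τ v w hh) v
  X_meas f hf t := by
    unfold XP
    exact ((pairX_cont δ (phi f)).comp_stronglyMeasurable
      ((h.prog_vS.stronglyAdapted _).mono (B.F.le _))).measurable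
  X_cont f hf ω := by
    unfold XP
    exact (pairX_cont δ (phi f)).comp ((h.cont_vS ω).comp continuous_real_toNNReal)
  X_lin f hf g hg a t ω := by
    unfold XP
    rw [phi_lin hf hg a, pairX_lin h.par.d2 h.par.d1 _ (phi_TF hf) (phi_TF hg) a]
  X_bdd ω := by
    obtain ⟨K, hK0, hK⟩ := pairX_bound h.par.d2 h.par.d1
    obtain ⟨C, hC⟩ := (isCompact_Icc (a := (0 : ℝ≥0)) (b := 1)).exists_bound_of_continuousOn
      (h.cont_vS ω).continuousOn
    refine ⟨K * C, fun f hf t => ?_⟩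
    unfold XP
    refine (hK f hf _).trans ?_
    rw [← vS_stop t.toNNReal ω]
    refine mul_le_mul_of_nonneg_right (mul_le_mul_of_nonneg_left (hC _ ⟨bot_le, ?_⟩) hK0)
      (c4_nonneg f)
    have h1 := (cutT_le_right t.toNNReal (St zt p κ δ q r τ v w hh ω)).trans (St_le_one ω)
    exact_mod_cast h1
  X_init f hf ω := by
    unfold XP
    rw [Real.toNNReal_zero, h.vS_zero ω, v0_pair h.par.d2 h.par.d1 (phi_TF hf), id_init hf]
  X_stop f hf t ω ht := by
    unfold XP
    have hS : St zt p κ δ q r τ v w hh ω ≠ ∞ := ((St_le_one ω).trans_lt ENNReal.one_lt_top).ne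
    rw [← vS_stop t.toNNReal ω]
    congr 2
    unfold cutT
    rw [min_eq_right]
    · exact (Real.toNNReal_coe (r := (St zt p κ δ q r τ v w hh ω).toNNReal)).symm
    · rw [← ENNReal.ofReal_toReal hS]
      exact ENNReal.ofReal_le_ofReal ht
  X_eq f hf := h.x_eq hf
  X_sq f hf := h.x_sq hr hr1 hf
  dynkin f hf j K hj hb t ht := by
    obtain ⟨K', hK'⟩ := h.ito hr hr1 hf
    have h1 := hK'.dynkin (∫ x, Gam0 x * f x) j K hj hb t ht
    simpa only [XR_eq h.par.d2 h.par.d1 hf] using h1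
  product f hf g hg η hη t ht := by
    obtain ⟨K1, hK1⟩ := h.ito hr hr1 hf
    obtain ⟨K2, hK2⟩ := h.ito hr hr1 hg
    obtain ⟨K3, hK3⟩ := h.ito hr hr1 (CB_add hf hg)
    have e1 : (fun (t : ℝ≥0) ω => aF δ (wS (St zt p κ δ q r τ v w hh) w t ω)
        (fun x => f x + g x)) = fun t ω => aF δ (wS (St zt p κ δ q r τ v w hh) w t ω) f +
          aF δ (wS (St zt p κ δ q r τ v w hh) w t ω) g := by
      funext t ω
      exact aF_lin δ h.par.d2 h.par.d1 _ hf hg
    have e2 : (fun (t : ℝ≥0) ω => bF zt δ (wS (St zt p κ δ q r τ v w hh) w t ω)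
        (fun x => f x + g x)) = fun t ω => bF zt δ (wS (St zt p κ δ q r τ v w hh) w t ω) f +
          bF zt δ (wS (St zt p κ δ q r τ v w hh) w t ω) g := by
      funext t ω
      exact bF_lin zt δ h.par.d2 h.par.d1 _ hf hg
    have e3 : MP δ (bad zt p κ δ q r τ v w hh) (St zt p κ δ q r τ v w hh) v w
        (fun x => f x + g x) = fun t ω =>
        MP δ (bad zt p κ δ q r τ v w hh) (St zt p κ δ q r τ v w hh) v w f t ω +
        MP δ (bad zt p κ δ q r τ v w hh) (St zt p κ δ q r τ v w hh) v w g t ω := by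
      funext t ω
      exact h.MP_add hf hg t ω
    rw [e1, e2, e3] at hK3
    have h1 := hK1.product hK2 hK3 (∫ x, Gam0 x * f x) (∫ x, Gam0 x * g x) η hη t ht
    simpa only [XR_eq h.par.d2 h.par.d1 hf, XR_eq h.par.d2 h.par.d1 hg] using h1

end

/-- Block 3: well-posedness yields stopped solutions with `P (S ≤ T)` small. -/
theorem lwpCore {zt p κ δ q : ℝ} (hP : Par zt p κ δ q) : LwpCore zt p κ δ q := by
  intro r hr hr1 hr2 Ω mΩ B h ε hε T₀ hT₀
  obtain ⟨τ, v, w, hh, hg, hsmall⟩ := exists_good hP hr2 h (ε := ENNReal.ofReal ε)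
    (ENNReal.ofReal_pos.2 hε)
  obtain ⟨T, h1, h2, h3⟩ := hg.small hsmall (T₀ := T₀.toNNReal) (Real.toNNReal_pos.2 hT₀)
  refine ⟨T, NNReal.coe_pos.2 h1, ?_, hg.core hr hr1, ?_⟩
  · rw [← Real.coe_toNNReal T₀ hT₀.le]
    exact NNReal.coe_le_coe.2 h2
  · refine lt_of_le_of_lt (le_of_eq ?_) h3
    change B.P {ω | (St zt p κ δ q r τ v w hh ω).toReal ≤ T} = _
    congr 1
    ext ω
    have hS : St zt p κ δ q r τ v w hh ω ≠ ∞ := ((St_le_one ω).trans_lt ENNReal.one_lt_top).ne
    simp only [mem_ofPred_eq]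
    rw [← ENNReal.coe_toReal, ENNReal.toReal_le_toReal hS ENNReal.coe_ne_top]

end Pool.Agent.W_332fe5
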