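import Pool.Agent.W_332fe5_h47.Ident

set_option autoImplicit false

/-! Block 3: continuity and bounds of the functionals `aF`, `bF`, `pairX`. -/

open MeasureTheory ProbabilityTheory Set Filter Topology TopologicalSpace
open scoped ENNReal NNReal

namespace Pool.Agent.W_332fe5

/-! ### Auxiliary fields -/

theorem Func_off {h : E3 → ℝ} (hh : h ∈ CB) {x : E3} (hx : x ∉ Bl) :
    slap h x = 0 ∧ fderiv ℝ h x = 0 :=
  ⟨A1_cb_eq_zero (CB_slap hh) hx,
    image_eq_zero_of_notMem_tsupport fun h' => hx (hh.2.2 (tsupport_fderiv_subset ℝ h'))⟩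

/-- the field representing the linear part of the drift -/
noncomputable def Func_G (h : E3 → ℝ) (x : E3) : E3 := (slap h x + fderiv ℝ h x (kk x)) • mm x

/-- the field representing the quadratic part of the drift -/
noncomputable def Func_M (h : E3 → ℝ) (v : L2) (x : E3) : E3 := fderiv ℝ h x (v x) • mm x

/-- the field representing the noise functional -/
noncomputable def Func_N (h : E3 → ℝ) (x : E3) : E3 := (fderiv ℝ h x x + 3 * h x) • mm x

theorem Func_fc {h : E3 → ℝ} (hh : h ∈ CB) : Continuous (fderiv ℝ h) :=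
  (hh.1.fderiv_right (m := ((⊤ : ℕ∞) : WithTop ℕ∞)) (by simp)).continuous

theorem Func_app {h : E3 → ℝ} (hh : h ∈ CB) {v : E3 → E3}
    (hv : AEStronglyMeasurable v (volume : Measure E3)) :
    AEStronglyMeasurable (fun x => fderiv ℝ h x (v x)) (volume : Measure E3) := by
  have c1 : Continuous fun p : (E3 →L[ℝ] ℝ) × E3 => p.1 p.2 :=
    isBoundedBilinearMap_apply.continuous
  exact c1.comp_aestronglyMeasurable ((Func_fc hh).aestronglyMeasurable.prodMk hv)

theorem Func_ind (c : ℝ) : MemLp (Bl.indicator fun _ : E3 => c) 2 (volume : Measure E3) := by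
  have hBl : MeasurableSet Bl := Metric.isOpen_ball.measurableSet
  have hfin : volume Bl < ∞ := measure_ball_lt_top
  exact memLp_indicator_const 2 hBl c (Or.inr hfin.ne)

theorem Func_G_le {h : E3 → ℝ} (hh : h ∈ CB) {C : ℝ} (hC1 : ∀ x, |slap h x| ≤ C)
    (hC2 : ∀ x, ‖fderiv ℝ h x‖ ≤ C) (x : E3) : ‖Func_G h x‖ ≤ Bl.indicator (fun _ => 3 * C) x := by
  unfold Func_G
  by_cases hx : x ∈ Bl
  · rw [indicator_of_mem hx, add_smul]
    have hm := A13_mm_le hx
    have hm0 := norm_nonneg (mm x)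
    have hC0 : 0 ≤ C := (abs_nonneg _).trans (hC1 x)
    have b1 : ‖slap h x • mm x‖ ≤ C * 1 := by
      rw [norm_smul, Real.norm_eq_abs]
      exact mul_le_mul (hC1 x) hm hm0 hC0
    have b2 : ‖fderiv ℝ h x (kk x) • mm x‖ ≤ C * 2 := by
      rw [norm_smul]
      have e1 : ‖fderiv ℝ h x (kk x)‖ ≤ C * ‖kk x‖ :=
        ((fderiv ℝ h x).le_opNorm _).trans (mul_le_mul_of_nonneg_right (hC2 x) (norm_nonneg _))
      have e2 := Ident_kk_norm x
      rw [← Ident_mm_norm] at e2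
      calc ‖fderiv ℝ h x (kk x)‖ * ‖mm x‖ ≤ C * ‖kk x‖ * ‖mm x‖ :=
            mul_le_mul_of_nonneg_right e1 hm0
        _ = C * (‖mm x‖ * ‖kk x‖) := by ring
        _ ≤ C * 2 := mul_le_mul_of_nonneg_left e2 hC0
    refine (norm_add_le _ _).trans ((add_le_add b1 b2).trans (le_of_eq ?_))
    ring
  · rw [indicator_of_notMem hx, (Func_off hh hx).1, (Func_off hh hx).2]
    simp

theorem Func_G_memLp {h : E3 → ℝ} (hh : h ∈ CB) : MemLp (Func_G h) 2 (volume : Measure E3) := by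
  obtain ⟨C, _, _, hC1, hC2⟩ := Ident_bdd hh
  refine (Func_ind (3 * C)).mono' ?_ (Eventually.of_forall fun x => Func_G_le hh hC1 hC2 x)
  unfold Func_G
  exact ((CB_slap hh).1.continuous.aestronglyMeasurable.add
    (Func_app hh Ident_kk_meas.aestronglyMeasurable)).smul Ident_mm_cont.aestronglyMeasurable

theorem Func_M_le {h : E3 → ℝ} (hh : h ∈ CB) {C : ℝ} (hC2 : ∀ x, ‖fderiv ℝ h x‖ ≤ C) (v : L2)
    (x : E3) : ‖Func_M h v x‖ ≤ C * ‖v x‖ := by
  unfold Func_M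
  have hC0 : 0 ≤ C := (norm_nonneg _).trans (hC2 x)
  by_cases hx : x ∈ Bl
  · have hm := A13_mm_le hx
    rw [norm_smul]
    have e1 : ‖fderiv ℝ h x (v x)‖ ≤ C * ‖v x‖ :=
      ((fderiv ℝ h x).le_opNorm _).trans (mul_le_mul_of_nonneg_right (hC2 x) (norm_nonneg _))
    calc ‖fderiv ℝ h x (v x)‖ * ‖mm x‖ ≤ C * ‖v x‖ * 1 :=
          mul_le_mul e1 hm (norm_nonneg _) (by positivity)
      _ = C * ‖v x‖ := mul_one _
  · rw [(Func_off hh hx).2]
    simp only [zero_apply, zero_smul, norm_zero]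
    positivity

theorem Func_M_memLp {h : E3 → ℝ} (hh : h ∈ CB) (v : L2) :
    MemLp (Func_M h v) 2 (volume : Measure E3) := by
  obtain ⟨C, _, _, _, hC2⟩ := Ident_bdd hh
  refine ((Lp.memLp v).norm.const_mul C).mono' ?_
    (Eventually.of_forall fun x => Func_M_le hh hC2 v x)
  unfold Func_M
  exact (Func_app hh (Lp.aestronglyMeasurable v)).smul Ident_mm_cont.aestronglyMeasurable

theorem Func_N_memLp {h : E3 → ℝ} (hh : h ∈ CB) : MemLp (Func_N h) 2 (volume : Measure E3) := by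
  obtain ⟨C, hC0, hC, _, hC2⟩ := Ident_bdd hh
  refine (Func_ind (4 * C)).mono' ?_ (Eventually.of_forall fun x => ?_)
  · unfold Func_N
    exact ((Func_app hh aestronglyMeasurable_id).add
      (hh.1.continuous.aestronglyMeasurable.const_mul 3)).smul Ident_mm_cont.aestronglyMeasurable
  · unfold Func_N
    by_cases hx : x ∈ Bl
    · rw [indicator_of_mem hx, norm_smul]
      have hm := A13_mm_le hx
      have hx1 : ‖x‖ ≤ 1 := by
        have h3 : x ∈ Metric.ball (0 : E3) 1 := hx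
        rw [Metric.mem_ball, dist_zero_right] at h3
        exact h3.le
      have b1 : ‖fderiv ℝ h x x‖ ≤ C * 1 :=
        ((fderiv ℝ h x).le_opNorm _).trans (mul_le_mul (hC2 x) hx1 (norm_nonneg _) hC0)
      have b2 : ‖3 * h x‖ ≤ 3 * C := by
        rw [norm_mul, Real.norm_eq_abs, Real.norm_eq_abs, abs_of_pos (by norm_num : (0 : ℝ) < 3)]
        exact mul_le_mul_of_nonneg_left (hC x) (by norm_num)
      have b3 : ‖fderiv ℝ h x x + 3 * h x‖ ≤ 4 * C := by
        refine (norm_add_le _ _).trans ?_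
        linarith
      calc ‖fderiv ℝ h x x + 3 * h x‖ * ‖mm x‖ ≤ 4 * C * 1 :=
            mul_le_mul b3 hm (norm_nonneg _) (by positivity)
        _ = 4 * C := mul_one _
    · rw [indicator_of_notMem hx, (Func_off hh hx).2, A1_cb_eq_zero hh hx]
      simp

theorem Func_L_add {h : E3 → ℝ} (hh : h ∈ CB) (v v' : L2) :
    toL2 (Func_M h (v + v')) = toL2 (Func_M h v) + toL2 (Func_M h v') := by
  refine Lp.ext ?_
  filter_upwards [toL2_coe (Func_M_memLp hh (v + v')), toL2_coe (Func_M_memLp hh v),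
    toL2_coe (Func_M_memLp hh v'), Lp.coeFn_add v v',
    Lp.coeFn_add (toL2 (Func_M h v)) (toL2 (Func_M h v'))] with x h1 h2 h3 h4 h5
  rw [h1, h5, Pi.add_apply, h2, h3]
  unfold Func_M
  rw [h4, Pi.add_apply, map_add, add_smul]

theorem Func_L_smul {h : E3 → ℝ} (hh : h ∈ CB) (a : ℝ) (v : L2) :
    toL2 (Func_M h (a • v)) = a • toL2 (Func_M h v) := by
  refine Lp.ext ?_
  filter_upwards [toL2_coe (Func_M_memLp hh (a • v)), toL2_coe (Func_M_memLp hh v),
    Lp.coeFn_smul a v, Lp.coeFn_smul a (toL2 (Func_M h v))] with x h1 h2 h3 h4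
  rw [h1, h4, Pi.smul_apply, h2]
  unfold Func_M
  rw [h3, Pi.smul_apply, map_smul, smul_assoc]

theorem Func_L_bd {h : E3 → ℝ} (hh : h ∈ CB) :
    ∃ C : ℝ, ∀ v : L2, ‖toL2 (Func_M h v)‖ ≤ C * ‖v‖ := by
  obtain ⟨C, hC0, _, _, hC2⟩ := Ident_bdd hh
  refine ⟨C, fun v => ?_⟩
  have h1 : eLpNorm (toL2 (Func_M h v)) 2 volume ≤ ENNReal.ofReal C * eLpNorm v 2 volume := by
    rw [eLpNorm_congr_ae (toL2_coe (Func_M_memLp hh v))]
    refine eLpNorm_le_mul_eLpNorm_of_ae_le_mul (Eventually.of_forall fun x => ?_) 2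
    exact Func_M_le hh hC2 v x
  rw [Lp.norm_def, Lp.norm_def]
  have h2 := ENNReal.toReal_mono (ENNReal.mul_ne_top ENNReal.ofReal_ne_top
    (Lp.eLpNorm_ne_top v)) h1
  rwa [ENNReal.toReal_mul, ENNReal.toReal_ofReal hC0] at h2

/-- the quadratic part as a bounded linear operator -/
noncomputable def Func_L {h : E3 → ℝ} (hh : h ∈ CB) : L2 →L[ℝ] L2 :=
  LinearMap.mkContinuousOfExistsBound
    { toFun := fun v => toL2 (Func_M h v)
      map_add' := Func_L_add hh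
      map_smul' := Func_L_smul hh }
    (Func_L_bd hh)

theorem Func_L_apply {h : E3 → ℝ} (hh : h ∈ CB) (v : L2) : Func_L hh v = toL2 (Func_M h v) := rfl

theorem Func_int {φ : E3 → E3} (hφ : MemLp φ 2 (volume : Measure E3)) (u : L2) :
    Integrable fun x => inner ℝ (u x) (φ x) := by
  refine (L2.integrable_inner (𝕜 := ℝ) u (toL2 φ)).congr ?_
  filter_upwards [toL2_coe hφ] with x hx
  rw [hx]

/-- the pairing as an integral against `Γ` -/
theorem Func_pt (δ : ℝ) (w : L2) (c : ℝ) (x : E3) :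
    inner ℝ (fld Bl δ w x) (c • mm x) = Gam δ w x * c := by
  rw [inner_smul_right, mul_comm]
  rfl

theorem Func_aF {h : E3 → ℝ} (hh : h ∈ CB) (δ : ℝ) (w : L2) : aF δ w h =
    inner ℝ (fld Bl δ w) (toL2 (Func_G h)) + inner ℝ (fld Bl δ w) (Func_L hh (fld Bl δ w)) := by
  rw [Func_L_apply, ← pair_toL2 _ (Func_G_memLp hh), ← pair_toL2 _ (Func_M_memLp hh _)]
  unfold pair aF
  rw [← integral_add (Func_int (Func_G_memLp hh) _) (Func_int (Func_M_memLp hh _) _)]
  congr 1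
  funext x
  rw [← Func_pt, add_smul, inner_add_right]
  rfl

theorem Func_bF {h : E3 → ℝ} (hh : h ∈ CB) (zt δ : ℝ) (w : L2) : bF zt δ w h =
    -cc zt * inner ℝ (fld Bl δ w) (toL2 (Func_N h)) := by
  rw [← pair_toL2 _ (Func_N_memLp hh)]
  unfold pair bF
  congr 2
  funext x
  rw [← Func_pt]
  rfl

theorem Func_aF_int {h : E3 → ℝ} (hh : h ∈ CB) (δ : ℝ) (w : L2) : Integrable fun x =>
    Gam δ w x * (slap h x + fderiv ℝ h x (kk x) + fderiv ℝ h x (fld Bl δ w x)) := by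
  refine ((Func_int (Func_G_memLp hh) (fld Bl δ w)).add
    (Func_int (Func_M_memLp hh (fld Bl δ w)) (fld Bl δ w))).congr (ae_of_all _ fun x => ?_)
  simp only [Pi.add_apply]
  rw [← Func_pt, add_smul _ (fderiv ℝ h x (fld Bl δ w x)), inner_add_right]
  rfl

theorem Func_bF_int {h : E3 → ℝ} (hh : h ∈ CB) (δ : ℝ) (w : L2) : Integrable fun x =>
    Gam δ w x * (fderiv ℝ h x x + 3 * h x) := by
  refine (Func_int (Func_N_memLp hh) (fld Bl δ w)).congr (ae_of_all _ fun x => ?_)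
  simp only
  rw [← Func_pt]
  rfl

/-! ### The statements -/

theorem aF_bound {δ : ℝ} (h0 : -(1 / 4) < δ) (h1 : δ ≤ 0) {h : E3 → ℝ} (hh : h ∈ CB) :
    ∃ K : ℝ, 0 ≤ K ∧ ∀ w : L2, |aF δ w h| ≤ K * (‖w‖ + ‖w‖ ^ 2) := by
  refine ⟨‖toL2 (Func_G h)‖ + ‖Func_L hh‖, by positivity, fun w => ?_⟩
  rw [Func_aF hh]
  have hf := fld_norm h0 h1 w
  have hf0 := norm_nonneg (fld Bl δ w)
  have b1 : |inner ℝ (fld Bl δ w) (toL2 (Func_G h))| ≤ ‖w‖ * ‖toL2 (Func_G h)‖ :=
    (abs_real_inner_le_norm _ _).trans (mul_le_mul_of_nonneg_right hf (norm_nonneg _))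
  have b2 : |inner ℝ (fld Bl δ w) (Func_L hh (fld Bl δ w))| ≤ ‖w‖ * (‖Func_L hh‖ * ‖w‖) := by
    refine (abs_real_inner_le_norm _ _).trans (mul_le_mul hf ?_ (norm_nonneg _) (norm_nonneg _))
    exact ((Func_L hh).le_opNorm _).trans (mul_le_mul_of_nonneg_left hf (norm_nonneg _))
  refine (abs_add_le _ _).trans ((add_le_add b1 b2).trans ?_)
  have n1 := norm_nonneg w
  have n2 := norm_nonneg (toL2 (Func_G h))
  have n3 := norm_nonneg (Func_L hh)
  nlinarith [mul_nonneg n2 (sq_nonneg ‖w‖), mul_nonneg n3 n1]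

theorem aF_cont {δ : ℝ} (h0 : -(1 / 4) < δ) (h1 : δ ≤ 0) {h : E3 → ℝ} (hh : h ∈ CB) :
    Continuous fun w : L2 => aF δ w h := by
  simp only [Func_aF hh]
  have hc := fld_cont h0 h1
  exact (hc.inner continuous_const).add (hc.inner ((Func_L hh).continuous.comp hc))

theorem bF_bound (zt : ℝ) {δ : ℝ} (h0 : -(1 / 4) < δ) (h1 : δ ≤ 0) {h : E3 → ℝ} (hh : h ∈ CB) :
    ∃ K : ℝ, 0 ≤ K ∧ ∀ w : L2, |bF zt δ w h| ≤ K * ‖w‖ := by
  refine ⟨|cc zt| * ‖toL2 (Func_N h)‖, by positivity, fun w => ?_⟩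
  rw [Func_bF hh, abs_mul, abs_neg, mul_assoc]
  refine mul_le_mul_of_nonneg_left ?_ (abs_nonneg _)
  rw [mul_comm ‖toL2 (Func_N h)‖]
  exact (abs_real_inner_le_norm _ _).trans
    (mul_le_mul_of_nonneg_right (fld_norm h0 h1 w) (norm_nonneg _))

theorem bF_cont (zt : ℝ) {δ : ℝ} (h0 : -(1 / 4) < δ) (h1 : δ ≤ 0) {h : E3 → ℝ} (hh : h ∈ CB) :
    Continuous fun w : L2 => bF zt δ w h := by
  simp only [Func_bF hh]
  exact continuous_const.mul ((fld_cont h0 h1).inner continuous_const)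

theorem Func_fderiv_add {h h' : E3 → ℝ} (hh : h ∈ CB) (hh' : h' ∈ CB) :
    fderiv ℝ (fun x => h x + h' x) = fun x => fderiv ℝ h x + fderiv ℝ h' x := by
  funext x
  exact fderiv_fun_add (A1_cb_diff hh x) (A1_cb_diff hh' x)

theorem Func_slap_add {h h' : E3 → ℝ} (hh : h ∈ CB) (hh' : h' ∈ CB) (x : E3) :
    slap (fun x => h x + h' x) x = slap h x + slap h' x := by
  unfold slap
  rw [← Finset.sum_add_distrib]
  refine Finset.sum_congr rfl fun j _ => ?_
  rw [Func_fderiv_add hh hh']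
  simp only [add_apply]
  rw [fderiv_fun_add (A1_cb_diff (A1_cb_pd hh _) x) (A1_cb_diff (A1_cb_pd hh' _) x), add_apply]

theorem aF_lin (δ : ℝ) (h0 : -(1 / 4) < δ) (h1 : δ ≤ 0) (w : L2) {h h' : E3 → ℝ} (hh : h ∈ CB)
    (hh' : h' ∈ CB) : aF δ w (fun x => h x + h' x) = aF δ w h + aF δ w h' := by
  have _ := h0
  have _ := h1
  unfold aF
  rw [← integral_add (Func_aF_int hh δ w) (Func_aF_int hh' δ w)]
  congr 1
  funext x
  rw [Func_slap_add hh hh', Func_fderiv_add hh hh']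
  simp only [add_apply]
  ring

theorem bF_lin (zt δ : ℝ) (h0 : -(1 / 4) < δ) (h1 : δ ≤ 0) (w : L2) {h h' : E3 → ℝ} (hh : h ∈ CB)
    (hh' : h' ∈ CB) : bF zt δ w (fun x => h x + h' x) = bF zt δ w h + bF zt δ w h' := by
  have _ := h0
  have _ := h1
  unfold bF
  rw [← mul_add, ← integral_add (Func_bF_int hh δ w) (Func_bF_int hh' δ w)]
  congr 2
  funext x
  rw [Func_fderiv_add hh hh']
  simp only [add_apply]
  ring

theorem Func_Gam_zero (δ : ℝ) (h0 : -(1 / 4) < δ) (h1 : δ ≤ 0) :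
    ∀ᵐ x ∂(volume : Measure E3), Gam δ 0 x = 0 := by
  have e : fld Bl δ (0 : L2) = 0 := by
    rw [← norm_le_zero_iff]
    simpa using fld_norm h0 h1 (0 : L2)
  filter_upwards [Lp.coeFn_zero E3 2 (volume : Measure E3)] with x hx
  unfold Gam
  rw [e, hx, Pi.zero_apply, inner_zero_left]

theorem aF_zero (δ : ℝ) (h0 : -(1 / 4) < δ) (h1 : δ ≤ 0) (h : E3 → ℝ) : aF δ 0 h = 0 := by
  unfold aF
  refine integral_eq_zero_of_ae ?_
  filter_upwards [Func_Gam_zero δ h0 h1] with x hx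
  rw [hx, zero_mul, Pi.zero_apply]

theorem bF_zero (zt δ : ℝ) (h0 : -(1 / 4) < δ) (h1 : δ ≤ 0) (h : E3 → ℝ) : bF zt δ 0 h = 0 := by
  unfold bF
  have e : ∫ x, Gam δ 0 x * (fderiv ℝ h x x + 3 * h x) = 0 := by
    refine integral_eq_zero_of_ae ?_
    filter_upwards [Func_Gam_zero δ h0 h1] with x hx
    rw [hx, zero_mul, Pi.zero_apply]
  rw [e, mul_zero]

theorem pairX_cont (δ : ℝ) (φ : E3 → E3) : Continuous fun v : L2 => pairX Bl δ v φ := by
  unfold pairX
  simp only [pair_eq_inner]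
  exact (continuous_id.inner continuous_const).neg

theorem Func_lapl_lin {φ φ' : E3 → E3} (hφ : φ ∈ CV) (hφ' : φ' ∈ CV) (a : ℝ) :
    lapl (fun x => φ x + a • φ' x) = fun x => lapl φ x + a • lapl φ' x := by
  funext x
  unfold lapl
  rw [Finset.smul_sum, ← Finset.sum_add_distrib]
  refine Finset.sum_congr rfl fun j _ => ?_
  rw [A1_pd_lin hφ hφ', A1_pd_lin (CV_pd hφ j) (CV_pd hφ' j)]

theorem pairX_lin {δ : ℝ} (h0 : -(1 / 4) < δ) (h1 : δ ≤ 0) (v : L2) {φ φ' : E3 → E3}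
    (hφ : φ ∈ TF Bl) (hφ' : φ' ∈ TF Bl) (a : ℝ) :
    pairX Bl δ v (fun x => φ x + a • φ' x) = pairX Bl δ v φ + a * pairX Bl δ v φ' := by
  unfold pairX
  rw [Func_lapl_lin (TF_sub_CV hφ) (TF_sub_CV hφ'),
    toL2_lin (CV_memLp (CV_lapl (TF_sub_CV hφ)) 2) (CV_memLp (CV_lapl (TF_sub_CV hφ')) 2),
    negPow_lin (by linarith) (by linarith), pair_eq_inner, pair_eq_inner, pair_eq_inner,
    inner_add_right, inner_smul_right]
  ring

theorem Func_bddk {h : E3 → ℝ} (hh : h ∈ CB) (k : ℕ) :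
    BddAbove (range fun x => ‖iteratedFDeriv ℝ k h x‖) := by
  have hc : Continuous (iteratedFDeriv ℝ k h) :=
    hh.1.continuous_iteratedFDeriv (m := k) (by exact_mod_cast le_top)
  obtain ⟨C, hC⟩ := (hh.2.1.iteratedFDeriv (𝕜 := ℝ) k).exists_bound_of_continuous hc
  exact ⟨C, by rintro _ ⟨x, rfl⟩; exact hC x⟩

theorem Func_le_c4 {h : E3 → ℝ} (hh : h ∈ CB) {k : ℕ} (hk : k < 5) (x : E3) :
    ‖iteratedFDeriv ℝ k h x‖ ≤ c4 h := by
  refine (le_ciSup (Func_bddk hh k) x).trans ?_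
  unfold c4
  exact Finset.single_le_sum (f := fun k => ⨆ x, ‖iteratedFDeriv ℝ k h x‖)
    (fun k _ => Real.iSup_nonneg fun _ => norm_nonneg _) (Finset.mem_range.2 hk)

theorem Func_c4_nonneg (h : E3 → ℝ) : 0 ≤ c4 h := by
  unfold c4
  exact Finset.sum_nonneg fun k _ => Real.iSup_nonneg fun _ => norm_nonneg _

theorem Func_slap_c4 {h : E3 → ℝ} (hh : h ∈ CB) (x : E3) : |slap h x| ≤ 3 * c4 h := by
  have hd : DifferentiableAt ℝ (fderiv ℝ h) x :=
    ((hh.1.fderiv_right (m := ((⊤ : ℕ∞) : WithTop ℕ∞)) (by simp)).differentiable (by simp)) x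
  have h1 : ∀ j : Fin 3, |fderiv ℝ (fun z => fderiv ℝ h z (EuclideanSpace.single j 1)) x
      (EuclideanSpace.single j 1)| ≤ c4 h := by
    intro j
    rw [A8b_snd hh.1]
    have e : (fderiv ℝ (fderiv ℝ h) x (EuclideanSpace.single j 1)) (EuclideanSpace.single j 1) =
        iteratedFDeriv ℝ 2 h x ![EuclideanSpace.single j 1, EuclideanSpace.single j 1] := by
      rw [iteratedFDeriv_two_apply]
      rfl
    rw [e, ← Real.norm_eq_abs]
    refine (ContinuousMultilinearMap.le_opNorm _ _).trans ?_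
    rw [Fin.prod_univ_two]
    simp only [Matrix.cons_val_zero, Matrix.cons_val_one, PiLp.norm_single, norm_one,
      mul_one]
    exact Func_le_c4 hh (by norm_num) x
  unfold slap
  refine (Finset.abs_sum_le_sum_abs _ _).trans ((Finset.sum_le_sum fun j _ => h1 j).trans ?_)
  rw [Finset.sum_const, Finset.card_univ, Fintype.card_fin, nsmul_eq_mul]
  norm_num

theorem Func_fderiv_c4 {h : E3 → ℝ} (hh : h ∈ CB) (x : E3) : ‖fderiv ℝ h x‖ ≤ c4 h := by
  rw [← norm_iteratedFDeriv_one]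
  exact Func_le_c4 hh (by norm_num) x

theorem Func_avg_le {g : ℝ → ℝ} {C : ℝ} (hg : ∀ a, |g a| ≤ C) :
    |(2 * Real.pi)⁻¹ * ∫ a in (0 : ℝ)..(2 * Real.pi), g a| ≤ C := by
  have hp : (0 : ℝ) < 2 * Real.pi := by positivity
  have h1 := intervalIntegral.norm_integral_le_of_norm_le_const (a := 0) (b := 2 * Real.pi)
    (f := g) (C := C) fun a _ => hg a
  rw [sub_zero, abs_of_pos hp, Real.norm_eq_abs] at h1
  rw [abs_mul, abs_of_pos (inv_pos.2 hp)]
  calc (2 * Real.pi)⁻¹ * |∫ a in (0 : ℝ)..(2 * Real.pi), g a| ≤ (2 * Real.pi)⁻¹ * (C * (2 * Real.pi)) :=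
        mul_le_mul_of_nonneg_left h1 (inv_pos.2 hp).le
    _ = C := by field_simp

/-- `|⟨v, φ_h⟩| ≤ K ‖v‖ ‖h‖_(C⁴)`. -/
theorem pairX_bound {δ : ℝ} (h0 : -(1 / 4) < δ) (h1 : δ ≤ 0) :
    ∃ K : ℝ, 0 ≤ K ∧ ∀ h ∈ CB, ∀ v : L2, |pairX Bl δ v (phi h)| ≤ K * ‖v‖ * c4 h := by
  have hBl : MeasurableSet Bl := Metric.isOpen_ball.measurableSet
  have hfin : volume Bl < ∞ := measure_ball_lt_top
  refine ⟨9 * (eLpNorm (Bl.indicator fun _ : E3 => (1 : ℝ)) 2 volume).toReal, by positivity,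
    fun h hh v => ?_⟩
  have hc0 := Func_c4_nonneg h
  have ha := avg_mem hh
  have hs : ∀ x, |slap (avg h) x| ≤ 3 * c4 h := by
    intro x
    rw [slap_avg hh]
    exact Func_avg_le fun a => Func_slap_c4 hh _
  have hf : ∀ x, ‖fderiv ℝ (avg h) x‖ ≤ 3 * c4 h := by
    intro x
    refine ContinuousLinearMap.opNorm_le_bound _ (by positivity) fun y => ?_
    rw [fderiv_avg hh, Real.norm_eq_abs]
    refine Func_avg_le fun a => ?_
    rw [← Real.norm_eq_abs]
    refine ((fderiv ℝ h (rot a x)).le_opNorm _).trans ?_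
    rw [norm_rot]
    refine mul_le_mul_of_nonneg_right ((Func_fderiv_c4 hh _).trans ?_) (norm_nonneg _)
    linarith
  have hm : MemLp (lapl (phi h)) 2 (volume : Measure E3) :=
    CV_memLp (CV_lapl (TF_sub_CV (phi_TF hh))) 2
  have hb : ∀ᵐ x ∂(volume : Measure E3), ‖lapl (phi h) x‖ ≤
      9 * c4 h * ‖Bl.indicator (fun _ : E3 => (1 : ℝ)) x‖ := by
    filter_upwards [Ident_axis] with x hx
    have e0 : phi h = fun x => avg h x • mm x := rfl
    rw [e0, lapl_hmm ha.1 (avg_rot hh) hx]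
    have h3 := Func_G_le ha hs hf x
    unfold Func_G at h3
    refine h3.trans (le_of_eq ?_)
    by_cases hxB : x ∈ Bl
    · rw [indicator_of_mem hxB, indicator_of_mem hxB, norm_one]
      ring
    · rw [indicator_of_notMem hxB, indicator_of_notMem hxB, norm_zero, mul_zero]
  have hn : ‖toL2 (lapl (phi h))‖ ≤
      9 * c4 h * (eLpNorm (Bl.indicator fun _ : E3 => (1 : ℝ)) 2 volume).toReal := by
    rw [Lp.norm_def, eLpNorm_congr_ae (toL2_coe hm)]
    have h2 := ENNReal.toReal_mono (ENNReal.mul_ne_top ENNReal.ofReal_ne_top (Func_ind 1).2.ne)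
      (eLpNorm_le_mul_eLpNorm_of_ae_le_mul hb 2)
    rwa [ENNReal.toReal_mul, ENNReal.toReal_ofReal (by positivity)] at h2
  unfold pairX
  rw [abs_neg, pair_eq_inner]
  refine (abs_real_inner_le_norm _ _).trans ?_
  calc ‖v‖ * ‖negPow Bl ((1 + δ) / 2) (toL2 (lapl (phi h)))‖ ≤
        ‖v‖ * (9 * c4 h * (eLpNorm (Bl.indicator fun _ : E3 => (1 : ℝ)) 2 volume).toReal) :=
        mul_le_mul_of_nonneg_left ((norm_negPow_le (by linarith) (by linarith) _).trans hn)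
          (norm_nonneg _)
    _ = _ := by ring

end Pool.Agent.W_332fe5
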