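import Pool.Agent.W_332fe5_h47.Norms
import Pool.Agent.W_332fe5.O.A13
import Pool.Agent.W_332fe5.O.A5

set_option autoImplicit false

/-! Block 3, part II: the scalar identities for rotation invariant fields (section (3.2)). -/

open MeasureTheory ProbabilityTheory Set Filter Topology TopologicalSpace
open scoped ENNReal NNReal

namespace Pool.Agent.W_332fe5

/-- The test field `h̄ m` of a scalar test function. -/
noncomputable def phi (h : E3 → ℝ) : E3 → E3 := fun x => avg h x • mm x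

theorem phi_TF {h : E3 → ℝ} (hh : h ∈ CB) : phi h ∈ TF Bl := avg_mm hh

theorem phi_lin {h h' : E3 → ℝ} (hh : h ∈ CB) (hh' : h' ∈ CB) (a : ℝ) :
    phi (fun x => h x + a * h' x) = fun x => phi h x + a • phi h' x := by
  unfold phi
  rw [avg_lin hh hh']
  funext x
  rw [add_smul, mul_smul]

theorem Ident_u_int {δ : ℝ} (h0 : -(1 / 4) < δ) (h1 : δ ≤ 0) (w : L2) :
    Integrable (fld Bl δ w) := by
  have hBl : MeasurableSet Bl := Metric.isOpen_ball.measurableSet
  have hfin : volume Bl < ∞ := measure_ball_lt_top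
  have : IsFiniteMeasure ((volume : Measure E3).restrict Bl) := ⟨by
    rw [Measure.restrict_apply_univ]; exact hfin⟩
  have h2 : IntegrableOn (fld Bl δ w) Bl volume :=
    ((Lp.memLp (fld Bl δ w)).restrict Bl).integrable one_le_two
  have h3 : Integrable (Bl.indicator (fld Bl δ w)) volume := (integrable_indicator_iff hBl).2 h2
  refine h3.congr ?_
  filter_upwards [fld_supp h0 h1 w] with x hx
  by_cases hx' : x ∈ Bl
  · rw [indicator_of_mem hx']
  · rw [indicator_of_notMem hx', hx hx']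

theorem Ident_mm_norm (x : E3) : ‖mm x‖ = Real.sqrt (ax2 x) := by
  rw [← norm_mm_sq, Real.sqrt_sq (norm_nonneg _)]

theorem Ident_mm_cont : Continuous mm := A8b_mmL.continuous

theorem Ident_Gam_meas (δ : ℝ) (w : L2) : AEStronglyMeasurable (Gam δ w) volume := by
  unfold Gam
  exact (Lp.aestronglyMeasurable (fld Bl δ w)).inner Ident_mm_cont.aestronglyMeasurable

/-- `|Γ| ≤ ρ |u| ≤ |u|`. -/
theorem abs_Gam_le (δ : ℝ) (w : L2) (x : E3) :
    |Gam δ w x| ≤ Real.sqrt (ax2 x) * ‖fld Bl δ w x‖ := by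
  unfold Gam
  refine (abs_real_inner_le_norm _ _).trans ?_
  rw [Ident_mm_norm, mul_comm]

theorem Ident_abs_Gam_le' {δ : ℝ} (h0 : -(1 / 4) < δ) (h1 : δ ≤ 0) (w : L2) :
    ∀ᵐ x ∂(volume : Measure E3), |Gam δ w x| ≤ ‖fld Bl δ w x‖ := by
  filter_upwards [fld_supp h0 h1 w] with x hx
  by_cases hx' : x ∈ Bl
  · refine (abs_Gam_le δ w x).trans ?_
    have := A13_mm_le hx'
    rw [Ident_mm_norm] at this
    nlinarith [norm_nonneg (fld Bl δ w x)]
  · unfold Gam
    rw [hx hx', inner_zero_left, abs_zero, norm_zero]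

/-- `Γ` is integrable. -/
theorem Gam_integrable {δ : ℝ} (h0 : -(1 / 4) < δ) (h1 : δ ≤ 0) (w : L2) :
    Integrable (Gam δ w) := by
  refine (Ident_u_int h0 h1 w).norm.mono' (Ident_Gam_meas δ w) ?_
  exact Ident_abs_Gam_le' h0 h1 w

/-- `Γ` is rotation invariant. -/
theorem Gam_rot {δ : ℝ} (h0 : -(1 / 4) < δ) (h1 : δ ≤ 0) {w : L2} (hw : RotInv w) (a : ℝ) :
    (fun x => Gam δ w (rot a x)) =ᵐ[volume] Gam δ w := by
  have h2 : RotInv (fld Bl δ w) := RotInv_negPow (by linarith) (by linarith) hw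
  exact Gam_inv h2 a

theorem Ident_kk_meas : Measurable kk := by
  have h1 : Measurable ax2 := by
    unfold ax2
    fun_prop
  have h2 : Continuous fun x : E3 => (!₂[x 0, x 1, 0] : E3) := by
    have h : (fun x : E3 => (!₂[x 0, x 1, 0] : E3)) =
      fun x : E3 => (WithLp.toLp 2 ![x 0, x 1, 0] : E3) := rfl
    rw [h]
    refine (PiLp.continuous_toLp 2 _).comp ?_
    refine continuous_pi fun i => ?_
    fin_cases i
    · simp; fun_prop
    · simp; fun_prop
    · simp; fun_prop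
  unfold kk
  exact (h1.const_div 2).smul h2.measurable

theorem Ident_kk_norm (x : E3) : Real.sqrt (ax2 x) * ‖kk x‖ ≤ 2 := by
  have ha : 0 ≤ ax2 x := by
    unfold ax2
    positivity
  have h1 : ‖(!₂[x 0, x 1, 0] : E3)‖ = Real.sqrt (ax2 x) := by
    rw [EuclideanSpace.norm_eq, Fin.sum_univ_three]
    simp [ax2]
  unfold kk
  rw [norm_smul, h1, Real.norm_eq_abs, abs_of_nonneg (by positivity)]
  rcases ha.eq_or_lt with h | h
  · rw [← h]; simp
  · have h2 : Real.sqrt (ax2 x) * Real.sqrt (ax2 x) = ax2 x := Real.mul_self_sqrt ha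
    apply le_of_eq
    calc Real.sqrt (ax2 x) * (2 / ax2 x * Real.sqrt (ax2 x)) =
        2 / ax2 x * (Real.sqrt (ax2 x) * Real.sqrt (ax2 x)) := by ring
      _ = 2 := by rw [h2]; field_simp

theorem Ident_Gamk_le (δ : ℝ) (w : L2) (x : E3) :
    |Gam δ w x| * ‖kk x‖ ≤ 2 * ‖fld Bl δ w x‖ := by
  have h1 := abs_Gam_le δ w x
  have h2 := Ident_kk_norm x
  have h3 := mul_le_mul_of_nonneg_right h1 (norm_nonneg (kk x))
  have h4 := mul_le_mul_of_nonneg_right h2 (norm_nonneg (fld Bl δ w x))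
  linarith [h3, h4]

/-- `Γ k` is an integrable invariant vector field, `|Γ k| ≤ 2 |u|`. -/
theorem Gamk_integrable {δ : ℝ} (h0 : -(1 / 4) < δ) (h1 : δ ≤ 0) (w : L2) :
    Integrable fun x => Gam δ w x • kk x := by
  refine ((Ident_u_int h0 h1 w).norm.const_mul 2).mono'
    ((Ident_Gam_meas δ w).smul Ident_kk_meas.aestronglyMeasurable) (Eventually.of_forall fun x => ?_)
  rw [norm_smul, Real.norm_eq_abs]
  exact Ident_Gamk_le δ w x

/-- `Γ u` is an integrable vector field. -/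
theorem Gamu_integrable {δ : ℝ} (h0 : -(1 / 4) < δ) (h1 : δ ≤ 0) (w : L2) :
    Integrable fun x => Gam δ w x • fld Bl δ w x := by
  have h2 : Integrable fun x => ‖fld Bl δ w x‖ ^ 2 := (Lp.memLp (fld Bl δ w)).integrable_norm_pow
    two_ne_zero
  refine h2.mono' ((Ident_Gam_meas δ w).smul (Lp.aestronglyMeasurable _)) ?_
  filter_upwards [Ident_abs_Gam_le' h0 h1 w] with x hx
  rw [norm_smul, Real.norm_eq_abs, sq]
  exact mul_le_mul_of_nonneg_right hx (norm_nonneg _)

theorem Ident_axis : ∀ᵐ x ∂(volume : Measure E3), ax2 x ≠ 0 := by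
  let L : E3 →ₗ[ℝ] ℝ := (EuclideanSpace.proj (0 : Fin 3) : E3 →L[ℝ] ℝ).toLinearMap
  have h1 : LinearMap.ker L ≠ ⊤ := by
    intro h
    have h2 : (EuclideanSpace.single (0 : Fin 3) (1 : ℝ) : E3) ∈ LinearMap.ker L := by
      rw [h]; trivial
    rw [LinearMap.mem_ker] at h2
    simp [L] at h2
  have h2 : volume (LinearMap.ker L : Set E3) = 0 := Measure.addHaar_submodule _ _ h1
  rw [ae_iff]
  refine measure_mono_null (fun x hx => ?_) h2
  have hx' : ax2 x = 0 := by simpa using hx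
  have h3 : x 0 = 0 := by
    unfold ax2 at hx'
    nlinarith [sq_nonneg (x 0), sq_nonneg (x 1)]
  show x ∈ LinearMap.ker L
  rw [LinearMap.mem_ker]
  simpa [L] using h3

theorem Ident_bdd {h : E3 → ℝ} (hh : h ∈ CB) : ∃ C : ℝ, 0 ≤ C ∧ (∀ x, |h x| ≤ C) ∧
    (∀ x, |slap h x| ≤ C) ∧ ∀ x, ‖fderiv ℝ h x‖ ≤ C := by
  have hfc : Continuous (fderiv ℝ h) :=
    (hh.1.fderiv_right (m := ((⊤ : ℕ∞) : WithTop ℕ∞)) (by simp)).continuous
  obtain ⟨C1, hC1⟩ := hh.2.1.exists_bound_of_continuous hh.1.continuous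
  obtain ⟨C2, hC2⟩ := (CB_slap hh).2.1.exists_bound_of_continuous (CB_slap hh).1.continuous
  obtain ⟨C3, hC3⟩ := (hh.2.1.fderiv (𝕜 := ℝ)).exists_bound_of_continuous hfc
  refine ⟨max C1 (max C2 C3), ?_, fun x => ?_, fun x => ?_, fun x => ?_⟩
  · exact ((norm_nonneg _).trans (hC1 0)).trans (le_max_left _ _)
  · exact (hC1 x).trans (le_max_left _ _)
  · exact (hC2 x).trans ((le_max_left _ _).trans (le_max_right _ _))
  · exact (hC3 x).trans ((le_max_right _ _).trans (le_max_right _ _))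

/-- Products with bounded continuous functions. -/
theorem Ident_int_mul {δ : ℝ} (h0 : -(1 / 4) < δ) (h1 : δ ≤ 0) (w : L2) {g : E3 → ℝ}
    (hg : Continuous g) {C : ℝ} (hC : ∀ x, |g x| ≤ C) : Integrable fun x => Gam δ w x * g x :=
  (Gam_integrable h0 h1 w).mul_bdd (c := C) hg.aestronglyMeasurable
    (Eventually.of_forall fun x => by rw [Real.norm_eq_abs]; exact hC x)

theorem Ident_int_clm {V : E3 → E3} (hV : Integrable V) {h : E3 → ℝ} (hh : h ∈ CB) :
    Integrable fun x => fderiv ℝ h x (V x) := by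
  obtain ⟨C, hC0, _, _, hC⟩ := Ident_bdd hh
  have hfc : Continuous (fderiv ℝ h) :=
    (hh.1.fderiv_right (m := ((⊤ : ℕ∞) : WithTop ℕ∞)) (by simp)).continuous
  have hm : AEStronglyMeasurable (fun x => fderiv ℝ h x (V x)) (volume : Measure E3) := by
    have c1 : Continuous fun p : (E3 →L[ℝ] ℝ) × E3 => p.1 p.2 :=
      isBoundedBilinearMap_apply.continuous
    exact c1.comp_aestronglyMeasurable (hfc.aestronglyMeasurable.prodMk hV.1)
  refine (hV.norm.const_mul C).mono' hm (Eventually.of_forall fun x => ?_)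
  exact ((fderiv ℝ h x).le_opNorm (V x)).trans
    (mul_le_mul_of_nonneg_right (hC x) (norm_nonneg _))

/-- `⟨u, Δφ⟩ = ∫ Γ (Δh + k · ∇h)` (`lapl_hmm` for `avg h`, the axis is a null set;
`slap_avg`, `int_avg`, `int_fderiv_avg` with `V = Γ k`, `kk_rot`). -/
theorem id_lapl {δ : ℝ} (h0 : -(1 / 4) < δ) (h1 : δ ≤ 0) {w : L2} (hw : w ∈ HR) {h : E3 → ℝ}
    (hh : h ∈ CB) : pair (fld Bl δ w) (lapl (phi h)) =
      ∫ x, Gam δ w x * (slap h x + fderiv ℝ h x (kk x)) := by
  have ha := avg_mem hh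
  obtain ⟨C, _, hC1, hC2, _⟩ := Ident_bdd hh
  obtain ⟨C', _, hC1', hC2', _⟩ := Ident_bdd ha
  have e1 : pair (fld Bl δ w) (lapl (phi h)) =
      ∫ x, (Gam δ w x * slap (avg h) x + fderiv ℝ (avg h) x (Gam δ w x • kk x)) := by
    unfold pair
    refine integral_congr_ae ?_
    filter_upwards [Ident_axis] with x hx
    have e0 : phi h = fun x => avg h x • mm x := rfl
    rw [e0, lapl_hmm ha.1 (avg_rot hh) hx, inner_smul_right, map_smul]
    show _ * Gam δ w x = _
    rw [smul_eq_mul]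
    ring
  have e2 : ∫ x, Gam δ w x * (slap h x + fderiv ℝ h x (kk x)) =
      ∫ x, (Gam δ w x * slap h x + fderiv ℝ h x (Gam δ w x • kk x)) := by
    congr 1
    funext x
    rw [map_smul, smul_eq_mul]
    ring
  have hk : ∀ a, (fun x => Gam δ w (rot a x) • kk (rot a x)) =ᵐ[volume]
      fun x => rot a (Gam δ w x • kk x) := by
    intro a
    filter_upwards [Gam_rot h0 h1 hw.2 a] with x hx
    rw [hx, kk_rot, ← rotE_apply, ← rotE_apply, map_smul]
  rw [e1, e2, integral_add (Ident_int_mul h0 h1 w (CB_slap ha).1.continuous hC2')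
    (Ident_int_clm (Gamk_integrable h0 h1 w) ha),
    integral_add (Ident_int_mul h0 h1 w (CB_slap hh).1.continuous hC2)
    (Ident_int_clm (Gamk_integrable h0 h1 w) hh),
    int_fderiv_avg (Gamk_integrable h0 h1 w) hk hh, slap_avg hh,
    int_avg (Gam_integrable h0 h1 w) (Gam_rot h0 h1 hw.2) (CB_slap hh)]

theorem Ident_inner_mm (u : E3) : inner ℝ u (mm u) = 0 := by
  rw [PiLp.inner_apply, Fin.sum_univ_three]
  simp [mm]
  ring

/-- `⟨F(u), φ⟩ = ∫ Γ u · ∇h` (`fderiv_hmm`; `u · (e₃ × u) = 0`; `int_fderiv_avg` with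
`V = Γ u`). -/
theorem id_conv {δ : ℝ} (h0 : -(1 / 4) < δ) (h1 : δ ≤ 0) {w : L2} (hw : w ∈ HR) {h : E3 → ℝ}
    (hh : h ∈ CB) : conv (fld Bl δ w) (phi h) =
      ∫ x, Gam δ w x * fderiv ℝ h x (fld Bl δ w x) := by
  have ha := avg_mem hh
  have hd : Differentiable ℝ (avg h) := ha.1.differentiable (by simp)
  have e1 : conv (fld Bl δ w) (phi h) =
      ∫ x, fderiv ℝ (avg h) x (Gam δ w x • fld Bl δ w x) := by
    unfold conv phi
    congr 1
    funext x
    rw [fderiv_hmm hd, inner_add_right, inner_smul_right, inner_smul_right, Ident_inner_mm,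
      map_smul, mul_zero, add_zero, smul_eq_mul, mul_comm]
    rfl
  have e2 : ∫ x, Gam δ w x * fderiv ℝ h x (fld Bl δ w x) =
      ∫ x, fderiv ℝ h x (Gam δ w x • fld Bl δ w x) := by
    congr 1
    funext x
    rw [map_smul, smul_eq_mul]
  have hu : RotInv (fld Bl δ w) := RotInv_negPow (by linarith) (by linarith) hw.2
  have hk : ∀ a, (fun x => Gam δ w (rot a x) • fld Bl δ w (rot a x)) =ᵐ[volume]
      fun x => rot a (Gam δ w x • fld Bl δ w x) := by
    intro a
    have h3 : (fun x => rotF a (fld Bl δ w) (rot a x)) =ᵐ[volume]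
        fun x => fld Bl δ w (rot a x) :=
      (A8b_mp a).quasiMeasurePreserving.ae_eq_comp (hu a)
    filter_upwards [Gam_rot h0 h1 hw.2 a, h3] with x hx hx3
    have h2 : rotF a (fld Bl δ w) (rot a x) = rot a (fld Bl δ w x) := by
      show rot a (fld Bl δ w (rot (-a) (rot a x))) = rot a (fld Bl δ w x)
      rw [rot_rot, neg_add_cancel, rot_zero]
    rw [hx, ← hx3, h2, ← rotE_apply, ← rotE_apply, map_smul]
  rw [e1, e2, int_fderiv_avg (Gamu_integrable h0 h1 w) hk hh]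

theorem id_drift {δ : ℝ} (h0 : -(1 / 4) < δ) (h1 : δ ≤ 0) {w : L2} (hw : w ∈ HR) {h : E3 → ℝ}
    (hh : h ∈ CB) :
    1 * pair (fld Bl δ w) (lapl (phi h)) + conv (fld Bl δ w) (phi h) = aF δ w h := by
  obtain ⟨C, _, hC1, hC2, _⟩ := Ident_bdd hh
  rw [one_mul, id_lapl h0 h1 hw hh, id_conv h0 h1 hw hh, ← integral_add]
  · unfold aF
    congr 1
    funext x
    ring
  · have : (fun x => Gam δ w x * (slap h x + fderiv ℝ h x (kk x))) =
        fun x => Gam δ w x * slap h x + fderiv ℝ h x (Gam δ w x • kk x) := by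
      funext x
      rw [map_smul, smul_eq_mul]
      ring
    rw [this]
    exact (Ident_int_mul h0 h1 w (CB_slap hh).1.continuous hC2).add
      (Ident_int_clm (Gamk_integrable h0 h1 w) hh)
  · have : (fun x => Gam δ w x * fderiv ℝ h x (fld Bl δ w x)) =
        fun x => fderiv ℝ h x (Gam δ w x • fld Bl δ w x) := by
      funext x
      rw [map_smul, smul_eq_mul]
    rw [this]
    exact Ident_int_clm (Gamu_integrable h0 h1 w) hh

/-- `⟨A⁻¹ w, φ⟩_X₀ = ⟨u, φ⟩` (`negPow_res`, `res_lapl`, `res_symm`). -/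
theorem id_pairX0 {δ : ℝ} (h0 : -(1 / 4) < δ) (h1 : δ ≤ 0) (w : L2) {φ : E3 → E3}
    (hφ : φ ∈ TF Bl) : pairX Bl δ (res Bl 0 w) φ = pair (fld Bl δ w) φ := by
  have b0 : 0 < (1 + δ) / 2 := by linarith
  have b1 : (1 + δ) / 2 < 1 := by linarith
  unfold pairX
  rw [pair_eq_inner, ← negPow_symm b0 b1, negPow_res b0 b1 le_rfl, res_symm le_rfl, res_lapl hφ,
    inner_neg_right, neg_neg, pair_toL2 _ (CV_memLp (TF_sub_CV hφ) 2)]
  rfl

theorem Ident_pair_phi {δ : ℝ} (h0 : -(1 / 4) < δ) (h1 : δ ≤ 0) {w : L2} (hw : w ∈ HR)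
    {h : E3 → ℝ} (hh : h ∈ CB) : pair (fld Bl δ w) (phi h) = ∫ x, Gam δ w x * h x := by
  rw [← int_avg (Gam_integrable h0 h1 w) (Gam_rot h0 h1 hw.2) hh]
  unfold pair phi
  congr 1
  funext x
  rw [inner_smul_right, mul_comm]
  rfl

theorem id_pairX {δ : ℝ} (h0 : -(1 / 4) < δ) (h1 : δ ≤ 0) {w : L2} (hw : w ∈ HR) {h : E3 → ℝ}
    (hh : h ∈ CB) : pairX Bl δ (res Bl 0 w) (phi h) = ∫ x, Gam δ w x * h x := by
  rw [id_pairX0 h0 h1 w (phi_TF hh), Ident_pair_phi h0 h1 hw hh]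

theorem Ident_Gam0_int : Integrable Gam0 := by
  have hBl : MeasurableSet Bl := Metric.isOpen_ball.measurableSet
  have hfin : volume Bl < ∞ := measure_ball_lt_top
  unfold Gam0
  rw [integrable_indicator_iff hBl]
  have hm : Measurable fun x : E3 => (2 * yy x) ^ mu * ax2 x := by
    have h1 : Measurable ax2 := by
      unfold ax2
      fun_prop
    have h2 : Measurable yy := by
      unfold yy
      fun_prop
    exact ((h2.const_mul 2).pow_const mu).mul h1
  refine Measure.integrableOn_of_bounded (M := 1) hfin.ne hm.aestronglyMeasurable ?_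
  filter_upwards [ae_restrict_mem hBl] with x hx
  have hx1 : ‖x‖ < 1 := by simpa [Bl] using hx
  have hy0 : 0 ≤ 2 * yy x := by
    unfold yy
    nlinarith [norm_nonneg x]
  have hy1 : 2 * yy x ≤ 1 := by
    unfold yy
    nlinarith [sq_nonneg ‖x‖]
  have h3 : (2 * yy x) ^ mu ≤ 1 := Real.rpow_le_one hy0 hy1 (by unfold mu; norm_num)
  have h4 : 0 ≤ (2 * yy x) ^ mu := Real.rpow_nonneg hy0 _
  have h5 : 0 ≤ ax2 x := by
    unfold ax2
    positivity
  have h6 : ax2 x ≤ 1 := (ax2_le x).trans (by nlinarith [norm_nonneg x])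
  rw [Real.norm_eq_abs, abs_of_nonneg (by positivity)]
  nlinarith

/-- The initial value: `⟨u₀, φ⟩ = ∫ Γ₀ h`. -/
theorem id_init {h : E3 → ℝ} (hh : h ∈ CB) : pair u0 (phi h) = ∫ x, Gam0 x * h x := by
  have hr : ∀ a, (fun x => Gam0 (rot a x)) =ᵐ[volume] Gam0 := by
    intro a
    refine Eventually.of_forall fun x => ?_
    show Gam0 (rot a x) = Gam0 x
    unfold Gam0
    by_cases hx : x ∈ Bl
    · rw [indicator_of_mem hx, indicator_of_mem ((A13_mem_rot a x).2 hx), yy_rot, ax2_rot]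
    · rw [indicator_of_notMem hx, indicator_of_notMem (fun h' => hx ((A13_mem_rot a x).1 h'))]
  rw [← int_avg Ident_Gam0_int hr hh]
  unfold pair phi
  congr 1
  funext x
  unfold u0 Gam0
  by_cases hx : x ∈ Bl
  · rw [indicator_of_mem hx, indicator_of_mem hx, inner_smul_left, inner_smul_right,
      real_inner_self_eq_norm_sq, norm_mm_sq]
    simp only [conj_trivial]
    ring
  · rw [indicator_of_notMem hx, indicator_of_notMem hx, inner_zero_left, zero_mul]

end Pool.Agent.W_332fe5
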