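import Pool.Agent.W_332fe5_h47.Ident
import Pool.Agent.W_332fe5_h47.Moll

set_option autoImplicit false

/-! Block 3, part II: the noise terms for rotation invariant fields (section (3.2)). -/

open MeasureTheory ProbabilityTheory Set Filter Topology TopologicalSpace
open scoped ENNReal NNReal

namespace Pool.Agent.W_332fe5

/-! ### The kernel -/

theorem noi_ker_smooth : ContDiff ℝ ((⊤ : ℕ∞) : WithTop ℕ∞) ker := by
  have h1 : ContDiff ℝ ((⊤ : ℕ∞) : WithTop ℕ∞) fun x : E3 => 1 - ‖x‖ ^ 2 :=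
    contDiff_const.sub (contDiff_norm_sq ℝ)
  exact Real.smoothTransition.contDiff.comp h1

theorem noi_ker_nonneg (x : E3) : 0 ≤ ker x := Real.smoothTransition.nonneg _

theorem noi_ker_zero {x : E3} (hx : 1 ≤ ‖x‖) : ker x = 0 := by
  refine Real.smoothTransition.zero_of_nonpos ?_
  nlinarith

theorem noi_ker_neg (x : E3) : ker (-x) = ker x := by
  unfold ker
  rw [norm_neg]

theorem noi_ker_supp : HasCompactSupport ker := by
  refine HasCompactSupport.intro (isCompact_closedBall (0 : E3) 1) fun x hx => ?_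
  refine noi_ker_zero ?_
  rw [mem_closedBall_zero_iff, not_le] at hx
  exact hx.le

theorem noi_ker_int_pos : 0 < ∫ y, ker y := by
  have h0 : ker 0 ≠ 0 := by
    have : ker 0 = 1 := Real.smoothTransition.one_of_one_le (by simp)
    rw [this]
    exact one_ne_zero
  exact noi_ker_smooth.continuous.integral_pos_of_hasCompactSupport_nonneg_nonzero noi_ker_supp
    (fun x => noi_ker_nonneg x) h0

/-- The scaled kernel. -/
noncomputable def noi_w (ε : ℝ) (z : E3) : ℝ := (ε ^ 3 * ∫ y, ker y)⁻¹ * ker (ε⁻¹ • z)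

theorem noi_w_smooth (ε : ℝ) : ContDiff ℝ ((⊤ : ℕ∞) : WithTop ℕ∞) (noi_w ε) := by
  have h1 : ContDiff ℝ ((⊤ : ℕ∞) : WithTop ℕ∞) fun z : E3 => ker (ε⁻¹ • z) :=
    noi_ker_smooth.comp (contDiff_const_smul ε⁻¹)
  have h2 : ContDiff ℝ ((⊤ : ℕ∞) : WithTop ℕ∞)
      fun z : E3 => (ε ^ 3 * ∫ y, ker y)⁻¹ * ker (ε⁻¹ • z) := contDiff_const.mul h1
  exact h2

theorem noi_w_nonneg {ε : ℝ} (hε : 0 < ε) (z : E3) : 0 ≤ noi_w ε z := by
  unfold noi_w
  exact mul_nonneg (inv_nonneg.2 (mul_nonneg (pow_nonneg hε.le 3) noi_ker_int_pos.le))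
    (noi_ker_nonneg _)

theorem noi_w_zero {ε : ℝ} (hε : 0 < ε) {z : E3} (hz : ε ≤ ‖z‖) : noi_w ε z = 0 := by
  unfold noi_w
  rw [noi_ker_zero, mul_zero]
  rw [norm_smul, Real.norm_eq_abs, abs_of_pos (inv_pos.2 hε), inv_mul_eq_div, le_div_iff₀ hε,
    one_mul]
  exact hz

theorem noi_w_neg (ε : ℝ) (z : E3) : noi_w ε (-z) = noi_w ε z := by
  unfold noi_w
  rw [smul_neg, noi_ker_neg]

theorem noi_w_supp {ε : ℝ} (hε : 0 < ε) : HasCompactSupport (noi_w ε) := by
  refine HasCompactSupport.intro (isCompact_closedBall (0 : E3) ε) fun x hx => ?_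
  refine noi_w_zero hε ?_
  rw [mem_closedBall_zero_iff, not_le] at hx
  exact hx.le

theorem noi_w_int {ε : ℝ} (hε : 0 < ε) : ∫ z, noi_w ε z = 1 := by
  unfold noi_w
  rw [integral_const_mul]
  rw [Measure.integral_comp_inv_smul_of_nonneg]
  · have h1 := noi_ker_int_pos
    simp only [finrank_euclideanSpace, Fintype.card_fin, smul_eq_mul]
    exact inv_mul_cancel₀ (by positivity)
  · exact hε.le

theorem noi_w_integrable {ε : ℝ} (hε : 0 < ε) : Integrable (noi_w ε) :=
  (noi_w_smooth ε).continuous.integrable_of_hasCompactSupport (noi_w_supp hε)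

theorem noi_moll_eq (ε : ℝ) (u : E3 → E3) (x : E3) :
    moll ε u x = ∫ z, noi_w ε z • u (z + x) := by
  have h1 : moll ε u x = ∫ y, noi_w ε (x - y) • u y := by
    unfold moll noi_w
    rw [← integral_smul]
    refine integral_congr_ae (Eventually.of_forall fun y => ?_)
    show (ε ^ 3 * ∫ y, ker y)⁻¹ • ker (ε⁻¹ • (x - y)) • u y =
      ((ε ^ 3 * ∫ y, ker y)⁻¹ * ker (ε⁻¹ • (x - y))) • u y
    rw [smul_smul]
  rw [h1, ← integral_add_right_eq_self (fun y => noi_w ε (x - y) • u y) x]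
  refine integral_congr_ae (Eventually.of_forall fun z => ?_)
  show noi_w ε (x - (z + x)) • u (z + x) = noi_w ε z • u (z + x)
  rw [show x - (z + x) = -z by abel, noi_w_neg]

theorem noi_moll_conv (ε : ℝ) (u : E3 → E3) :
    moll ε u = convolution u (noi_w ε) (ContinuousLinearMap.lsmul ℝ ℝ).flip volume := by
  funext x
  unfold moll noi_w convolution
  rw [← integral_smul]
  refine integral_congr_ae (Eventually.of_forall fun y => ?_)
  show (ε ^ 3 * ∫ y, ker y)⁻¹ • ker (ε⁻¹ • (x - y)) • u y =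
      ((ε ^ 3 * ∫ y, ker y)⁻¹ * ker (ε⁻¹ • (x - y))) • u y
  rw [smul_smul]

/-- Mollification is smooth, and `moll ε u → u` in `L²`. -/
theorem moll_smooth {ε : ℝ} (hε : 0 < ε) (u : L2) :
    ContDiff ℝ ((⊤ : ℕ∞) : WithTop ℕ∞) (moll ε u) := by
  rw [noi_moll_conv]
  exact (noi_w_supp hε).contDiff_convolution_right _
    ((Lp.memLp u).locallyIntegrable (by norm_num)) (noi_w_smooth ε)

/-- Translations act continuously on `L²`. -/
noncomputable def noi_T (u : L2) (z : E3) : L2 := (DomAddAct.mk z : E3ᵈᵃᵃ) +ᵥ u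

theorem noi_T_ae (u : L2) (z : E3) : noi_T u z =ᵐ[volume] fun x => u (z + x) :=
  DomAddAct.vadd_Lp_ae_eq (DomAddAct.mk z) u

theorem noi_T_cont (u : L2) : Continuous (noi_T u) := by
  have h1 : Continuous fun z : E3 => (DomAddAct.mk z : E3ᵈᵃᵃ) := DomAddAct.continuous_mk
  have : Fact ((2 : ℝ≥0∞) ≠ ∞) := ⟨by norm_num⟩
  exact h1.vadd continuous_const

theorem noi_T_zero (u : L2) : noi_T u 0 = u := by
  refine Lp.ext ?_
  filter_upwards [noi_T_ae u 0] with x hx
  rw [hx, zero_add]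

/-- The mollification as an `L²`-valued integral. -/
noncomputable def noi_G (u : L2) (ε : ℝ) : L2 := ∫ z, noi_w ε z • noi_T u z

theorem noi_F_int {ε : ℝ} (hε : 0 < ε) (u v : L2) :
    Integrable (fun z => noi_w ε z • (noi_T u z - v)) := by
  refine Continuous.integrable_of_hasCompactSupport ?_ ?_
  · exact (noi_w_smooth ε).continuous.smul ((noi_T_cont u).sub continuous_const)
  · exact (noi_w_supp hε).smul_right

theorem noi_F_int0 {ε : ℝ} (hε : 0 < ε) (u : L2) :
    Integrable (fun z => noi_w ε z • noi_T u z) := by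
  simpa using noi_F_int hε u 0

theorem noi_G_ae (u : L2) {ε : ℝ} (hε : 0 < ε) : noi_G u ε =ᵐ[volume] moll ε u := by
  set F : E3 → L2 := fun z => noi_w ε z • noi_T u z with hF
  have hFc : Continuous F := (noi_w_smooth ε).continuous.smul (noi_T_cont u)
  have hev : Measurable fun z : E3 × E3 => ev (F z.1) z.2 := ev_comp hFc.stronglyMeasurable
  have hum : Measurable (u : E3 → E3) := (Lp.stronglyMeasurable u).measurable
  have hr : Measurable fun z : E3 × E3 => noi_w ε z.1 • u (z.1 + z.2) :=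
    ((noi_w_smooth ε).continuous.measurable.comp measurable_fst).smul
      (hum.comp (measurable_fst.add measurable_snd))
  have hset : MeasurableSet {z : E3 × E3 | ev (F z.1) z.2 = noi_w ε z.1 • u (z.1 + z.2)} :=
    measurableSet_eq_fun hev hr
  have h1 : ∀ᵐ z ∂(volume : Measure E3), ∀ᵐ x ∂(volume : Measure E3),
      ev (F z) x = noi_w ε z • u (z + x) := by
    refine Eventually.of_forall fun z => ?_
    filter_upwards [ev_ae (F z), Lp.coeFn_smul (noi_w ε z) (noi_T u z), noi_T_ae u z]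
      with x h1 h2 h3
    rw [h1]
    show (noi_w ε z • noi_T u z : L2) x = _
    rw [h2, Pi.smul_apply, h3]
  have h2 := (Measure.ae_ae_comm hset).1 h1
  filter_upwards [ev_integral (noi_F_int0 hε u), h2] with x hx1 hx2
  show (∫ z, noi_w ε z • noi_T u z : L2) x = _
  rw [hx1.2, noi_moll_eq]
  exact integral_congr_ae hx2

theorem noi_G_sub (u : L2) {ε : ℝ} (hε : 0 < ε) :
    noi_G u ε - u = ∫ z, noi_w ε z • (noi_T u z - u) := by
  have h1 : ∫ z, noi_w ε z • (noi_T u z - u) =
      ∫ z, (noi_w ε z • noi_T u z - noi_w ε z • u) := by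
    simp only [smul_sub]
  rw [h1, integral_sub (noi_F_int0 hε u) ((noi_w_integrable hε).smul_const u),
    integral_smul_const, noi_w_int hε, one_smul]
  rfl

theorem noi_G_tendsto (u : L2) : Tendsto (noi_G u) (𝓝[>] 0) (𝓝 u) := by
  rw [Metric.tendsto_nhds]
  intro η hη
  have h1 : ∀ᶠ z in 𝓝 (0 : E3), dist (noi_T u z) u < η / 2 := by
    have := (noi_T_cont u).tendsto 0
    rw [noi_T_zero] at this
    exact (Metric.tendsto_nhds.1 this) (η / 2) (by positivity)
  obtain ⟨r, hr, hr2⟩ := Metric.eventually_nhds_iff.1 h1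
  filter_upwards [Ioo_mem_nhdsGT hr] with ε hε
  have hε0 : 0 < ε := hε.1
  rw [dist_eq_norm, noi_G_sub u hε0]
  have h2 : ‖∫ z, noi_w ε z • (noi_T u z - u)‖ ≤ ∫ z, noi_w ε z * (η / 2) := by
    refine norm_integral_le_of_norm_le ((noi_w_integrable hε0).mul_const _)
      (Eventually.of_forall fun z => ?_)
    rw [norm_smul, Real.norm_eq_abs, abs_of_nonneg (noi_w_nonneg hε0 z)]
    by_cases hz : ε ≤ ‖z‖
    · rw [noi_w_zero hε0 hz, zero_mul, zero_mul]
    · refine mul_le_mul_of_nonneg_left ?_ (noi_w_nonneg hε0 z)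
      rw [← dist_eq_norm]
      refine (hr2 ?_).le
      rw [dist_zero_right]
      exact (not_le.1 hz).trans hε.2
  rw [integral_mul_const, noi_w_int hε0, one_mul] at h2
  linarith

theorem moll_tendsto (u : L2) :
    Tendsto (fun ε : ℝ => eLpNorm (fun x => moll ε u x - u x) 2 volume) (𝓝[>] 0) (𝓝 0) := by
  have h1 : Tendsto (fun ε : ℝ => ‖noi_G u ε - u‖ₑ) (𝓝[>] 0) (𝓝 0) := by
    have h2 := (noi_G_tendsto u).sub_const u
    rw [sub_self] at h2
    have h3 := h2.enorm
    rwa [enorm_zero] at h3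
  refine h1.congr' ?_
  filter_upwards [self_mem_nhdsWithin] with ε hε
  rw [enorm_L2]
  refine eLpNorm_congr_ae ?_
  filter_upwards [Lp.coeFn_sub (noi_G u ε) u, noi_G_ae u hε] with x hx1 hx2
  rw [hx1, Pi.sub_apply, hx2]

theorem noi_moll_memLp (u : L2) {ε : ℝ} (hε : 0 < ε) : MemLp (moll ε u) 2 volume :=
  (memLp_congr_ae (noi_G_ae u hε)).1 (Lp.memLp _)

/-- Weak convergence of the mollifications. -/
theorem noi_weak (u : L2) {ψ : E3 → E3} (hψ : MemLp ψ 2 (volume : Measure E3)) :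
    Tendsto (fun ε : ℝ => ∫ x, inner ℝ (moll ε u x) (ψ x)) (𝓝[>] 0)
      (𝓝 (∫ x, inner ℝ (u x) (ψ x))) := by
  have h1 : Tendsto (fun ε : ℝ => inner ℝ (noi_G u ε) (toL2 ψ)) (𝓝[>] 0)
      (𝓝 (inner ℝ u (toL2 ψ))) := (noi_G_tendsto u).inner tendsto_const_nhds
  rw [← pair_toL2 u hψ] at h1
  refine h1.congr' ?_
  filter_upwards [self_mem_nhdsWithin] with ε hε
  rw [← pair_toL2 _ hψ]
  refine integral_congr_ae ?_
  filter_upwards [noi_G_ae u hε] with x hx
  rw [hx]

/-- The field `x_j φ(x)`. -/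
theorem noi_coord_CV {φ : E3 → E3} (h : φ ∈ CV) (j : Fin 3) : (fun x : E3 => x j • φ x) ∈ CV := by
  have hc : ContDiff ℝ ((⊤ : ℕ∞) : WithTop ℕ∞) fun x : E3 => x j :=
    (EuclideanSpace.proj j : E3 →L[ℝ] ℝ).contDiff
  have hs : tsupport (fun x : E3 => x j • φ x) ⊆ tsupport φ :=
    tsupport_smul_subset_right (fun x : E3 => x j) φ
  have h1 : ContDiff ℝ ((⊤ : ℕ∞) : WithTop ℕ∞) fun x : E3 => x j • φ x := hc.smul h.1
  exact ⟨h1, h.2.1.of_isClosed_subset (isClosed_tsupport _) hs, hs.trans h.2.2⟩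

theorem noi_coord_pd {φ : E3 → E3} (h : φ ∈ CV) (j : Fin 3) (x : E3) :
    pd j (fun x : E3 => x j • φ x) x = φ x + x j • pd j φ x := by
  have h1 : HasFDerivAt (fun x : E3 => x j) (EuclideanSpace.proj j : E3 →L[ℝ] ℝ) x :=
    (EuclideanSpace.proj j : E3 →L[ℝ] ℝ).hasFDerivAt
  have h2 := h1.smul (A1_diff h x).hasFDerivAt
  have h3 : HasFDerivAt (fun x : E3 => x j • φ x)
    (x j • fderiv ℝ φ x + (EuclideanSpace.proj j : E3 →L[ℝ] ℝ).smulRight (φ x)) x := h2
  unfold pd
  rw [h3.fderiv]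
  simp
  abel

theorem noi_expand (L : E3 →L[ℝ] E3) (v : E3) :
    L v = ∑ j, v j • L (EuclideanSpace.single j 1) := by
  conv_lhs => rw [A1b_sum_single v]
  simp [map_sum]

/-- Integration by parts for the field `x`. -/
theorem noi_ibp {φ v : E3 → E3} (h : φ ∈ CV) (hv : ContDiff ℝ 1 v) :
    ∫ x, inner ℝ (fderiv ℝ v x x) (φ x) =
      -∫ x, inner ℝ (v x) ((3 : ℝ) • φ x + fderiv ℝ φ x x) := by
  have hdv : ∀ j, Continuous (pd j v) := fun j =>
    (hv.continuous_fderiv (by simp)).clm_apply continuous_const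
  have hi : ∀ {f g : E3 → E3}, Continuous f → HasCompactSupport f → Continuous g →
      Integrable (fun x => inner ℝ (f x) (g x)) (volume : Measure E3) := by
    intro f g hf hf' hg
    refine Continuous.integrable_of_hasCompactSupport (hf.inner hg) ?_
    refine hf'.mono' ?_
    intro x hx
    refine subset_tsupport _ ?_
    intro h0
    exact hx (by simp [h0])
  have h1 : ∀ j : Fin 3, pair (pd j (fun x : E3 => x j • φ x)) v =
      -pair (fun x : E3 => x j • φ x) (pd j v) := fun j =>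
    pair_pd (noi_coord_CV h j) hv j
  have h2 : ∫ x, inner ℝ (fderiv ℝ v x x) (φ x) =
      ∑ j : Fin 3, pair (fun x : E3 => x j • φ x) (pd j v) := by
    unfold pair
    rw [← integral_finsetSum]
    · refine integral_congr_ae (Eventually.of_forall fun x => ?_)
      show inner ℝ (fderiv ℝ v x x) (φ x) = ∑ j : Fin 3, inner ℝ (x j • φ x) (pd j v x)
      rw [noi_expand (fderiv ℝ v x) x, sum_inner]
      refine Finset.sum_congr rfl fun j _ => ?_
      rw [inner_smul_left, inner_smul_left, real_inner_comm]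
      rfl
    · intro j _
      exact hi (noi_coord_CV h j).1.continuous (noi_coord_CV h j).2.1 (hdv j)
  have h3 : ∫ x, inner ℝ (v x) ((3 : ℝ) • φ x + fderiv ℝ φ x x) =
      ∑ j : Fin 3, pair (pd j (fun x : E3 => x j • φ x)) v := by
    unfold pair
    rw [← integral_finsetSum]
    · refine integral_congr_ae (Eventually.of_forall fun x => ?_)
      show inner ℝ (v x) ((3 : ℝ) • φ x + fderiv ℝ φ x x) =
        ∑ j : Fin 3, inner ℝ (pd j (fun x : E3 => x j • φ x) x) (v x)
      rw [real_inner_comm, ← sum_inner]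
      congr 1
      simp only [noi_coord_pd h]
      rw [Finset.sum_add_distrib, noi_expand (fderiv ℝ φ x) x]
      congr 1
      simp only [Finset.sum_const, Finset.card_univ, Fintype.card_fin]
      rw [← Nat.cast_smul_eq_nsmul ℝ]
      norm_num
    · intro j _
      exact hi (CV_pd (noi_coord_CV h j) j).1.continuous (CV_pd (noi_coord_CV h j) j).2.1
        hv.continuous
  rw [h2, h3, ← Finset.sum_neg_distrib]
  refine Finset.sum_congr rfl fun j _ => ?_
  rw [h1 j, neg_neg]

theorem noi_D_memLp {φ : E3 → E3} (h : φ ∈ CV) (a : ℝ) (p : ℝ≥0∞) :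
    MemLp (fun x => a • φ x + fderiv ℝ φ x x) p (volume : Measure E3) := by
  refine Continuous.memLp_of_hasCompactSupport ?_ ?_
  · exact (h.1.continuous.const_smul a).add ((h.1.continuous_fderiv (by simp)).clm_apply
      continuous_id)
  · refine HasCompactSupport.intro h.2.1.isCompact fun x hx => ?_
    have h1 : φ x = 0 := image_eq_zero_of_notMem_tsupport hx
    have h2 : fderiv ℝ φ x = 0 := by
      refine image_eq_zero_of_notMem_tsupport fun h' => hx ?_
      exact tsupport_fderiv_subset ℝ h'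
    rw [h1, h2]
    simp

/-- Integration by parts: `⟨(c x · ∇) u_ε, φ⟩ = -c ⟨u_ε, 3 φ + (x · ∇) φ⟩`; so
`⟨(c x · ∇) u, φ⟩ = -c ⟨u, 3 φ + (x · ∇) φ⟩`. -/
theorem transport_cx (c : ℝ) (u : L2) {φ : E3 → E3} (hφ : φ ∈ TF Bl) {s : ℝ}
    (hs : HasTransport (fun x => c • x) u φ s) :
    s = -c * ∫ x, inner ℝ (u x) ((3 : ℝ) • φ x + fderiv ℝ φ x x) := by
  have h := TF_sub_CV hφ
  have h1 := (noi_weak u (noi_D_memLp h 3 2)).const_mul (-c)
  refine tendsto_nhds_unique hs (h1.congr' ?_)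
  filter_upwards [self_mem_nhdsWithin] with ε hε
  have h2 := noi_ibp h ((moll_smooth hε u).of_le (by exact_mod_cast le_top))
  have h3 : ∫ x, inner ℝ (fderiv ℝ (moll ε u) x (c • x)) (φ x) =
      c * ∫ x, inner ℝ (fderiv ℝ (moll ε u) x x) (φ x) := by
    rw [← integral_const_mul]
    refine integral_congr_ae (Eventually.of_forall fun x => ?_)
    show inner ℝ (fderiv ℝ (moll ε u) x (c • x)) (φ x) =
      c * inner ℝ (fderiv ℝ (moll ε u) x x) (φ x)
    rw [map_smul, inner_smul_left]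
    simp
  rw [h3, h2]
  ring

theorem noi_mm_skew (x y : E3) : inner ℝ (mm x) y = -inner ℝ x (mm y) := by
  rw [PiLp.inner_apply, PiLp.inner_apply]
  simp [mm, Fin.sum_univ_three]

theorem noi_norm_mm (x : E3) : ‖mm x‖ ≤ ‖x‖ := by
  have h2 := norm_mm_sq x
  have h3 := ax2_le x
  nlinarith [norm_nonneg (mm x), norm_nonneg x]

theorem noi_inv_mm {v : E3 → E3} (hv : Differentiable ℝ v) (x : E3)
    (h1 : ∀ a : ℝ, v (rot a x) = rot a (v x)) : fderiv ℝ v x (mm x) = mm (v x) := by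
  have h2 : HasDerivAt (fun a : ℝ => v (rot a x))
      (fderiv ℝ v (rot 0 x) (mm (rot 0 x))) 0 :=
    (hv (rot 0 x)).hasFDerivAt.comp_hasDerivAt 0 (hasDerivAt_rot 0 x)
  have h3 : (fun a : ℝ => v (rot a x)) = fun a => rot a (v x) := funext h1
  rw [h3, rot_zero] at h2
  have h4 := hasDerivAt_rot 0 (v x)
  rw [rot_zero] at h4
  exact h2.unique h4

theorem noi_moll_mm {u : L2} (hu : RotInv u) {ε : ℝ} (hε : 0 < ε) (x : E3) :
    fderiv ℝ (moll ε u) x (mm x) = mm (moll ε u x) := by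
  have h1 : ∀ a : ℝ, moll ε u (rot a x) = rot a (moll ε u x) := by
    intro a
    have h2 : moll ε (actF (rotE a) u) = actF (rotE a) (moll ε u) := moll_actF _ _ _
    have h3 : moll ε (actF (rotE a) u) = moll ε u := by
      refine moll_congr ?_ ε
      rw [← rotF_eq]
      exact hu a
    rw [h3] at h2
    have h4 := congrFun h2 (rot a x)
    rw [h4]
    show rotE a (moll ε u ((rotE a).symm (rot a x))) = rot a (moll ε u x)
    rw [rotE_symm_apply, rot_rot, neg_add_cancel, rot_zero, rotE_apply]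
  exact noi_inv_mm ((moll_smooth hε u).differentiable (by simp)) x h1

/-- For rotation invariant `u`: `D u_ε (x) m(x) = e₃ × u_ε(x)` (differentiate
`rot a (u_ε (rot (-a) x)) = u_ε x` at `a = 0`), so `⟨(r m · ∇) u, φ⟩ = ∫ r (e₃ × u) · φ`. -/
theorem transport_rm {r : E3 → ℝ} (hr : Measurable r) (hr1 : ∀ x, |r x| ≤ 1) {u : L2}
    (hu : RotInv u) {φ : E3 → E3} (hφ : φ ∈ TF Bl) {s : ℝ}
    (hs : HasTransport (fun x => r x • mm x) u φ s) :
    s = ∫ x, inner ℝ (r x • mm (u x)) (φ x) := by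
  have h := TF_sub_CV hφ
  have hm : MemLp (fun x => -(r x • mm (φ x))) 2 (volume : Measure E3) := by
    refine (CV_memLp h 2).mono ?_ (Eventually.of_forall fun x => ?_)
    · exact (hr.aestronglyMeasurable.smul
        (A8b_mmL.continuous.comp h.1.continuous).aestronglyMeasurable).neg
    · rw [norm_neg, norm_smul, Real.norm_eq_abs]
      calc |r x| * ‖mm (φ x)‖ ≤ 1 * ‖φ x‖ :=
            mul_le_mul (hr1 x) (noi_norm_mm _) (norm_nonneg _) zero_le_one
        _ = ‖φ x‖ := one_mul _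
  have e : ∀ y x : E3, inner ℝ (r x • mm y) (φ x) = inner ℝ y (-(r x • mm (φ x))) := by
    intro y x
    rw [inner_smul_left, noi_mm_skew, inner_neg_right, inner_smul_right]
    simp
  have h1 := noi_weak u hm
  simp only [e]
  refine tendsto_nhds_unique hs (h1.congr' ?_)
  filter_upwards [self_mem_nhdsWithin] with ε hε
  refine integral_congr_ae (Eventually.of_forall fun x => ?_)
  show inner ℝ (moll ε u x) (-(r x • mm (φ x))) =
    inner ℝ (fderiv ℝ (moll ε u) x (r x • mm x)) (φ x)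
  rw [map_smul, noi_moll_mm hu hε, e]

theorem transport_zero {u φ : E3 → E3} {s : ℝ} (hs : HasTransport (fun _ => 0) u φ s) : s = 0 := by
  refine tendsto_nhds_unique hs ?_
  simp

theorem noi_fld_rot {δ : ℝ} (h0 : -(1 / 4) < δ) (h1 : δ ≤ 0) {w : L2} (hw : w ∈ HR) :
    RotInv (fld Bl δ w) :=
  RotInv_negPow (by linarith) (by linarith) hw.2

theorem noi_rot_linear (a : ℝ) (c : ℝ) (x : E3) : rot a (c • x) = c • rot a x := by
  rw [← rotE_apply, map_smul, rotE_apply]

theorem noi_Gamx {δ : ℝ} (h0 : -(1 / 4) < δ) (h1 : δ ≤ 0) (w : L2) :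
    Integrable fun x => Gam δ w x • x := by
  have hG := Gam_integrable h0 h1 w
  refine hG.norm.mono' (hG.1.smul continuous_id.aestronglyMeasurable) ?_
  filter_upwards [Hs_supp (negPow_mem (b := (1 + δ) / 2) (by linarith) (by linarith) w)] with x hx
  by_cases hB : x ∈ Bl
  · have h2 : ‖x‖ ≤ 1 := by
      have : ‖x‖ < 1 := by simpa [Bl] using hB
      exact this.le
    rw [norm_smul]
    exact mul_le_of_le_one_right (norm_nonneg _) h2
  · have h2 : Gam δ w x = 0 := by
      unfold Gam fld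
      rw [hx hB, inner_zero_left]
    rw [h2]
    simp

theorem id_noise0 {zt δ : ℝ} (h0 : -(1 / 4) < δ) (h1 : δ ≤ 0) {r : E3 → ℝ} {w : L2}
    (hw : w ∈ HR) {h : E3 → ℝ} (hh : h ∈ CB) {s : ℝ}
    (hs : HasTransport (bEx zt r 0) (fld Bl δ w) (phi h)
      (s - ∫ x, inner ℝ (gEx zt r 0 x (fld Bl δ w x)) (phi h x))) : s = bF zt δ w h := by
  have e1 : bEx zt r 0 = fun x => cc zt • x := by
    funext x
    simp [bEx]
  have e2 : ∀ x y, gEx zt r 0 x y = cc zt • y := by
    intro x y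
    simp [gEx]
  simp only [e1, e2] at hs
  have hk := transport_cx (cc zt) (fld Bl δ w) (phi_TF hh) hs
  have hG := Gam_integrable h0 h1 w
  have hV := noi_Gamx h0 h1 w
  have hm := avg_mem hh
  have hmd : Differentiable ℝ (avg h) := hm.1.differentiable (by simp)
  have hGa : Integrable fun x => Gam δ w x * avg h x := by
    obtain ⟨C, hC⟩ := hm.2.1.exists_bound_of_continuous hm.1.continuous
    exact hG.mul_bdd hm.1.continuous.aestronglyMeasurable (Eventually.of_forall hC)
  have hGh : Integrable fun x => Gam δ w x * h x := by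
    obtain ⟨C, hC⟩ := hh.2.1.exists_bound_of_continuous hh.1.continuous
    exact hG.mul_bdd hh.1.continuous.aestronglyMeasurable (Eventually.of_forall hC)
  have hD : ∀ g : E3 → ℝ, g ∈ CB → Integrable fun x => fderiv ℝ g x (Gam δ w x • x) := by
    intro g hg
    have hfc : Continuous (fderiv ℝ g) :=
      (hg.1.fderiv_right (m := ((⊤ : ℕ∞) : WithTop ℕ∞)) (by simp)).continuous
    obtain ⟨C, hC⟩ := (hg.2.1.fderiv (𝕜 := ℝ)).exists_bound_of_continuous hfc
    have c1 : Continuous fun p : (E3 →L[ℝ] ℝ) × E3 => p.1 p.2 :=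
      isBoundedBilinearMap_apply.continuous
    refine (hV.norm.const_mul C).mono'
      (c1.comp_aestronglyMeasurable (hfc.aestronglyMeasurable.prodMk hV.1)) ?_
    refine Eventually.of_forall fun x => ?_
    refine ((fderiv ℝ g x).le_opNorm _).trans ?_
    exact mul_le_mul_of_nonneg_right (hC x) (norm_nonneg _)
  have hGr := Gam_rot h0 h1 hw.2
  have t1 : ∫ x, Gam δ w x * avg h x = ∫ x, Gam δ w x * h x := int_avg hG hGr hh
  have t2 : ∫ x, fderiv ℝ (avg h) x (Gam δ w x • x) = ∫ x, fderiv ℝ h x (Gam δ w x • x) := by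
    refine int_fderiv_avg hV (fun a => ?_) hh
    filter_upwards [hGr a] with x hx
    rw [hx, noi_rot_linear]
  have i1 : ∫ x, inner ℝ (cc zt • fld Bl δ w x) (phi h x) =
      cc zt * ∫ x, Gam δ w x * avg h x := by
    rw [← integral_const_mul]
    refine integral_congr_ae (Eventually.of_forall fun x => ?_)
    show inner ℝ (cc zt • fld Bl δ w x) (avg h x • mm x) = cc zt * (Gam δ w x * avg h x)
    rw [inner_smul_left, inner_smul_right]
    unfold Gam
    simp only [conj_trivial]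
    ring
  have i2 : ∫ x, inner ℝ (fld Bl δ w x) ((3 : ℝ) • phi h x + fderiv ℝ (phi h) x x) =
      4 * (∫ x, Gam δ w x * avg h x) + ∫ x, fderiv ℝ (avg h) x (Gam δ w x • x) := by
    rw [← integral_const_mul, ← integral_add (hGa.const_mul 4) (hD _ hm)]
    refine integral_congr_ae (Eventually.of_forall fun x => ?_)
    have h5 : fderiv ℝ (phi h) x x = fderiv ℝ (avg h) x x • mm x + avg h x • mm x :=
      fderiv_hmm hmd x x
    show inner ℝ (fld Bl δ w x) ((3 : ℝ) • (avg h x • mm x) + fderiv ℝ (phi h) x x) =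
      4 * (Gam δ w x * avg h x) + fderiv ℝ (avg h) x (Gam δ w x • x)
    rw [h5, map_smul, smul_eq_mul, inner_add_right, inner_add_right, inner_smul_right,
      inner_smul_right, inner_smul_right]
    unfold Gam
    ring
  have i3 : ∫ x, Gam δ w x * (fderiv ℝ h x x + 3 * h x) =
      (∫ x, fderiv ℝ h x (Gam δ w x • x)) + 3 * ∫ x, Gam δ w x * h x := by
    rw [← integral_const_mul, ← integral_add (hD _ hh) (hGh.const_mul 3)]
    refine integral_congr_ae (Eventually.of_forall fun x => ?_)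
    show Gam δ w x * (fderiv ℝ h x x + 3 * h x) =
      fderiv ℝ h x (Gam δ w x • x) + 3 * (Gam δ w x * h x)
    rw [map_smul, smul_eq_mul]
    ring
  rw [i1, i2, t1, t2] at hk
  unfold bF
  rw [i3]
  linarith

theorem id_noise1 {zt δ : ℝ} (h0 : -(1 / 4) < δ) (h1 : δ ≤ 0) {r : E3 → ℝ} (hr : Measurable r)
    (hr1 : ∀ x, |r x| ≤ 1) {w : L2} (hw : w ∈ HR) {h : E3 → ℝ} (hh : h ∈ CB) {s : ℝ}
    (hs : HasTransport (bEx zt r 1) (fld Bl δ w) (phi h)
      (s - ∫ x, inner ℝ (gEx zt r 1 x (fld Bl δ w x)) (phi h x))) : s = 0 := by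
  have e1 : bEx zt r 1 = fun x => r x • mm x := by
    funext x
    simp [bEx]
  have e2 : ∀ x y, gEx zt r 1 x y = -(r x • mm y) := by
    intro x y
    simp [gEx]
  simp only [e1, e2] at hs
  have hk := transport_rm hr hr1 (noi_fld_rot h0 h1 hw) (phi_TF hh) hs
  have i1 : ∫ x, inner ℝ (-(r x • mm (fld Bl δ w x))) (phi h x) =
      -∫ x, inner ℝ (r x • mm (fld Bl δ w x)) (phi h x) := by
    rw [← integral_neg]
    refine integral_congr_ae (Eventually.of_forall fun x => ?_)
    show inner ℝ (-(r x • mm (fld Bl δ w x))) (phi h x) =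
      -inner ℝ (r x • mm (fld Bl δ w x)) (phi h x)
    rw [inner_neg_left]
  rw [i1] at hk
  linarith

theorem id_noise2 {zt δ : ℝ} {r : E3 → ℝ} {w : L2} {h : E3 → ℝ} {n : ℕ} (hn : 2 ≤ n) {s : ℝ}
    (hs : HasTransport (bEx zt r n) (fld Bl δ w) (phi h)
      (s - ∫ x, inner ℝ (gEx zt r n x (fld Bl δ w x)) (phi h x))) : s = 0 := by
  have n0 : n ≠ 0 := by omega
  have n1 : n ≠ 1 := by omega
  have e1 : bEx zt r n = fun _ => 0 := by
    funext x
    simp [bEx, n0, n1]
  have e2 : ∀ x y, gEx zt r n x y = 0 := by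
    intro x y
    simp [gEx, n0, n1]
  simp only [e1, e2] at hs
  have hk := transport_zero hs
  simpa using hk

end Pool.Agent.W_332fe5
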