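import Pool.Agent.W_332fe5_h47.Norms

set_option autoImplicit false
set_option linter.unusedSectionVars false

/-! Block 3: the stopping time `S` and the stopped, killed processes `vS`, `wS`. -/

open MeasureTheory ProbabilityTheory Set Filter Topology TopologicalSpace
open scoped ENNReal NNReal

namespace Pool.Agent.W_332fe5

section

variable {Ω : Type} [mΩ : MeasurableSpace Ω]

/-- The process killed at `τ`. -/
noncomputable def wk (τ : Ω → ℝ≥0∞) (w : ℝ≥0 → Ω → L2) (t : ℝ≥0) (ω : Ω) : L2 :=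
  {s : ℝ≥0 | (s : ℝ≥0∞) < τ ω}.indicator (fun s => w s ω) t

/-- `∫_0^t ‖u‖_q^p s^κ ds`. -/
noncomputable def IW (p κ q : ℝ) (u : ℝ≥0 → Ω → L2) (t : ℝ≥0) (ω : Ω) : ℝ≥0∞ :=
  ∫⁻ s in Iic t, eLpNorm (u s ω) (ENNReal.ofReal q) volume ^ p * ENNReal.ofReal ((s : ℝ) ^ κ) ∂lam

/-- First time at which `∫_0^t ‖u‖_q^p s^κ ds ≥ 1`. -/
noncomputable def hitT (p κ q : ℝ) (u : ℝ≥0 → Ω → L2) (ω : Ω) : ℝ≥0∞ :=
  ⨅ (t : ℝ≥0) (_ : 1 ≤ IW p κ q u t ω), (t : ℝ≥0∞)

/-- What is used of a strong solution at the sample point `ω`. -/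
structure GoodAt (zt p κ δ q : ℝ) (r : E3 → ℝ) (τ : Ω → ℝ≥0∞) (v w : ℝ≥0 → Ω → L2)
    (hh : ℕ → ℝ≥0 → Ω → L2) (ω : Ω) : Prop where
  init : v 0 ω = v0 δ
  cont : ∀ t : ℝ≥0, (t : ℝ≥0∞) ≤ τ ω → v t ω ∈ LqS Bl q ∧
    Tendsto (fun s => eLpNorm (v s ω - v t ω : L2) (ENNReal.ofReal q) volume)
      (𝓝[{s : ℝ≥0 | (s : ℝ≥0∞) ≤ τ ω}] t) (𝓝 0)
  mem : ∀ᵐ (t : ℝ≥0) ∂lam, (t : ℝ≥0∞) < τ ω →
    w t ω ∈ LqS Bl q ∧ v t ω = res Bl 0 (w t ω) ∧ RotInv (w t ω)
  int : ∀ T : ℝ≥0, ∫⁻ t in {t : ℝ≥0 | t ≤ T ∧ (t : ℝ≥0∞) < τ ω},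
    eLpNorm (w t ω) (ENNReal.ofReal q) volume ^ p * ENNReal.ofReal ((t : ℝ) ^ κ) ∂lam < ∞
  noise : ∀ᵐ (t : ℝ≥0) ∂lam, (t : ℝ≥0∞) < τ ω → ∀ n, ∀ φ ∈ TF Bl,
    HasTransport (bEx zt r n) (fld Bl δ (w t ω)) φ
      (pairH Bl δ (hh n t ω) φ - ∫ x, inner ℝ (gEx zt r n x (fld Bl δ (w t ω) x)) (φ x))

/-- The exceptional set. -/
def bad (zt p κ δ q : ℝ) (r : E3 → ℝ) (τ : Ω → ℝ≥0∞) (v w : ℝ≥0 → Ω → L2)
    (hh : ℕ → ℝ≥0 → Ω → L2) : Set Ω := {ω | ¬ GoodAt zt p κ δ q r τ v w hh ω}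

/-- The data of a stopped rotation invariant solution: a strong solution on `[0, τ]` together with
its noise coordinates `hh`. -/
structure Good (B : Basis Ω) (zt p κ δ q : ℝ) (r : E3 → ℝ) (τ : Ω → ℝ≥0∞)
    (v w : ℝ≥0 → Ω → L2) (hh : ℕ → ℝ≥0 → Ω → L2) : Prop where
  par : Par zt p κ δ q
  stop : IsStop B τ
  prog_v : IsStronglyProgressive B.F fun t ω => v (cutT t (τ ω)) ω
  prog_w : IsStronglyProgressive B.F (wk τ w)
  prog_h : ∀ n, IsStronglyProgressive B.F (wk τ (hh n))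
  null : B.P (bad zt p κ δ q r τ v w hh) = 0
  eqn : ∀ φ ∈ TF Bl, IsStochInt B τ (fun n t ω => pairH Bl δ (hh n t ω) φ)
      (fun t ω => pairX Bl δ (v t ω) φ - pairX Bl δ (v 0 ω) φ -
        ∫ s in Iic t, (1 * pair (fld Bl δ (w s ω)) (lapl φ) + conv (fld Bl δ (w s ω)) φ) ∂lam)

open Classical in
/-- The stopping time `S = τ ∧ hitT ∧ 1`, and `0` on the exceptional set. -/
noncomputable def St (zt p κ δ q : ℝ) (r : E3 → ℝ) (τ : Ω → ℝ≥0∞) (v w : ℝ≥0 → Ω → L2)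
    (hh : ℕ → ℝ≥0 → Ω → L2) (ω : Ω) : ℝ≥0∞ :=
  if ω ∈ bad zt p κ δ q r τ v w hh then 0 else min (τ ω) (min (hitT p κ q (wk τ w) ω) 1)

open Classical in
/-- `w` killed at `S`. -/
noncomputable def wS (S : Ω → ℝ≥0∞) (w : ℝ≥0 → Ω → L2) (t : ℝ≥0) (ω : Ω) : L2 :=
  if 0 < t ∧ (t : ℝ≥0∞) < S ω ∧ w t ω ∈ HR then w t ω else 0

open Classical in
/-- `v` stopped at `S`, constant on `N`. -/
noncomputable def vS (δ : ℝ) (N : Set Ω) (S : Ω → ℝ≥0∞) (v : ℝ≥0 → Ω → L2) (t : ℝ≥0) (ω : Ω) :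
    L2 := if ω ∈ N then v0 δ else v (cutT t (S ω)) ω

variable {B : Basis Ω} {zt p κ δ q : ℝ} {r : E3 → ℝ} {τ : Ω → ℝ≥0∞} {v w : ℝ≥0 → Ω → L2}
  {hh : ℕ → ℝ≥0 → Ω → L2}

theorem St_le_tau (ω : Ω) : St zt p κ δ q r τ v w hh ω ≤ τ ω := by
  unfold St
  split_ifs
  · exact bot_le
  · exact min_le_left _ _

theorem St_le_one (ω : Ω) : St zt p κ δ q r τ v w hh ω ≤ 1 := by
  unfold St
  split_ifs
  · exact bot_le
  · exact (min_le_right _ _).trans (min_le_right _ _)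

theorem St_bad {ω : Ω} (h : ω ∈ bad zt p κ δ q r τ v w hh) : St zt p κ δ q r τ v w hh ω = 0 := by
  unfold St
  rw [if_pos h]

/-- `IW` is measurable at time `t`. -/
theorem IW_meas (hq : 1 ≤ q) {u : ℝ≥0 → Ω → L2} (hu : IsStronglyProgressive B.F u) (t : ℝ≥0) :
    Measurable[B.F t] (IW p κ q u t) := by
  refine prog_lintegral (B := B) (f := fun s ω => eLpNorm (u s ω) (ENNReal.ofReal q) volume ^ p *
    ENNReal.ofReal ((s : ℝ) ^ κ)) ?_ t
  intro t
  have h1 : Measurable[Subtype.instMeasurableSpace.prod (B.F t)]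
      fun z : Set.Iic t × Ω => eLpNorm (u z.1 z.2) (ENNReal.ofReal q) volume :=
    (meas_eLpNorm hq).comp (hu t).measurable
  have h2 : Measurable[Subtype.instMeasurableSpace.prod (B.F t)]
      fun z : Set.Iic t × Ω => ENNReal.ofReal (((z.1 : ℝ≥0) : ℝ) ^ κ) := by
    have h3 : Measurable fun s : ℝ≥0 => ENNReal.ofReal ((s : ℝ) ^ κ) :=
      (measurable_coe_nnreal_real.pow_const κ).ennreal_ofReal
    exact (prog_det (B := B) h3.stronglyMeasurable t).measurable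
  exact ((h1.pow_const p).mul h2).stronglyMeasurable

theorem IW_mono {u : ℝ≥0 → Ω → L2} {s t : ℝ≥0} (h : s ≤ t) (ω : Ω) :
    IW p κ q u s ω ≤ IW p κ q u t ω :=
  lintegral_mono_set (Iic_subset_Iic.2 h)

/-- Right continuity of the filtration. -/
theorem Basis.rc (B : Basis Ω) {t : ℝ≥0} {A : Set Ω}
    (h : ∀ s, t < s → MeasurableSet[B.F s] A) : MeasurableSet[B.F t] A := by
  have := B.rightCont
  refine Filtration.IsRightContinuous.measurableSet ?_
  rw [Filtration.rightCont_eq, MeasurableSpace.measurableSet_iInf]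
  intro s
  rw [MeasurableSpace.measurableSet_iInf]
  exact fun hs => h s hs

theorem hitT_lt {u : ℝ≥0 → Ω → L2} {ω : Ω} {a : ℝ≥0∞} :
    hitT p κ q u ω < a ↔ ∃ s : ℝ≥0, 1 ≤ IW p κ q u s ω ∧ (s : ℝ≥0∞) < a := by
  unfold hitT
  rw [iInf_lt_iff]
  refine exists_congr fun s => ?_
  rw [iInf_lt_iff]
  simp only [exists_prop]

/-- `hitT` is a stopping time (the filtration is right continuous). -/
theorem hitT_stop (hq : 1 ≤ q) {u : ℝ≥0 → Ω → L2} (hu : IsStronglyProgressive B.F u) :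
    IsStop B (hitT p κ q u) := by
  intro t
  refine B.rc fun s hs => ?_
  have h1 : {ω | hitT p κ q u ω ≤ t} =
      ⋂ k : ℕ, {ω | 1 ≤ IW p κ q u (t + (s - t) / (k + 1)) ω} := by
    ext ω
    simp only [mem_ofPred_eq, mem_iInter]
    constructor
    · intro hω k
      have h2 : (t : ℝ≥0∞) < ((t + (s - t) / (k + 1) : ℝ≥0) : ℝ≥0∞) := by
        rw [ENNReal.coe_lt_coe]
        refine lt_add_of_pos_right _ ?_
        exact div_pos (tsub_pos_of_lt hs) (by positivity)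
      obtain ⟨a, ha, ha'⟩ := hitT_lt.1 (lt_of_le_of_lt hω h2)
      exact ha.trans (IW_mono (ENNReal.coe_lt_coe.1 ha').le ω)
    · intro hω
      refine le_of_forall_gt fun a ha => ?_
      obtain ⟨b, hb1, hb2⟩ := ENNReal.lt_iff_exists_nnreal_btwn.1 ha
      obtain ⟨k, hk⟩ := exists_nat_gt ((s - t) / (b - t))
      have hbt : t < b := ENNReal.coe_lt_coe.1 hb1
      refine hitT_lt.2 ⟨t + (s - t) / (k + 1), hω k, lt_of_le_of_lt ?_ hb2⟩
      rw [ENNReal.coe_le_coe]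
      have h3 : (s - t) / (k + 1) ≤ b - t := by
        rw [div_le_iff₀ (by positivity)]
        rw [div_lt_iff₀ (tsub_pos_of_lt hbt)] at hk
        calc s - t ≤ k * (b - t) := hk.le
          _ ≤ (b - t) * (k + 1) := by
            rw [mul_comm]
            gcongr
            exact le_self_add
      calc t + (s - t) / (k + 1) ≤ t + (b - t) := by gcongr
        _ = b := add_tsub_cancel_of_le hbt.le
  rw [h1]
  refine MeasurableSet.iInter fun k => ?_
  have h2 : t + (s - t) / (k + 1) ≤ s := by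
    have : (s - t) / (k + 1) ≤ s - t := by
      refine div_le_self bot_le ?_
      exact le_add_self
    calc t + (s - t) / (k + 1) ≤ t + (s - t) := by gcongr
      _ = s := add_tsub_cancel_of_le hs.le
  exact measurableSet_le measurable_const ((IW_meas hq hu _).mono (B.F.mono h2) le_rfl)

theorem Good.q1 (h : Good B zt p κ δ q r τ v w hh) : 1 ≤ q := by
  have := h.par.hq
  linarith

theorem Good.isStop (h : Good B zt p κ δ q r τ v w hh) :
    IsStop B (St zt p κ δ q r τ v w hh) := by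
  intro t
  have hN := B.null_meas h.null t
  have h1 : IsStop B (fun ω => min (τ ω) (min (hitT p κ q (wk τ w) ω) 1)) :=
    h.stop.inf ((hitT_stop h.q1 h.prog_w).inf (isStop_const 1))
  have h2 : {ω | St zt p κ δ q r τ v w hh ω ≤ t} = bad zt p κ δ q r τ v w hh ∪
      ({ω | min (τ ω) (min (hitT p κ q (wk τ w) ω) 1) ≤ t}) := by
    ext ω
    simp only [mem_ofPred_eq, mem_union]
    unfold St
    by_cases hω : ω ∈ bad zt p κ δ q r τ v w hh
    · simp [hω]
    · rw [if_neg hω]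
      simp [hω]
  rw [h2]
  exact hN.union (h1 t)

/-- Before `hitT` the integral is at most one. -/
theorem IW_le_one {u : ℝ≥0 → Ω → L2} {ω : Ω} :
    ∫⁻ s in {s : ℝ≥0 | (s : ℝ≥0∞) < hitT p κ q u ω},
      eLpNorm (u s ω) (ENNReal.ofReal q) volume ^ p * ENNReal.ofReal ((s : ℝ) ^ κ) ∂lam ≤ 1 := by
  by_cases h0 : hitT p κ q u ω = 0
  · have : {s : ℝ≥0 | (s : ℝ≥0∞) < hitT p κ q u ω} = ∅ := by
      ext s
      simp [h0]
    rw [this]
    simp
  obtain ⟨a, ha1, ha2, ha3⟩ := exists_seq_strictMono_tendsto' (bot_lt_iff_ne_bot.2 h0)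
  have hne : ∀ n, a n ≠ ∞ := fun n => ((ha2 n).2.trans_le le_top).ne
  have h1 : {s : ℝ≥0 | (s : ℝ≥0∞) < hitT p κ q u ω} = ⋃ n, Iic (a n).toNNReal := by
    ext s
    simp only [mem_ofPred_eq, mem_iUnion, mem_Iic]
    constructor
    · intro hs
      obtain ⟨n, hn⟩ := (ha3.eventually (lt_mem_nhds hs)).exists
      refine ⟨n, ?_⟩
      rw [← ENNReal.coe_le_coe, ENNReal.coe_toNNReal (hne n)]
      exact hn.le
    · rintro ⟨n, hn⟩
      rw [← ENNReal.coe_le_coe, ENNReal.coe_toNNReal (hne n)] at hn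
      exact lt_of_le_of_lt hn (ha2 n).2
  have h2 : Directed (· ⊆ ·) fun n => Iic (a n).toNNReal := by
    refine Monotone.directed_le fun m n hmn => ?_
    refine Iic_subset_Iic.2 (ENNReal.toNNReal_mono (hne n) (ha1.monotone hmn))
  rw [h1, setLIntegral_iUnion_of_directed _ h2]
  refine iSup_le fun n => ?_
  by_contra hcon
  have h3 : 1 ≤ IW p κ q u (a n).toNNReal ω := (not_le.1 hcon).le
  have h4 : hitT p κ q u ω ≤ ((a n).toNNReal : ℝ≥0∞) := by
    unfold hitT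
    exact iInf₂_le (f := fun (t : ℝ≥0) (_ : 1 ≤ IW p κ q u t ω) => (t : ℝ≥0∞)) _ h3
  rw [ENNReal.coe_toNNReal (hne n)] at h4
  exact absurd (ha2 n).2 (not_lt.2 h4)

theorem wS_zero {S : Ω → ℝ≥0∞} {t : ℝ≥0} {ω : Ω} (h : S ω ≤ t) : wS S w t ω = 0 := by
  unfold wS
  rw [if_neg]
  rintro ⟨_, h2, _⟩
  exact absurd h2 (not_lt.2 h)

/-- The bound for the killed process. -/
theorem wS_int (hp : 0 < p) (ω : Ω) :
    ∫⁻ s, eLpNorm (wS (St zt p κ δ q r τ v w hh) w s ω) (ENNReal.ofReal q) volume ^ p *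
      ENNReal.ofReal ((s : ℝ) ^ κ) ∂lam ≤ 1 := by
  by_cases hω : ω ∈ bad zt p κ δ q r τ v w hh
  · have h1 : ∀ s, wS (St zt p κ δ q r τ v w hh) w s ω = 0 := fun s =>
      wS_zero (by rw [St_bad hω]; exact bot_le)
    have h2 : ∀ s : ℝ≥0, eLpNorm (wS (St zt p κ δ q r τ v w hh) w s ω) (ENNReal.ofReal q)
        volume ^ p * ENNReal.ofReal ((s : ℝ) ^ κ) = 0 := by
      intro s
      rw [h1, eLpNorm_congr_ae (Lp.coeFn_zero _ _ _)]
      simp [hp]
    simp only [h2]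
    simp
  · refine le_trans ?_ (IW_le_one (p := p) (κ := κ) (q := q) (u := wk τ w) (ω := ω))
    rw [← lintegral_indicator]
    · refine lintegral_mono fun s => ?_
      by_cases hs : (s : ℝ≥0∞) < St zt p κ δ q r τ v w hh ω
      · have h3 : (s : ℝ≥0∞) < min (τ ω) (min (hitT p κ q (wk τ w) ω) 1) := by
          unfold St at hs
          rwa [if_neg hω] at hs
        have h4 : (s : ℝ≥0∞) < hitT p κ q (wk τ w) ω := (lt_min_iff.1 (lt_min_iff.1 h3).2).1
        rw [indicator_of_mem (show s ∈ {s : ℝ≥0 | (s : ℝ≥0∞) < hitT p κ q (wk τ w) ω} from h4)]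
        have h5 : wk τ w s ω = w s ω := by
          unfold wk
          rw [indicator_of_mem (show s ∈ {s : ℝ≥0 | (s : ℝ≥0∞) < τ ω} from (lt_min_iff.1 h3).1)]
        have h6 : eLpNorm (wS (St zt p κ δ q r τ v w hh) w s ω) (ENNReal.ofReal q) volume ≤
            eLpNorm (wk τ w s ω) (ENNReal.ofReal q) volume := by
          rw [h5]
          unfold wS
          split_ifs
          · exact le_rfl
          · rw [eLpNorm_congr_ae (Lp.coeFn_zero _ _ _)]
            simp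
        gcongr
      · rw [wS_zero (not_lt.1 hs), eLpNorm_congr_ae (Lp.coeFn_zero _ _ _)]
        simp [hp]
    · exact measurableSet_lt (measurable_coe_nnreal_ennreal) measurable_const

theorem wS_at_zero {S : Ω → ℝ≥0∞} {ω : Ω} : wS S w 0 ω = 0 := by
  unfold wS
  rw [if_neg]
  rintro ⟨h1, _, _⟩
  exact lt_irrefl _ h1

theorem wS_mem {S : Ω → ℝ≥0∞} (t : ℝ≥0) (ω : Ω) : wS S w t ω ∈ HR := by
  unfold wS
  split_ifs with h
  · exact h.2.2
  · exact zero_mem_HR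

/-- Off the exceptional set `wS = w` a.e. before `S`. -/
theorem wS_eq {ω : Ω} (hω : ω ∉ bad zt p κ δ q r τ v w hh) :
    ∀ᵐ (t : ℝ≥0) ∂lam, (t : ℝ≥0∞) < St zt p κ δ q r τ v w hh ω →
      wS (St zt p κ δ q r τ v w hh) w t ω = w t ω := by
  have h1 : GoodAt zt p κ δ q r τ v w hh ω := not_not.1 hω
  have h2 : ∀ᵐ (t : ℝ≥0) ∂lam, t ≠ 0 := by
    rw [ae_iff]
    simp
  filter_upwards [h1.mem, h2] with t ht ht0 hts
  obtain ⟨h3, _, h4⟩ := ht (hts.trans_le (St_le_tau ω))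
  unfold wS
  rw [if_pos ⟨pos_iff_ne_zero.2 ht0, hts, h3.1, h4⟩]

theorem Good.prog_wS (h : Good B zt p κ δ q r τ v w hh) :
    IsStronglyProgressive B.F (wS (St zt p κ δ q r τ v w hh) w) := by
  classical
  have h5 := prog_pos (prog_closed h.prog_w isClosed_HR)
  have h9 := h.isStop.prog_ind h5
  have h10 : wS (St zt p κ δ q r τ v w hh) w = fun t ω =>
      ({s : ℝ≥0 | (s : ℝ≥0∞) < St zt p κ δ q r τ v w hh ω}.indicator (fun s =>
        ({s : ℝ≥0 | 0 < s}.indicator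
          (fun s => (HR.indicator (fun f => f) (wk τ w s ω) : L2)) s : L2)) t : L2) := by
    funext t ω
    unfold wS
    by_cases h11 : (t : ℝ≥0∞) < St zt p κ δ q r τ v w hh ω
    · rw [indicator_of_mem (show t ∈ {s : ℝ≥0 | (s : ℝ≥0∞) < St zt p κ δ q r τ v w hh ω} from h11)]
      by_cases h12 : 0 < t
      · rw [indicator_of_mem (show t ∈ {s : ℝ≥0 | 0 < s} from h12)]
        have h13 : wk τ w t ω = w t ω := by
          unfold wk
          rw [indicator_of_mem (show t ∈ {s : ℝ≥0 | (s : ℝ≥0∞) < τ ω} from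
            h11.trans_le (St_le_tau ω))]
        rw [h13]
        by_cases h14 : w t ω ∈ HR
        · rw [indicator_of_mem h14, if_pos ⟨h12, h11, h14⟩]
        · rw [indicator_of_notMem h14, if_neg (fun hc => h14 hc.2.2)]
      · rw [indicator_of_notMem (show t ∉ {s : ℝ≥0 | 0 < s} from h12),
          if_neg (fun hc => h12 hc.1)]
    · rw [indicator_of_notMem
        (show t ∉ {s : ℝ≥0 | (s : ℝ≥0∞) < St zt p κ δ q r τ v w hh ω} from h11),
        if_neg (fun hc => h11 hc.2.1)]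
  rw [h10]
  exact h9

theorem Good.prog_vS (h : Good B zt p κ δ q r τ v w hh) :
    IsStronglyProgressive B.F
      (vS δ (bad zt p κ δ q r τ v w hh) (St zt p κ δ q r τ v w hh) v) := by
  classical
  have h1 := h.isStop.prog_stop h.prog_v
  have h2 : (fun t ω => v (cutT (cutT t (St zt p κ δ q r τ v w hh ω)) (τ ω)) ω) =
      fun t ω => v (cutT t (St zt p κ δ q r τ v w hh ω)) ω := by
    funext t ω
    rw [cutT_cutT_of_le t (St_le_tau ω)]
  have h3 : IsStronglyProgressive B.F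
      fun t ω => v (cutT t (St zt p κ δ q r τ v w hh ω)) ω := by
    rw [← h2]
    exact h1
  have h4 := prog_ite (B := B) (N := bad zt p κ δ q r τ v w hh) (B.null_meas h.null 0)
    (isStronglyProgressive_const B.F (v0 δ)) h3
  have h5 : vS δ (bad zt p κ δ q r τ v w hh) (St zt p κ δ q r τ v w hh) v = fun t ω =>
      (bad zt p κ δ q r τ v w hh).piecewise (fun _ => v0 δ)
        (fun ω => v (cutT t (St zt p κ δ q r τ v w hh ω)) ω) ω := by
    funext t ω
    unfold vS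
    by_cases hω : ω ∈ bad zt p κ δ q r τ v w hh
    · rw [if_pos hω, piecewise_eq_of_mem _ _ _ hω]
    · rw [if_neg hω, piecewise_eq_of_notMem _ _ _ hω]
  rw [h5]
  exact h4

/-- `vS` has continuous paths in `L²`, for every `ω`. -/
theorem Good.cont_vS (h : Good B zt p κ δ q r τ v w hh) (ω : Ω) :
    Continuous fun t =>
      vS δ (bad zt p κ δ q r τ v w hh) (St zt p κ δ q r τ v w hh) v t ω := by
  by_cases hω : ω ∈ bad zt p κ δ q r τ v w hh
  · unfold vS
    simp only [if_pos hω]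
    exact continuous_const
  · have h1 : GoodAt zt p κ δ q r τ v w hh ω := not_not.1 hω
    unfold vS
    simp only [if_neg hω]
    have h2 : ContinuousOn (fun t => v t ω) {s : ℝ≥0 | (s : ℝ≥0∞) ≤ τ ω} := by
      intro t ht
      obtain ⟨C, hC⟩ := eLpNorm_two_le h.par.hq
      obtain ⟨h3, h4⟩ := h1.cont t ht
      unfold ContinuousWithinAt
      rw [tendsto_iff_edist_tendsto_0]
      have h5 : Tendsto (fun s => (C : ℝ≥0∞) *
          eLpNorm (v s ω - v t ω : L2) (ENNReal.ofReal q) volume)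
          (𝓝[{s : ℝ≥0 | (s : ℝ≥0∞) ≤ τ ω}] t) (𝓝 0) := by
        have := ENNReal.Tendsto.const_mul (a := (C : ℝ≥0∞)) h4 (Or.inr ENNReal.coe_ne_top)
        simpa using this
      refine tendsto_of_tendsto_of_tendsto_of_le_of_le' tendsto_const_nhds h5
        (Eventually.of_forall fun s => bot_le) ?_
      filter_upwards [self_mem_nhdsWithin] with s hs
      have h6 : v s ω - v t ω ∈ Hs Bl := by
        have := Hs_lin (h1.cont s hs).1.1 h3.1 (-1)
        rwa [neg_one_smul, ← sub_eq_add_neg] at this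
      rw [edist_eq_enorm_sub, enorm_L2]
      exact hC _ h6
    refine h2.comp_continuous (continuous_cutT _) fun t => ?_
    exact (cutT_le_right _ _).trans (St_le_tau ω)

theorem Good.vS_zero (h : Good B zt p κ δ q r τ v w hh) (ω : Ω) :
    vS δ (bad zt p κ δ q r τ v w hh) (St zt p κ δ q r τ v w hh) v 0 ω = v0 δ := by
  unfold vS
  split_ifs with hω
  · rfl
  · have h1 : GoodAt zt p κ δ q r τ v w hh ω := not_not.1 hω
    rw [cutT_zero, h1.init]

theorem vS_stop {N : Set Ω} {S : Ω → ℝ≥0∞} (t : ℝ≥0) (ω : Ω) :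
    vS δ N S v (cutT t (S ω)) ω = vS δ N S v t ω := by
  unfold vS
  split_ifs
  · rfl
  · rw [cutT_cutT, min_self]

/-- `v_S = A⁻¹ w_S` a.e. before `S`. -/
theorem vS_eq {ω : Ω} (hω : ω ∉ bad zt p κ δ q r τ v w hh) :
    ∀ᵐ (t : ℝ≥0) ∂lam, (t : ℝ≥0∞) < St zt p κ δ q r τ v w hh ω →
      vS δ (bad zt p κ δ q r τ v w hh) (St zt p κ δ q r τ v w hh) v t ω =
        res Bl 0 (wS (St zt p κ δ q r τ v w hh) w t ω) := by
  have h1 : GoodAt zt p κ δ q r τ v w hh ω := not_not.1 hω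
  filter_upwards [h1.mem, wS_eq hω] with t ht ht2 hts
  obtain ⟨_, h3, _⟩ := ht (hts.trans_le (St_le_tau ω))
  rw [ht2 hts, ← h3]
  unfold vS
  rw [if_neg hω, cutT_of_le hts.le]

theorem Par.kap {zt p κ δ q : ℝ} (h : Par zt p κ δ q) : 2 * κ / (p - 2) < 1 := by
  have h1 := h.hp
  have h2 := h.k1
  rw [div_lt_one (by linarith)]
  linarith

/-- `x² ≤ x^p s^κ + s^(-2κ/(p-2))` (Young). -/
theorem young_sq {p κ : ℝ} (hp : 2 < p) (x : ℝ≥0∞) {s : ℝ} (hs : 0 < s) :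
    x ^ 2 ≤ x ^ p * ENNReal.ofReal (s ^ κ) + ENNReal.ofReal (s ^ (-(2 * κ / (p - 2)))) := by
  have hp0 : 0 < p := by linarith
  have hc : (p / 2).HolderConjugate (p / (p - 2)) := by
    rw [Real.holderConjugate_iff]
    refine ⟨by linarith, ?_⟩
    have : p - 2 ≠ 0 := by linarith
    field_simp
    ring
  have h1 : x ^ 2 = (x ^ 2 * ENNReal.ofReal (s ^ (2 * κ / p))) *
      ENNReal.ofReal (s ^ (-(2 * κ / p))) := by
    rw [mul_assoc, ← ENNReal.ofReal_mul (by positivity), ← Real.rpow_add hs]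
    simp
  rw [h1]
  refine (ENNReal.young_inequality _ _ hc).trans ?_
  have h2 : (x ^ 2 * ENNReal.ofReal (s ^ (2 * κ / p))) ^ (p / 2) =
      x ^ p * ENNReal.ofReal (s ^ κ) := by
    rw [ENNReal.mul_rpow_of_nonneg _ _ (by positivity)]
    congr 1
    · rw [← ENNReal.rpow_natCast, ← ENNReal.rpow_mul]
      congr 1
      push_cast
      ring
    · rw [ENNReal.ofReal_rpow_of_nonneg (by positivity) (by positivity), ← Real.rpow_mul hs.le]
      congr 2
      field_simp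
  have h3 : ENNReal.ofReal (s ^ (-(2 * κ / p))) ^ (p / (p - 2)) =
      ENNReal.ofReal (s ^ (-(2 * κ / (p - 2)))) := by
    have : 0 < p - 2 := by linarith
    rw [ENNReal.ofReal_rpow_of_nonneg (by positivity) (by positivity), ← Real.rpow_mul hs.le]
    congr 2
    field_simp
  rw [h2, h3]
  have h4 : ∀ (a : ℝ≥0∞) (c : ℝ), 1 ≤ c → a / ENNReal.ofReal c ≤ a := by
    intro a c hc1
    refine ENNReal.div_le_of_le_mul ?_
    calc a = a * 1 := (mul_one a).symm
      _ ≤ a * ENNReal.ofReal c := by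
        gcongr
        rw [← ENNReal.ofReal_one]
        exact ENNReal.ofReal_le_ofReal hc1
  gcongr
  · exact h4 _ _ (by linarith)
  · refine h4 _ _ ?_
    rw [le_div_iff₀ (by linarith)]
    linarith

theorem lint_pow_st {a : ℝ} (ha : a < 1) :
    ∫⁻ x in Ioo (0 : ℝ) 1, ENNReal.ofReal (x ^ (-a)) < ∞ := by
  have h1 : IntegrableOn (fun x : ℝ => x ^ (-a)) (Ioo 0 1) := by
    rw [intervalIntegral.integrableOn_Ioo_rpow_iff (by norm_num)]
    linarith
  have h2 := h1.2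
  refine lt_of_le_of_lt (lintegral_mono fun x => ?_) h2
  rw [Real.enorm_eq_ofReal_abs]
  exact ENNReal.ofReal_le_ofReal (le_abs_self _)

/-- Pathwise bounds in `L²` (Young; `κ < p / 2 - 1`). -/
theorem wS_L2 (h : Par zt p κ δ q) : ∃ K : ℝ≥0,
    ∀ (r : E3 → ℝ) (τ : Ω → ℝ≥0∞) (v w : ℝ≥0 → Ω → L2) (hh : ℕ → ℝ≥0 → Ω → L2) (ω : Ω),
      ∫⁻ s, ‖wS (St zt p κ δ q r τ v w hh) w s ω‖ₑ ^ 2 ∂lam ≤ K ∧
      ∫⁻ s, ‖wS (St zt p κ δ q r τ v w hh) w s ω‖ₑ ∂lam ≤ K := by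
  obtain ⟨C, hC⟩ := eLpNorm_two_le h.hq
  have hp := h.hp
  set J := ∫⁻ x in Ioo (0 : ℝ) 1, ENNReal.ofReal (x ^ (-(2 * κ / (p - 2)))) with hJ
  have hJf : J < ∞ := lint_pow_st h.kap
  have hK1 : (C : ℝ≥0∞) ^ 2 * (1 + J) < ∞ :=
    ENNReal.mul_lt_top (by simp) (ENNReal.add_lt_top.2 ⟨by simp, hJf⟩)
  have hK : 1 + (C : ℝ≥0∞) ^ 2 * (1 + J) < ∞ := ENNReal.add_lt_top.2 ⟨by simp, hK1⟩
  refine ⟨(1 + (C : ℝ≥0∞) ^ 2 * (1 + J)).toNNReal, fun r τ v w hh ω => ?_⟩
  rw [ENNReal.coe_toNNReal hK.ne]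
  set S := St zt p κ δ q r τ v w hh with hS
  have hsupp : ∀ s : ℝ≥0, 1 ≤ s → wS S w s ω = 0 := by
    intro s hs
    refine wS_zero ((St_le_one ω).trans ?_)
    exact_mod_cast hs
  have h1 : ∀ᵐ s : ℝ≥0 ∂lam, ‖wS S w s ω‖ₑ ^ 2 ≤ (C : ℝ≥0∞) ^ 2 *
      (eLpNorm (wS S w s ω) (ENNReal.ofReal q) volume ^ p * ENNReal.ofReal ((s : ℝ) ^ κ) +
        (Iio (1 : ℝ≥0)).indicator (fun s : ℝ≥0 =>
          ENNReal.ofReal ((s : ℝ) ^ (-(2 * κ / (p - 2))))) s) := by
    have h2 : ∀ᵐ (t : ℝ≥0) ∂lam, t ≠ 0 := by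
      rw [ae_iff]
      simp
    filter_upwards [h2] with s hs
    by_cases hs1 : s < 1
    · rw [indicator_of_mem (mem_Iio.2 hs1)]
      have h3 : ‖wS S w s ω‖ₑ ≤ C * eLpNorm (wS S w s ω) (ENNReal.ofReal q) volume := by
        rw [enorm_L2]
        exact hC _ (wS_mem s ω).1
      calc ‖wS S w s ω‖ₑ ^ 2 ≤
          (C * eLpNorm (wS S w s ω) (ENNReal.ofReal q) volume) ^ 2 := by gcongr
        _ = (C : ℝ≥0∞) ^ 2 * eLpNorm (wS S w s ω) (ENNReal.ofReal q) volume ^ 2 := by ring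
        _ ≤ _ := by
          gcongr
          exact young_sq hp _ (by positivity)
    · rw [hsupp s (not_lt.1 hs1)]
      simp
  have h2 : ∫⁻ s, ‖wS S w s ω‖ₑ ^ 2 ∂lam ≤ (C : ℝ≥0∞) ^ 2 * (1 + J) := by
    refine (lintegral_mono_ae h1).trans ?_
    rw [lintegral_const_mul' _ _ (by simp)]
    gcongr
    have hm : Measurable ((Iio (1 : ℝ≥0)).indicator (fun s : ℝ≥0 =>
          ENNReal.ofReal ((s : ℝ) ^ (-(2 * κ / (p - 2)))))) := by
      refine Measurable.indicator ?_ measurableSet_Iio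
      exact (measurable_coe_nnreal_real.pow_const _).ennreal_ofReal
    rw [lintegral_add_right _ hm]
    gcongr
    · exact wS_int (by linarith) ω
    · rw [lintegral_indicator measurableSet_Iio, hJ]
      have h3 : (Iio (1 : ℝ≥0)) = ((↑) : ℝ≥0 → ℝ) ⁻¹' Iio (1 : ℝ) := by
        ext s
        simp
      rw [h3, setLIntegral_lam (fun x => ENNReal.ofReal (x ^ (-(2 * κ / (p - 2)))))
        measurableSet_Iio]
      have h4 : Ioi (0 : ℝ) ∩ Iio 1 = Ioo 0 1 := rfl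
      rw [h4]
  refine ⟨h2.trans le_add_self, ?_⟩
  have h3 : ∀ s : ℝ≥0, ‖wS S w s ω‖ₑ ≤ (Iic (1 : ℝ≥0)).indicator (fun _ => (1 : ℝ≥0∞)) s +
      ‖wS S w s ω‖ₑ ^ 2 := by
    intro s
    by_cases hs1 : s ≤ 1
    · rw [indicator_of_mem (mem_Iic.2 hs1)]
      rcases le_total ‖wS S w s ω‖ₑ 1 with h4 | h4
      · exact h4.trans le_self_add
      · calc ‖wS S w s ω‖ₑ = ‖wS S w s ω‖ₑ * 1 := (mul_one _).symm
          _ ≤ ‖wS S w s ω‖ₑ * ‖wS S w s ω‖ₑ := by gcongr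
          _ = ‖wS S w s ω‖ₑ ^ 2 := (sq _).symm
          _ ≤ _ := le_add_self
    · rw [hsupp s (not_le.1 hs1).le]
      simp
  refine (lintegral_mono h3).trans ?_
  rw [lintegral_add_left (measurable_const.indicator measurableSet_Iic)]
  gcongr
  rw [lintegral_indicator measurableSet_Iic]
  simp [lam_Iic]

/-- `P (S ≤ T)` is small if `P (τ = 0)` is small. -/
theorem Good.small (h : Good B zt p κ δ q r τ v w hh) {ε : ℝ≥0∞}
    (hε : B.P {ω | τ ω = 0} < ε) {T₀ : ℝ≥0} (hT₀ : 0 < T₀) :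
    ∃ T : ℝ≥0, 0 < T ∧ T ≤ T₀ ∧ B.P {ω | St zt p κ δ q r τ v w hh ω ≤ T} < ε := by
  have hprob := B.isProb
  have h1 := tendsto_measure_biInter_gt (μ := B.P) (a := (0 : ℝ≥0))
    (s := fun T : ℝ≥0 => {ω | St zt p κ δ q r τ v w hh ω ≤ T})
    (fun T _ => (B.F.le T _ (h.isStop T)).nullMeasurableSet)
    (fun i j _ hij ω hω => le_trans (show St zt p κ δ q r τ v w hh ω ≤ i from hω)
      (by exact_mod_cast hij))
    ⟨1, by norm_num, measure_ne_top _ _⟩
  have h2 : B.P (⋂ T : ℝ≥0, ⋂ (_ : T > 0), {ω | St zt p κ δ q r τ v w hh ω ≤ T}) ≤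
      B.P {ω | τ ω = 0} := by
    have h3 : (⋂ T : ℝ≥0, ⋂ (_ : T > 0), {ω | St zt p κ δ q r τ v w hh ω ≤ T}) ⊆
        bad zt p κ δ q r τ v w hh ∪ {ω | τ ω = 0} := by
      intro ω hω
      simp only [mem_iInter, mem_ofPred_eq] at hω
      by_cases hb : ω ∈ bad zt p κ δ q r τ v w hh
      · exact Or.inl hb
      right
      have hg : GoodAt zt p κ δ q r τ v w hh ω := not_not.1 hb
      have h0 : St zt p κ δ q r τ v w hh ω = 0 := by
        by_contra hne
        obtain ⟨a, ha1, ha2⟩ := ENNReal.lt_iff_exists_nnreal_btwn.1 (pos_iff_ne_zero.2 hne)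
        have := hω a (by exact_mod_cast ha1)
        exact absurd this (not_le.2 ha2)
      unfold St at h0
      rw [if_neg hb] at h0
      by_contra hτ
      have hτ' : τ ω ≠ 0 := hτ
      have h4 : hitT p κ q (wk τ w) ω = 0 := by
        rcases min_eq_bot.1 h0 with h5 | h5
        · exact absurd h5 hτ'
        · rcases min_eq_bot.1 h5 with h6 | h6
          · exact h6
          · exact absurd h6 (by simp)
      -- the integral over `[0, T]` tends to `0`
      have h5 : ∀ T : ℝ≥0, 0 < T → 1 ≤ IW p κ q (wk τ w) T ω := by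
        intro T hT
        obtain ⟨s, hs1, hs2⟩ := hitT_lt.1 (show hitT p κ q (wk τ w) ω < (T : ℝ≥0∞) by
          rw [h4]
          exact_mod_cast hT)
        exact hs1.trans (IW_mono (ENNReal.coe_lt_coe.1 hs2).le ω)
      have h6 : Tendsto (fun T : ℝ≥0 => IW p κ q (wk τ w) T ω) (𝓝[>] 0) (𝓝 0) := by
        have h7 : ∫⁻ s in Iic (1 : ℝ≥0), eLpNorm (wk τ w s ω) (ENNReal.ofReal q) volume ^ p *
            ENNReal.ofReal ((s : ℝ) ^ κ) ∂lam ≠ ∞ := by
          refine (lt_of_le_of_lt ?_ (hg.int 1)).ne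
          rw [← lintegral_indicator measurableSet_Iic, ← lintegral_indicator]
          · refine lintegral_mono fun s => ?_
            by_cases hs1 : s ≤ 1
            · rw [indicator_of_mem (mem_Iic.2 hs1)]
              by_cases hs2 : (s : ℝ≥0∞) < τ ω
              · rw [indicator_of_mem (show s ∈ {t : ℝ≥0 | t ≤ 1 ∧ (t : ℝ≥0∞) < τ ω} from
                  ⟨hs1, hs2⟩)]
                unfold wk
                rw [indicator_of_mem (show s ∈ {s : ℝ≥0 | (s : ℝ≥0∞) < τ ω} from hs2)]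
              · unfold wk
                rw [indicator_of_notMem (show s ∉ {s : ℝ≥0 | (s : ℝ≥0∞) < τ ω} from hs2),
                  eLpNorm_congr_ae (Lp.coeFn_zero _ _ _)]
                have := h.par.hp
                simp [show 0 < p by linarith]
            · rw [indicator_of_notMem (by simpa using hs1)]
              exact bot_le
          · exact (measurableSet_le measurable_id measurable_const).inter
              (measurableSet_lt measurable_coe_nnreal_ennreal measurable_const)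
        have h8 : Tendsto (fun T : ℝ≥0 => (lam.restrict (Iic 1)) (Iic T)) (𝓝[>] 0) (𝓝 0) := by
          have h9 : ∀ T : ℝ≥0, (lam.restrict (Iic 1)) (Iic T) ≤ T := fun T =>
            (Measure.restrict_apply_le _ _).trans (lam_Iic T).le
          refine tendsto_of_tendsto_of_tendsto_of_le_of_le tendsto_const_nhds ?_
            (fun T => bot_le) h9
          have h10 : Tendsto (fun T : ℝ≥0 => (T : ℝ≥0∞)) (𝓝 0) (𝓝 ((0 : ℝ≥0) : ℝ≥0∞)) :=
            ENNReal.continuous_coe.tendsto 0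
          exact (by simpa using h10 : Tendsto (fun T : ℝ≥0 => (T : ℝ≥0∞)) (𝓝 0) (𝓝 0)).mono_left
            nhdsWithin_le_nhds
        have h11 := tendsto_setLIntegral_zero h7 h8
        refine h11.congr' ?_
        filter_upwards [Ioo_mem_nhdsGT (show (0 : ℝ≥0) < 1 by norm_num)] with T hT
        rw [Measure.restrict_restrict measurableSet_Iic]
        have : Iic T ∩ Iic 1 = Iic T := inter_eq_left.2 (Iic_subset_Iic.2 hT.2.le)
        rw [this]
        rfl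
      have h12 : ∀ᶠ T : ℝ≥0 in 𝓝[>] 0, IW p κ q (wk τ w) T ω < 1 :=
        h6.eventually (gt_mem_nhds (by norm_num))
      obtain ⟨T, hT1, hT2⟩ := (h12.and self_mem_nhdsWithin).exists
      exact absurd (h5 T hT2) (not_le.2 hT1)
    refine (measure_mono h3).trans ((measure_union_le _ _).trans ?_)
    rw [h.null, zero_add]
  have h3 : ∀ᶠ T : ℝ≥0 in 𝓝[>] 0, B.P {ω | St zt p κ δ q r τ v w hh ω ≤ T} < ε :=
    h1.eventually (gt_mem_nhds (lt_of_le_of_lt h2 hε))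
  obtain ⟨T, hT1, hT2⟩ := (h3.and (Ioc_mem_nhdsGT hT₀)).exists
  exact ⟨T, hT2.1, hT2.2, hT1⟩

end

end Pool.Agent.W_332fe5
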