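import Pool.Agent.W_332fe5_h47.Func
import Pool.Agent.W_332fe5_h47.Noise
import Pool.Agent.W_332fe5_h47.Stop
import Pool.Agent.W_332fe5_ito.Out

set_option autoImplicit false
set_option linter.unusedSectionVars false

/-! Block 3: the data of Ito's formula for the scalar functionals of a good solution. -/

open MeasureTheory ProbabilityTheory Set Filter Topology TopologicalSpace
open scoped ENNReal NNReal

namespace Pool.Agent.W_332fe5

/-- Primitives are continuous. -/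
theorem cont_prim_lam {f : ℝ≥0 → ℝ} (hf : Integrable f lam) :
    Continuous fun t : ℝ≥0 => ∫ s in Iic t, f s ∂lam := by
  have h1 : ∀ t : ℝ≥0, ∫ s in Iic t, f s ∂lam =
      ∫ x in (0 : ℝ)..t, (Ioi (0 : ℝ)).indicator (fun x => f x.toNNReal) x := by
    intro t
    have h2 := integral_Iic_lam (fun x : ℝ => f x.toNNReal) t
    simp only [Real.toNNReal_coe] at h2
    rw [h2, intervalIntegral.integral_of_le (NNReal.coe_nonneg t), integral_Ioc_eq_integral_Ioo]
    refine setIntegral_congr_fun measurableSet_Ioo fun s hs => ?_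
    rw [indicator_of_mem (mem_Ioi.2 hs.1)]
  simp only [h1]
  have h3 : Integrable ((Ioi (0 : ℝ)).indicator fun x => f x.toNNReal) := by
    rw [integrable_indicator_iff measurableSet_Ioi]
    have h4 : Integrable (fun x : ℝ => f x.toNNReal) (lam.map ((↑) : ℝ≥0 → ℝ)) := by
      rw [coe_emb.integrable_map_iff]
      have : ((fun x : ℝ => f x.toNNReal) ∘ ((↑) : ℝ≥0 → ℝ)) = f := by
        funext s
        simp
      rw [this]
      exact hf
    rw [lam_map] at h4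
    exact h4.mono_measure (Measure.restrict_mono Ioi_subset_Ici_self le_rfl)
  exact (intervalIntegral.continuous_primitive (fun a b => h3.intervalIntegrable) 0).comp
    NNReal.continuous_coe

section

variable {Ω : Type} [mΩ : MeasurableSpace Ω] {B : Basis Ω} {zt p κ δ q : ℝ} {r : E3 → ℝ}
  {τ : Ω → ℝ≥0∞} {v w : ℝ≥0 → Ω → L2} {hh : ℕ → ℝ≥0 → Ω → L2}

/-- The martingale part of `⟨Γ, f⟩`. -/
noncomputable def MP (δ : ℝ) (N : Set Ω) (S : Ω → ℝ≥0∞) (v w : ℝ≥0 → Ω → L2) (f : E3 → ℝ)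
    (t : ℝ≥0) (ω : Ω) : ℝ :=
  pairX Bl δ (vS δ N S v t ω) (phi f) - pairX Bl δ (v0 δ) (phi f) -
    ∫ s in Iic t, aF δ (wS S w s ω) f ∂lam

theorem Par.d2 (h : Par zt p κ δ q) : -(1 / 4) < δ := by
  have h1 := h.z1
  have h2 := h.d0
  linarith

/-- Pathwise bounds of the drift and the noise coefficient. -/
theorem path_bounds (h : Par zt p κ δ q) {f : E3 → ℝ} (hf : f ∈ CB) : ∃ K : ℝ, 0 ≤ K ∧
    ∀ (r : E3 → ℝ) (τ : Ω → ℝ≥0∞) (v w : ℝ≥0 → Ω → L2) (hh : ℕ → ℝ≥0 → Ω → L2) (ω : Ω),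
      Measurable (fun s => ‖wS (St zt p κ δ q r τ v w hh) w s ω‖ₑ) →
      ∫⁻ s, ‖aF δ (wS (St zt p κ δ q r τ v w hh) w s ω) f‖ₑ ∂lam ≤ ENNReal.ofReal K ∧
      ∫⁻ s, ‖bF zt δ (wS (St zt p κ δ q r τ v w hh) w s ω) f‖ₑ ^ 2 ∂lam ≤ ENNReal.ofReal K := by
  obtain ⟨Ka, hKa, ha⟩ := aF_bound h.d2 h.d1 hf
  obtain ⟨Kb, hKb, hb⟩ := bF_bound zt h.d2 h.d1 hf
  obtain ⟨K, hK⟩ := wS_L2 (Ω := Ω) h
  refine ⟨Ka * (K + K) + Kb ^ 2 * K, by positivity, fun r τ v w hh ω hm => ?_⟩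
  obtain ⟨h1, h2⟩ := hK r τ v w hh ω
  set u := wS (St zt p κ δ q r τ v w hh) w with hu
  have e1 : ENNReal.ofReal (K : ℝ) = (K : ℝ≥0∞) := ENNReal.ofReal_coe_nnreal
  constructor
  · calc ∫⁻ s, ‖aF δ (u s ω) f‖ₑ ∂lam ≤
        ∫⁻ s, ENNReal.ofReal Ka * (‖u s ω‖ₑ + ‖u s ω‖ₑ ^ 2) ∂lam := by
          refine lintegral_mono fun s => ?_
          rw [Real.enorm_eq_ofReal_abs, ← ofReal_norm,
            ← ENNReal.ofReal_pow (norm_nonneg _), ← ENNReal.ofReal_add (norm_nonneg _)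
            (by positivity), ← ENNReal.ofReal_mul hKa]
          exact ENNReal.ofReal_le_ofReal (ha _)
      _ = ENNReal.ofReal Ka * ∫⁻ s, (‖u s ω‖ₑ + ‖u s ω‖ₑ ^ 2) ∂lam :=
          lintegral_const_mul' _ _ ENNReal.ofReal_ne_top
      _ ≤ ENNReal.ofReal Ka * (∫⁻ s, ‖u s ω‖ₑ ∂lam + ∫⁻ s, ‖u s ω‖ₑ ^ 2 ∂lam) := by
          rw [lintegral_add_left hm]
      _ ≤ ENNReal.ofReal Ka * (K + K) := by gcongr
      _ = ENNReal.ofReal (Ka * (K + K)) := by
          rw [ENNReal.ofReal_mul hKa, ENNReal.ofReal_add (NNReal.coe_nonneg K)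
            (NNReal.coe_nonneg K), e1]
      _ ≤ _ := ENNReal.ofReal_le_ofReal (by
          have : 0 ≤ Kb ^ 2 * K := by positivity
          linarith)
  · calc ∫⁻ s, ‖bF zt δ (u s ω) f‖ₑ ^ 2 ∂lam ≤
        ∫⁻ s, ENNReal.ofReal (Kb ^ 2) * ‖u s ω‖ₑ ^ 2 ∂lam := by
          refine lintegral_mono fun s => ?_
          rw [Real.enorm_eq_ofReal_abs, ← ofReal_norm,
            ← ENNReal.ofReal_pow (norm_nonneg _), ← ENNReal.ofReal_pow (abs_nonneg _),
            ← ENNReal.ofReal_mul (by positivity), ← mul_pow]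
          exact ENNReal.ofReal_le_ofReal (pow_le_pow_left₀ (abs_nonneg _) (hb _) 2)
      _ = ENNReal.ofReal (Kb ^ 2) * ∫⁻ s, ‖u s ω‖ₑ ^ 2 ∂lam :=
          lintegral_const_mul' _ _ ENNReal.ofReal_ne_top
      _ ≤ ENNReal.ofReal (Kb ^ 2) * K := by gcongr
      _ = ENNReal.ofReal (Kb ^ 2 * K) := by
          rw [ENNReal.ofReal_mul (by positivity), e1]
      _ ≤ _ := ENNReal.ofReal_le_ofReal (by
          have : 0 ≤ Ka * (K + K) := by positivity
          linarith)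

theorem Good.meas_enorm (h : Good B zt p κ δ q r τ v w hh) (ω : Ω) :
    Measurable (fun s => ‖wS (St zt p κ δ q r τ v w hh) w s ω‖ₑ) := by
  have h1 := prog_joint h.prog_wS
  have h2 : StronglyMeasurable fun s : ℝ≥0 => wS (St zt p κ δ q r τ v w hh) w s ω :=
    h1.comp_measurable (measurable_id.prodMk measurable_const)
  exact h2.enorm

theorem Good.int_a (h : Good B zt p κ δ q r τ v w hh) {f : E3 → ℝ} (hf : f ∈ CB) (ω : Ω) :
    Integrable (fun s => aF δ (wS (St zt p κ δ q r τ v w hh) w s ω) f) lam := by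
  obtain ⟨K, _, hK⟩ := path_bounds (Ω := Ω) h.par hf
  refine ⟨?_, ?_⟩
  · have h1 := prog_joint (prog_comp_cont h.prog_wS (aF_cont h.par.d2 h.par.d1 hf))
    exact (h1.comp_measurable (measurable_id.prodMk measurable_const)).aestronglyMeasurable
  · exact lt_of_le_of_lt (hK r τ v w hh ω (h.meas_enorm ω)).1 ENNReal.ofReal_lt_top

/-- On a time interval `[0, t ∧ ρ]`, `ρ ≤ S`, off the exceptional set, the functionals of the
solution are `aF`, `bF`. -/
theorem Good.ae_noise (_h : Good B zt p κ δ q r τ v w hh) (hr : Measurable r)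
    (hr1 : ∀ x, |r x| ≤ 1) {f : E3 → ℝ} (hf : f ∈ CB) {ω : Ω}
    (hω : ω ∉ bad zt p κ δ q r τ v w hh) :
    ∀ᵐ (s : ℝ≥0) ∂lam, (s : ℝ≥0∞) < St zt p κ δ q r τ v w hh ω → ∀ n : ℕ,
      pairH Bl δ (hh n s ω) (phi f) =
        if n = 0 then bF zt δ (wS (St zt p κ δ q r τ v w hh) w s ω) f else 0 := by
  have h1 : GoodAt zt p κ δ q r τ v w hh ω := not_not.1 hω
  have hd := _h.par.d2
  have hd1 := _h.par.d1
  filter_upwards [h1.noise, wS_eq hω] with s hs hs2 hs3 n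
  have h2 := hs (hs3.trans_le (St_le_tau ω)) n (phi f) (phi_TF hf)
  have h4 := wS_mem (S := St zt p κ δ q r τ v w hh) (w := w) s ω
  rw [hs2 hs3] at h4
  rw [hs2 hs3]
  split_ifs with hn
  · subst hn
    exact id_noise0 hd hd1 h4 hf h2
  · by_cases hn1 : n = 1
    · subst hn1
      exact id_noise1 hd hd1 hr hr1 h4 hf h2
    · exact id_noise2 (by omega) h2

theorem Good.ae_drift (_h : Good B zt p κ δ q r τ v w hh) {f : E3 → ℝ} (hf : f ∈ CB) {ω : Ω}
    (hω : ω ∉ bad zt p κ δ q r τ v w hh) :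
    ∀ᵐ (s : ℝ≥0) ∂lam, (s : ℝ≥0∞) < St zt p κ δ q r τ v w hh ω →
      1 * pair (fld Bl δ (w s ω)) (lapl (phi f)) + conv (fld Bl δ (w s ω)) (phi f) =
        aF δ (wS (St zt p κ δ q r τ v w hh) w s ω) f := by
  have hd := _h.par.d2
  have hd1 := _h.par.d1
  filter_upwards [wS_eq hω] with s hs2 hs3
  have h4 := wS_mem (S := St zt p κ δ q r τ v w hh) (w := w) s ω
  rw [hs2 hs3] at h4
  rw [hs2 hs3]
  exact id_drift hd hd1 h4 hf

/-- Integrals over `[0, T]`, `T ≤ S`, of functions which agree a.e. before `S`. -/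
theorem int_congr_before {E : Type*} [NormedAddCommGroup E] [NormedSpace ℝ E] {f g : ℝ≥0 → E}
    {S : ℝ≥0∞} {T : ℝ≥0} (hT : (T : ℝ≥0∞) ≤ S)
    (h : ∀ᵐ (s : ℝ≥0) ∂lam, (s : ℝ≥0∞) < S → f s = g s) :
    ∫ s in Iic T, f s ∂lam = ∫ s in Iic T, g s ∂lam := by
  refine setIntegral_congr_ae measurableSet_Iic ?_
  have h2 : ∀ᵐ (t : ℝ≥0) ∂lam, t ≠ T := by
    rw [ae_iff]
    simp
  filter_upwards [h, h2] with s hs hs2 hs3
  refine hs (lt_of_lt_of_le ?_ hT)
  exact_mod_cast lt_of_le_of_ne hs3 hs2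

theorem Good.ito (h : Good B zt p κ δ q r τ v w hh) (hr : Measurable r) (hr1 : ∀ x, |r x| ≤ 1)
    {f : E3 → ℝ} (hf : f ∈ CB) : ∃ K : ℝ, ItoData B (St zt p κ δ q r τ v w hh) K
      (fun t ω => aF δ (wS (St zt p κ δ q r τ v w hh) w t ω) f)
      (fun t ω => bF zt δ (wS (St zt p κ δ q r τ v w hh) w t ω) f)
      (MP δ (bad zt p κ δ q r τ v w hh) (St zt p κ δ q r τ v w hh) v w f) := by
  obtain ⟨K, hK0, hK⟩ := path_bounds (Ω := Ω) h.par hf
  have hd := h.par.d2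
  have hd1 := h.par.d1
  set S := St zt p κ δ q r τ v w hh with hS
  set N := bad zt p κ δ q r τ v w hh with hN
  have ka : ∀ (t : ℝ≥0) ω, S ω ≤ t → aF δ (wS S w t ω) f = 0 := by
    intro t ω ht
    rw [wS_zero ht, aF_zero δ hd hd1]
  have kb : ∀ (t : ℝ≥0) ω, S ω ≤ t → bF zt δ (wS S w t ω) f = 0 := by
    intro t ω ht
    rw [wS_zero ht, bF_zero zt δ hd hd1]
  have hprob := B.isProb
  refine ⟨K, ?_⟩
  refine
    { stop := h.isStop
      le_one := St_le_one
      prog_a := prog_comp_cont h.prog_wS (aF_cont hd hd1 hf)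
      prog_b := prog_comp_cont h.prog_wS (bF_cont zt hd hd1 hf)
      kill_a := ka
      kill_b := kb
      bdd_a := fun ω => (hK r τ v w hh ω (h.meas_enorm ω)).1
      bdd_b := fun ω => (hK r τ v w hh ω (h.meas_enorm ω)).2
      cont_M := ?_
      zero_M := ?_
      stop_M := ?_
      mart := ?_ }
  · intro ω
    unfold MP
    refine ((((pairX_cont δ (phi f)).comp (h.cont_vS ω)).sub continuous_const)).sub ?_
    exact cont_prim_lam (h.int_a hf ω)
  · intro ω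
    unfold MP
    rw [h.vS_zero ω, sub_self, zero_sub, neg_eq_zero]
    have : (lam.restrict (Iic (0 : ℝ≥0))) = 0 := by
      rw [Measure.restrict_eq_zero, lam_Iic]
      simp
    rw [this, integral_zero_measure]
  · intro t ω
    unfold MP
    rw [vS_stop]
    congr 1
    refine (setIntegral_eq_of_subset_of_forall_sdiff_eq_zero measurableSet_Iic
      (Iic_subset_Iic.2 (cutT_le t (S ω))) fun s hs => ?_).symm
    have h1 : s ≤ t := hs.1
    have h2 : ¬ s ≤ cutT t (S ω) := hs.2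
    rw [le_cutT] at h2
    refine ka s ω ?_
    by_contra h4
    exact h2 ⟨h1, (not_le.1 h4).le⟩
  · intro ρ hρ hρS
    have heq := h.eqn (phi f) (phi_TF hf)
    have hnull : ∀ᵐ ω ∂B.P, ω ∉ N := by
      rw [ae_iff]
      simpa using h.null
    have hfin : ∫⁻ ω, ∫⁻ s in {s : ℝ≥0 | (s : ℝ≥0∞) < ρ ω},
        ∑' n, ‖pairH Bl δ (hh n s ω) (phi f)‖ₑ ^ 2 ∂lam ∂B.P < ∞ := by
      refine lt_of_le_of_lt (b := ∫⁻ _ : Ω, ENNReal.ofReal K ∂B.P) ?_ (by simp)
      refine lintegral_mono_ae ?_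
      filter_upwards [hnull] with ω hω
      refine le_trans ?_ (hK r τ v w hh ω (h.meas_enorm ω)).2
      rw [← lintegral_indicator (measurableSet_lt measurable_coe_nnreal_ennreal measurable_const)]
      refine lintegral_mono_ae ?_
      filter_upwards [h.ae_noise hr hr1 hf hω] with s hs
      by_cases hsρ : (s : ℝ≥0∞) < ρ ω
      · rw [indicator_of_mem (show s ∈ {s : ℝ≥0 | (s : ℝ≥0∞) < ρ ω} from hsρ)]
        have h5 := hs (hsρ.trans_le (hρS ω))
        rw [tsum_eq_single 0]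
        · rw [h5 0, if_pos rfl]
        · intro n hn
          rw [h5 n, if_neg hn]
          simp
      · rw [indicator_of_notMem (show s ∉ {s : ℝ≥0 | (s : ℝ≥0∞) < ρ ω} from hsρ)]
        exact bot_le
    obtain ⟨m1, m2, _⟩ := heq.mart ρ hρ (fun ω => (hρS ω).trans (St_le_tau ω)) hfin
    have e1 : ∀ (t : ℝ≥0), (fun ω => (pairX Bl δ (v (cutT t (ρ ω)) ω) (phi f) -
        pairX Bl δ (v 0 ω) (phi f) - ∫ s in Iic (cutT t (ρ ω)),
          (1 * pair (fld Bl δ (w s ω)) (lapl (phi f)) + conv (fld Bl δ (w s ω)) (phi f)) ∂lam))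
        =ᵐ[B.P] fun ω => MP δ N S v w f (cutT t (ρ ω)) ω := by
      intro t
      filter_upwards [hnull] with ω hω
      have hg : GoodAt zt p κ δ q r τ v w hh ω := not_not.1 hω
      have hT : (cutT t (ρ ω) : ℝ≥0∞) ≤ S ω := (cutT_le_right t (ρ ω)).trans (hρS ω)
      unfold MP
      rw [int_congr_before hT (h.ae_drift hf hω), hg.init]
      congr 2
      unfold vS
      rw [if_neg hω, cutT_of_le hT]
    refine ⟨B.mart_congr m1 e1, B.mart_congr m2 fun t => ?_⟩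
    filter_upwards [e1 t, hnull] with ω h6 hω
    have hT : (cutT t (ρ ω) : ℝ≥0∞) ≤ S ω := (cutT_le_right t (ρ ω)).trans (hρS ω)
    rw [← h6]
    congr 1
    refine int_congr_before hT ?_
    filter_upwards [h.ae_noise hr hr1 hf hω] with s hs hsS
    have h5 := hs hsS
    rw [tsum_eq_single 0]
    · rw [h5 0, if_pos rfl]
    · intro n hn
      rw [h5 n, if_neg hn]
      simp

end

end Pool.Agent.W_332fe5
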