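import Pool.Agent.W_332fe5_h47.Time

set_option autoImplicit false

/-! Block 3: progressive measurability, stopping times, time integrals. -/

open MeasureTheory ProbabilityTheory Set Filter Topology TopologicalSpace
open scoped ENNReal NNReal

namespace Pool.Agent.W_332fe5

/-! ### `cutT` -/

theorem cutT_ne_top (t : ℝ≥0) (a : ℝ≥0∞) : min (t : ℝ≥0∞) a ≠ ∞ :=
  ((min_le_left _ _).trans_lt ENNReal.coe_lt_top).ne

theorem coe_cutT (t : ℝ≥0) (a : ℝ≥0∞) : (cutT t a : ℝ≥0∞) = min (t : ℝ≥0∞) a :=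
  ENNReal.coe_toNNReal (cutT_ne_top t a)

theorem cutT_le (t : ℝ≥0) (a : ℝ≥0∞) : cutT t a ≤ t := by
  rw [← ENNReal.coe_le_coe, coe_cutT]
  exact min_le_left _ _

theorem cutT_le_right (t : ℝ≥0) (a : ℝ≥0∞) : (cutT t a : ℝ≥0∞) ≤ a := by
  rw [coe_cutT]
  exact min_le_right _ _

theorem cutT_of_le {t : ℝ≥0} {a : ℝ≥0∞} (h : (t : ℝ≥0∞) ≤ a) : cutT t a = t := by
  rw [← ENNReal.coe_inj, coe_cutT, min_eq_left h]

theorem cutT_of_ge {t s : ℝ≥0} (h : s ≤ t) : cutT t (s : ℝ≥0∞) = s := by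
  rw [← ENNReal.coe_inj, coe_cutT, min_eq_right (by exact_mod_cast h)]

theorem cutT_coe (t s : ℝ≥0) : cutT t (s : ℝ≥0∞) = min t s := by
  rw [← ENNReal.coe_inj, coe_cutT, ENNReal.coe_min]

theorem cutT_zero (a : ℝ≥0∞) : cutT 0 a = 0 := le_antisymm (cutT_le 0 a) bot_le

theorem cutT_cutT (t : ℝ≥0) (a b : ℝ≥0∞) : cutT (cutT t a) b = cutT t (min a b) := by
  rw [← ENNReal.coe_inj, coe_cutT, coe_cutT, coe_cutT, min_assoc]

theorem cutT_cutT_of_le (t : ℝ≥0) {a b : ℝ≥0∞} (h : a ≤ b) : cutT (cutT t a) b = cutT t a := by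
  rw [cutT_cutT, min_eq_left h]

theorem cutT_mono {t s : ℝ≥0} (h : t ≤ s) (a : ℝ≥0∞) : cutT t a ≤ cutT s a := by
  rw [← ENNReal.coe_le_coe, coe_cutT, coe_cutT]
  exact min_le_min_right _ (by exact_mod_cast h)

theorem continuous_cutT (a : ℝ≥0∞) : Continuous fun t : ℝ≥0 => cutT t a := by
  have h : Continuous fun t : ℝ≥0 => min (t : ℝ≥0∞) a := ENNReal.continuous_coe.min continuous_const
  refine continuous_iff_continuousAt.2 fun t => ?_
  exact (ENNReal.tendsto_toNNReal (cutT_ne_top t a)).comp h.continuousAt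

theorem lt_cutT {s t : ℝ≥0} {a : ℝ≥0∞} : s < cutT t a ↔ s < t ∧ (s : ℝ≥0∞) < a := by
  rw [← ENNReal.coe_lt_coe, coe_cutT, lt_min_iff, ENNReal.coe_lt_coe]

theorem le_cutT {s t : ℝ≥0} {a : ℝ≥0∞} : s ≤ cutT t a ↔ s ≤ t ∧ (s : ℝ≥0∞) ≤ a := by
  rw [← ENNReal.coe_le_coe, coe_cutT, le_min_iff, ENNReal.coe_le_coe]

section

variable {Ω : Type} [mΩ : MeasurableSpace Ω] {B : Basis Ω}

/-! ### Stopping times -/

theorem IsStop.inf {σ τ : Ω → ℝ≥0∞} (h : IsStop B σ) (h' : IsStop B τ) :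
    IsStop B (fun ω => min (σ ω) (τ ω)) := by
  intro t
  have : {ω | min (σ ω) (τ ω) ≤ t} = {ω | σ ω ≤ t} ∪ {ω | τ ω ≤ t} := by
    ext ω
    simp
  rw [this]
  exact (h t).union (h' t)

theorem isStop_const (a : ℝ≥0∞) : IsStop B (fun _ => a) := fun _ => MeasurableSet.const _

theorem IsStop.measurable {τ : Ω → ℝ≥0∞} (h : IsStop B τ) : Measurable τ := by
  refine measurable_of_Iic fun a => ?_
  induction a with
  | top =>
    have : τ ⁻¹' Iic ∞ = univ := by
      ext
      simp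
    rw [this]
    exact MeasurableSet.univ
  | coe a => exact B.F.le a _ (h a)

/-- `{t < τ}` at time `t`. -/
theorem IsStop.lt {τ : Ω → ℝ≥0∞} (h : IsStop B τ) (t : ℝ≥0) :
    MeasurableSet[B.F t] {ω | (t : ℝ≥0∞) < τ ω} := by
  have : {ω | (t : ℝ≥0∞) < τ ω} = {ω | τ ω ≤ t}ᶜ := by
    ext ω
    simp
  rw [this]
  exact (h t).compl

/-- The process `(t, ω) ↦ t ∧ τ ω` is progressive. -/
theorem IsStop.prog_cutT {τ : Ω → ℝ≥0∞} (h : IsStop B τ) :
    IsStronglyProgressive B.F fun t ω => cutT t (τ ω) := by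
  refine StronglyAdapted.isStronglyProgressive_of_continuous ?_ fun ω => continuous_cutT (τ ω)
  intro t
  refine Measurable.stronglyMeasurable ?_
  refine measurable_of_Iic (mδ := B.F t) fun s => ?_
  have : (fun ω => cutT t (τ ω)) ⁻¹' Iic s = if t ≤ s then univ else {ω | τ ω ≤ s} := by
    ext ω
    simp only [mem_preimage, mem_Iic]
    split_ifs with hts
    · simp [(cutT_le t (τ ω)).trans hts]
    · rw [← ENNReal.coe_le_coe, coe_cutT, min_le_iff]
      simp [hts]
  rw [this]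
  split_ifs with hts
  · exact MeasurableSet.univ
  · exact B.F.mono (not_le.1 hts).le _ (h s)

/-- Killing a progressive process at a stopping time. -/
theorem IsStop.prog_ind {E : Type*} [TopologicalSpace E] [Zero E] {τ : Ω → ℝ≥0∞}
    (h : IsStop B τ) {u : ℝ≥0 → Ω → E} (hu : IsStronglyProgressive B.F u) :
    IsStronglyProgressive B.F fun t ω =>
      ({s : ℝ≥0 | (s : ℝ≥0∞) < τ ω}.indicator (fun s => u s ω) t : E) := by
  intro t
  have hm : MeasurableSet[Subtype.instMeasurableSpace.prod (B.F t)]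
      {p : Set.Iic t × Ω | ((p.1 : ℝ≥0) : ℝ≥0∞) < τ p.2} := by
    have h1 : {p : Set.Iic t × Ω | ((p.1 : ℝ≥0) : ℝ≥0∞) < τ p.2} =
        {p : Set.Iic t × Ω | (p.1 : ℝ≥0) < cutT t (τ p.2)} ∪
          (Prod.snd ⁻¹' {ω | (t : ℝ≥0∞) < τ ω}) := by
      ext p
      simp only [mem_union, mem_ofPred_eq, mem_preimage, lt_cutT]
      constructor
      · intro hp
        by_cases hpt : (p.1 : ℝ≥0) < t
        · exact Or.inl ⟨hpt, hp⟩
        · right
          have h7 : (p.1 : ℝ≥0) = t := le_antisymm p.1.2 (not_lt.1 hpt)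
          have h8 : (((p.1 : ℝ≥0)) : ℝ≥0∞) = (t : ℝ≥0∞) := by rw [h7]
          exact h8 ▸ hp
      · rintro (hp | hp)
        · exact hp.2
        · exact lt_of_le_of_lt (by exact_mod_cast p.1.2) hp
    rw [h1]
    have h2 : Measurable[Subtype.instMeasurableSpace.prod (B.F t)]
        fun p : Set.Iic t × Ω => cutT t (τ p.2) := by
      have h3 := (h.prog_cutT.stronglyAdapted t).measurable
      exact @Measurable.comp _ _ _ (Subtype.instMeasurableSpace.prod (B.F t)) (B.F t) _ _ _ h3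
        (@measurable_snd _ _ _ (B.F t))
    have h4 : Measurable[Subtype.instMeasurableSpace.prod (B.F t)]
        fun p : Set.Iic t × Ω => (p.1 : ℝ≥0) :=
      @Measurable.comp _ _ _ (Subtype.instMeasurableSpace.prod (B.F t)) _ _ _ _
        measurable_subtype_coe (@measurable_fst _ _ _ (B.F t))
    refine MeasurableSet.union ?_ ?_
    · exact measurableSet_lt h4 h2
    · exact @measurable_snd _ _ _ (B.F t) _ (h.lt t)
  have h5 : (fun p : Set.Iic t × Ω =>
      ({s : ℝ≥0 | (s : ℝ≥0∞) < τ p.2}.indicator (fun s => u s p.2) (p.1 : ℝ≥0) : E)) =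
      {p : Set.Iic t × Ω | ((p.1 : ℝ≥0) : ℝ≥0∞) < τ p.2}.indicator
        (fun p : Set.Iic t × Ω => u p.1 p.2) := by
    ext p
    by_cases hp : ((p.1 : ℝ≥0) : ℝ≥0∞) < τ p.2
    · rw [indicator_of_mem (show p ∈ {p : Set.Iic t × Ω | ((p.1 : ℝ≥0) : ℝ≥0∞) < τ p.2} from hp),
        indicator_of_mem (show (p.1 : ℝ≥0) ∈ {s : ℝ≥0 | (s : ℝ≥0∞) < τ p.2} from hp)]
    · rw [indicator_of_notMem
          (show p ∉ {p : Set.Iic t × Ω | ((p.1 : ℝ≥0) : ℝ≥0∞) < τ p.2} from hp),
        indicator_of_notMem (show (p.1 : ℝ≥0) ∉ {s : ℝ≥0 | (s : ℝ≥0∞) < τ p.2} from hp)]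
  rw [h5]
  exact (hu t).indicator hm

/-- Stopping a progressive process. -/
theorem IsStop.prog_stop {E : Type*} [TopologicalSpace E] {τ : Ω → ℝ≥0∞}
    (h : IsStop B τ) {u : ℝ≥0 → Ω → E} (hu : IsStronglyProgressive B.F u) :
    IsStronglyProgressive B.F fun t ω => u (cutT t (τ ω)) ω :=
  hu.comp h.prog_cutT fun t ω => cutT_le t (τ ω)

/-- Deterministic processes. -/
theorem prog_det {E : Type*} [TopologicalSpace E] {g : ℝ≥0 → E} (hg : StronglyMeasurable g) :
    IsStronglyProgressive B.F fun t (_ : Ω) => g t := by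
  intro t
  have h1 : Measurable[Subtype.instMeasurableSpace.prod (B.F t)]
      fun p : Set.Iic t × Ω => ((p.1 : ℝ≥0)) :=
    @Measurable.comp _ _ _ (Subtype.instMeasurableSpace.prod (B.F t)) _ _ _ _
      measurable_subtype_coe (@measurable_fst _ _ _ (B.F t))
  exact hg.comp_measurable h1

/-- Composition with a continuous map. -/
theorem prog_comp_cont {E E' : Type*} [TopologicalSpace E] [TopologicalSpace E']
    {u : ℝ≥0 → Ω → E} (hu : IsStronglyProgressive B.F u) {g : E → E'} (hg : Continuous g) :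
    IsStronglyProgressive B.F fun t ω => g (u t ω) := fun t =>
  hg.comp_stronglyMeasurable (hu t)

/-- Restriction to a closed set of values. -/
theorem prog_closed {E : Type*} [TopologicalSpace E] [PseudoMetrizableSpace E] [Zero E]
    {u : ℝ≥0 → Ω → E} (hu : IsStronglyProgressive B.F u) {A : Set E} (hA : IsClosed A) :
    IsStronglyProgressive B.F fun t ω => (A.indicator (fun f => f) (u t ω) : E) := by
  borelize E
  intro t
  have h2 := hu t
  have h3 : MeasurableSet[Subtype.instMeasurableSpace.prod (B.F t)]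
      ((fun z : Set.Iic t × Ω => u z.1 z.2) ⁻¹' A) :=
    h2.measurable hA.measurableSet
  have h4 : (fun z : Set.Iic t × Ω => (A.indicator (fun f => f) (u z.1 z.2) : E)) =
      ((fun z : Set.Iic t × Ω => u z.1 z.2) ⁻¹' A).indicator
        (fun z : Set.Iic t × Ω => u z.1 z.2) := by
    ext1 z
    by_cases hz : u z.1 z.2 ∈ A
    · rw [indicator_of_mem hz, indicator_of_mem
        (show z ∈ ((fun z : Set.Iic t × Ω => u z.1 z.2) ⁻¹' A) from hz)]
    · rw [indicator_of_notMem hz, indicator_of_notMem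
        (show z ∉ ((fun z : Set.Iic t × Ω => u z.1 z.2) ⁻¹' A) from hz)]
  rw [h4]
  exact h2.indicator h3

/-- Restriction to positive times. -/
theorem prog_pos {E : Type*} [TopologicalSpace E] [Zero E]
    {u : ℝ≥0 → Ω → E} (hu : IsStronglyProgressive B.F u) :
    IsStronglyProgressive B.F fun t ω => ({s : ℝ≥0 | 0 < s}.indicator (fun s => u s ω) t : E) := by
  intro t
  have h6 : MeasurableSet[Subtype.instMeasurableSpace.prod (B.F t)]
      {z : Set.Iic t × Ω | 0 < (z.1 : ℝ≥0)} := by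
    have h7 : Measurable fun s : ℝ≥0 => s := measurable_id
    exact measurableSet_lt (@measurable_const _ _ _ (Subtype.instMeasurableSpace.prod (B.F t)) _)
      (prog_det (B := B) h7.stronglyMeasurable t).measurable
  have h8 : (fun z : Set.Iic t × Ω =>
      ({s : ℝ≥0 | 0 < s}.indicator (fun s => u s z.2) (z.1 : ℝ≥0) : E)) =
      {z : Set.Iic t × Ω | 0 < (z.1 : ℝ≥0)}.indicator (fun z : Set.Iic t × Ω => u z.1 z.2) := by
    ext1 z
    by_cases hz : 0 < (z.1 : ℝ≥0)
    · rw [indicator_of_mem (show (z.1 : ℝ≥0) ∈ {s : ℝ≥0 | 0 < s} from hz),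
        indicator_of_mem (show z ∈ {z : Set.Iic t × Ω | 0 < (z.1 : ℝ≥0)} from hz)]
    · rw [indicator_of_notMem (show (z.1 : ℝ≥0) ∉ {s : ℝ≥0 | 0 < s} from hz),
        indicator_of_notMem (show z ∉ {z : Set.Iic t × Ω | 0 < (z.1 : ℝ≥0)} from hz)]
  rw [h8]
  exact (hu t).indicator h6

/-- Restriction to an `F₀`-measurable set, with a constant off it. -/
theorem prog_ite {E : Type*} [TopologicalSpace E] {N : Set Ω} [DecidablePred (· ∈ N)] (hN : MeasurableSet[B.F 0] N)
    {u u' : ℝ≥0 → Ω → E} (hu : IsStronglyProgressive B.F u) (hu' : IsStronglyProgressive B.F u') :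
    IsStronglyProgressive B.F (fun t ω => (N.piecewise (u t) (u' t) ω : E)) := by
  intro t
  have h1 : MeasurableSet[Subtype.instMeasurableSpace.prod (B.F t)]
      (Prod.snd ⁻¹' N : Set (Set.Iic t × Ω)) :=
    @measurable_snd _ _ _ (B.F t) _ (B.F.mono bot_le _ hN)
  have hd : DecidablePred (· ∈ (Prod.snd ⁻¹' N : Set (Set.Iic t × Ω))) := fun p =>
    inferInstanceAs (Decidable (p.2 ∈ N))
  have h2 : (fun p : Set.Iic t × Ω => (N.piecewise (u p.1) (u' p.1) p.2 : E)) =
      (Prod.snd ⁻¹' N : Set (Set.Iic t × Ω)).piecewise (fun p => u p.1 p.2)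
        (fun p => u' p.1 p.2) := by
    ext p
    by_cases hp : p.2 ∈ N
    · rw [piecewise_eq_of_mem _ _ _ hp,
        piecewise_eq_of_mem _ _ _ (show p ∈ (Prod.snd ⁻¹' N : Set (Set.Iic t × Ω)) from hp)]
    · rw [piecewise_eq_of_notMem _ _ _ hp,
        piecewise_eq_of_notMem _ _ _ (show p ∉ (Prod.snd ⁻¹' N : Set (Set.Iic t × Ω)) from hp)]
  rw [h2]
  exact StronglyMeasurable.piecewise h1 (hu t) (hu' t)

/-! ### Time integrals of progressive processes -/

theorem setIntegral_Iic_subtype {E : Type*} [NormedAddCommGroup E] [NormedSpace ℝ E]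
    (f : ℝ≥0 → E) (t : ℝ≥0) :
    ∫ s in Iic t, f s ∂lam = ∫ s : Set.Iic t, f s ∂(lam.comap Subtype.val) := by
  rw [integral_subtype_comap measurableSet_Iic]

instance (t : ℝ≥0) : SFinite (lam.comap (Subtype.val : Set.Iic t → ℝ≥0)) := by
  have : IsFiniteMeasure (lam.comap (Subtype.val : Set.Iic t → ℝ≥0)) := by
    refine ⟨?_⟩
    rw [comap_subtype_coe_apply measurableSet_Iic]
    simp only [image_univ, Subtype.range_coe_subtype]
    have : {x : ℝ≥0 | x ∈ Iic t} = Iic t := rfl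
    rw [this, lam_Iic]
    exact ENNReal.coe_lt_top
  infer_instance

/-- `∫_0^t f ds` is `F t`-measurable. -/
theorem prog_integral {E : Type*} [NormedAddCommGroup E] [NormedSpace ℝ E]
    {f : ℝ≥0 → Ω → E} (hf : IsStronglyProgressive B.F f) (t : ℝ≥0) :
    StronglyMeasurable[B.F t] fun ω => ∫ s in Iic t, f s ω ∂lam := by
  simp only [setIntegral_Iic_subtype]
  exact @StronglyMeasurable.integral_prod_left' _ _ _ _ (B.F t) _ _ _ _ _ (hf t)

/-- `∫_0^t f ds` is `F t`-measurable, nonnegative version. -/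
theorem prog_lintegral {f : ℝ≥0 → Ω → ℝ≥0∞} (hf : IsStronglyProgressive B.F f) (t : ℝ≥0) :
    Measurable[B.F t] fun ω => ∫⁻ s in Iic t, f s ω ∂lam := by
  have h1 : ∀ ω, ∫⁻ s in Iic t, f s ω ∂lam = ∫⁻ s : Set.Iic t, f s ω ∂(lam.comap Subtype.val) :=
    fun ω => (lintegral_subtype_comap measurableSet_Iic _).symm
  simp only [h1]
  exact @Measurable.lintegral_prod_left' _ _ _ (B.F t) _ _ _ (hf t).measurable

/-- Joint measurability with respect to the ambient `σ`-algebra. -/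
theorem prog_joint {E : Type*} [TopologicalSpace E] [PseudoMetrizableSpace E]
    {u : ℝ≥0 → Ω → E} (hu : IsStronglyProgressive B.F u) :
    StronglyMeasurable fun z : ℝ≥0 × Ω => u z.1 z.2 := by
  refine stronglyMeasurable_of_tendsto (f := fun (n : ℕ) (z : ℝ≥0 × Ω) => u (min z.1 n) z.2)
    atTop (fun n => ?_) ?_
  · have h1 : Measurable fun z : ℝ≥0 × Ω =>
        ((⟨min z.1 n, mem_Iic.2 (min_le_right _ _)⟩, z.2) : Set.Iic (n : ℝ≥0) × Ω) :=
      ((measurable_fst.min measurable_const).subtype_mk).prodMk measurable_snd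
    have h2 : StronglyMeasurable fun p : Set.Iic (n : ℝ≥0) × Ω => u p.1 p.2 :=
      (hu n).mono (sup_le_sup le_rfl (MeasurableSpace.comap_mono (B.F.le n)))
    exact h2.comp_measurable h1
  · rw [tendsto_pi_nhds]
    intro z
    refine tendsto_const_nhds.congr' ?_
    obtain ⟨n, hn⟩ := exists_nat_ge z.1
    filter_upwards [eventually_ge_atTop n] with m hm
    rw [min_eq_left (hn.trans (by exact_mod_cast hm))]

/-! ### Completeness -/

/-- Null sets are `F t`-measurable. -/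
theorem Basis.null_meas (B : Basis Ω) {N : Set Ω} (h : B.P N = 0) (t : ℝ≥0) :
    MeasurableSet[B.F t] N := B.F.mono bot_le _ (B.complete N h)

/-- A modification of an `F t`-measurable function is `F t`-measurable. -/
theorem Basis.meas_congr (B : Basis Ω) {E : Type*} [TopologicalSpace E] {t : ℝ≥0}
    [PseudoMetrizableSpace E] [SecondCountableTopology E] {f g : Ω → E}
    (hf : StronglyMeasurable[B.F t] f) (h : f =ᵐ[B.P] g) :
    StronglyMeasurable[B.F t] g := by
  borelize E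
  have h1 : Measurable[B.F t] g := by
    intro s hs
    have h2 : g ⁻¹' s = (f ⁻¹' s ∩ {ω | f ω = g ω}) ∪ (g ⁻¹' s ∩ {ω | f ω ≠ g ω}) := by
      ext ω
      by_cases hω : f ω = g ω
      · simp [hω]
      · simp [hω]
    have h3 : B.P {ω | f ω ≠ g ω} = 0 := h
    have h4 : MeasurableSet[B.F t] {ω | f ω = g ω} := by
      have : {ω | f ω = g ω} = {ω | f ω ≠ g ω}ᶜ := by
        ext ω
        simp
      rw [this]
      exact (B.null_meas h3 t).compl
    rw [h2]
    refine MeasurableSet.union ((hf.measurable hs).inter h4) ?_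
    exact B.null_meas (measure_mono_null inter_subset_right h3) t
  exact h1.stronglyMeasurable

/-- A modification of a martingale is a martingale. -/
theorem Basis.mart_congr (B : Basis Ω) {M M' : ℝ≥0 → Ω → ℝ} (h : Martingale M B.F B.P)
    (h' : ∀ t, M t =ᵐ[B.P] M' t) : Martingale M' B.F B.P := by
  refine ⟨fun t => B.meas_congr (h.1 t) (h' t), fun s t hst => ?_⟩
  exact ((condExp_congr_ae (h' t)).symm.trans (h.2 s t hst)).trans (h' s)

end

end Pool.Agent.W_332fe5
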