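import Pool.Agent.W_332fe5.Core
import Pool.Agent.W_332fe5.O.A7b
import Pool.Agent.W_332fe5.O.A0b
import Pool.Agent.W_332fe5.O.B2
import Pool.Agent.W_332fe5_h47.Prog

set_option autoImplicit false

/-! Block 3: norms on `L²`, the class `HR` of the coordinates. -/

open MeasureTheory ProbabilityTheory Set Filter Topology TopologicalSpace
open scoped ENNReal NNReal

namespace Pool.Agent.W_332fe5

/-- On `L²_σ(B)` the `L²` norm is bounded by the `L^q` norm, `q ≥ 2`. -/
theorem eLpNorm_two_le {q : ℝ} (hq : 2 ≤ q) : ∃ C : ℝ≥0, ∀ f ∈ Hs Bl,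
    eLpNorm f 2 volume ≤ C * eLpNorm f (ENNReal.ofReal q) volume := by
  have hb : volume Bl < ∞ := by
    unfold Bl
    exact measure_ball_lt_top
  refine ⟨(volume Bl ^ (1 / (2 : ℝ) - 1 / q)).toNNReal, fun f hf => ?_⟩
  have hs := Hs_supp hf
  have h1 : ∀ p : ℝ≥0∞, eLpNorm f p volume = eLpNorm f p (volume.restrict Bl) := by
    intro p
    have h2 : (f : E3 → E3) =ᵐ[volume] Bl.indicator f := by
      filter_upwards [hs] with x hx
      by_cases hxB : x ∈ Bl
      · rw [indicator_of_mem hxB]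
      · rw [indicator_of_notMem hxB, hx hxB]
    rw [eLpNorm_congr_ae h2, eLpNorm_indicator_eq_eLpNorm_restrict]
    exact measurableSet_ball
  rw [h1, h1]
  have h3 := eLpNorm_le_eLpNorm_mul_rpow_measure_univ (μ := volume.restrict Bl)
    (p := 2) (q := ENNReal.ofReal q) (f := (f : E3 → E3)) ?_ ?_
  · rw [mul_comm]
    refine h3.trans ?_
    rw [Measure.restrict_apply_univ]
    gcongr
    rw [ENNReal.coe_toNNReal]
    · simp [ENNReal.toReal_ofReal (show 0 ≤ q by linarith)]
    · refine ENNReal.rpow_ne_top_of_nonneg ?_ hb.ne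
      have : 1 / q ≤ 1 / 2 := one_div_le_one_div_of_le (by norm_num) hq
      linarith
  · rw [show (2 : ℝ≥0∞) = ENNReal.ofReal 2 by simp]
    exact ENNReal.ofReal_le_ofReal hq
  · exact (Lp.aestronglyMeasurable f).restrict

theorem enorm_L2 (f : L2) : ‖f‖ₑ = eLpNorm f 2 volume := Lp.enorm_def f

/-- The class of the coordinates `w`. -/
def HR : Set L2 := {f | f ∈ Hs Bl ∧ RotInv f}

theorem isClosed_HR : IsClosed HR := by
  have : HR = Hs Bl ∩ {f : L2 | RotInv f} := rfl
  rw [this]
  exact Hs_closed.inter RotInv_closed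

theorem RotInv_zero : RotInv (0 : L2) := by
  rw [RotInv_iff]
  intro a
  exact map_zero _

theorem zero_mem_HR : (0 : L2) ∈ HR := ⟨Hs_zero, RotInv_zero⟩

end Pool.Agent.W_332fe5
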