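import Pool.Agent.W_332fe5.Defs

set_option autoImplicit false

/-! Block 3: the Lebesgue measure `lam` on the time axis `ℝ≥0`. -/

open MeasureTheory ProbabilityTheory Set Filter Topology
open scoped ENNReal NNReal

namespace Pool.Agent.W_332fe5

theorem coe_emb : MeasurableEmbedding ((↑) : ℝ≥0 → ℝ) :=
  NNReal.isClosedEmbedding_coe.measurableEmbedding

theorem range_coe_nn : Set.range ((↑) : ℝ≥0 → ℝ) = Ici 0 := by
  ext x
  simp only [mem_range, mem_Ici]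
  constructor
  · rintro ⟨y, rfl⟩
    exact y.2
  · intro h
    exact ⟨⟨x, h⟩, rfl⟩

theorem lam_map : lam.map ((↑) : ℝ≥0 → ℝ) = (volume : Measure ℝ).restrict (Ici 0) := by
  unfold lam
  rw [coe_emb.map_comap, range_coe_nn]

theorem lintegral_lam (f : ℝ → ℝ≥0∞) :
    ∫⁻ s : ℝ≥0, f (s : ℝ) ∂lam = ∫⁻ x in Ioi (0 : ℝ), f x := by
  rw [← coe_emb.lintegral_map, lam_map]
  exact setLIntegral_congr Ioi_ae_eq_Ici.symm

theorem integral_lam {E : Type*} [NormedAddCommGroup E] [NormedSpace ℝ E] (f : ℝ → E) :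
    ∫ s : ℝ≥0, f (s : ℝ) ∂lam = ∫ x in Ioi (0 : ℝ), f x := by
  rw [← coe_emb.integral_map, lam_map]
  exact setIntegral_congr_set Ioi_ae_eq_Ici.symm

theorem setLIntegral_lam (f : ℝ → ℝ≥0∞) {A : Set ℝ} (hA : MeasurableSet A) :
    ∫⁻ s in ((↑) : ℝ≥0 → ℝ) ⁻¹' A, f (s : ℝ) ∂lam = ∫⁻ x in Ioi (0 : ℝ) ∩ A, f x := by
  rw [← lintegral_indicator (coe_emb.measurable hA)]
  have := lintegral_lam (A.indicator f)
  rw [lintegral_indicator hA, Measure.restrict_restrict hA, inter_comm] at this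
  rw [← this]
  refine lintegral_congr fun s => ?_
  by_cases hs : (s : ℝ) ∈ A <;> simp [hs]

theorem setIntegral_lam {E : Type*} [NormedAddCommGroup E] [NormedSpace ℝ E] (f : ℝ → E)
    {A : Set ℝ} (hA : MeasurableSet A) :
    ∫ s in ((↑) : ℝ≥0 → ℝ) ⁻¹' A, f (s : ℝ) ∂lam = ∫ x in Ioi (0 : ℝ) ∩ A, f x := by
  rw [← integral_indicator (coe_emb.measurable hA)]
  have := integral_lam (A.indicator f)
  rw [integral_indicator hA, Measure.restrict_restrict hA, inter_comm] at this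
  rw [← this]
  refine integral_congr_ae (ae_of_all _ fun s => ?_)
  by_cases hs : (s : ℝ) ∈ A <;> simp [hs]

theorem lam_apply_coe {A : Set ℝ} (hA : MeasurableSet A) :
    lam (((↑) : ℝ≥0 → ℝ) ⁻¹' A) = volume (Ioi (0 : ℝ) ∩ A) := by
  have := setLIntegral_lam (fun _ => 1) hA
  simpa using this

theorem lam_Iic (t : ℝ≥0) : lam (Iic t) = t := by
  have h : (Iic t : Set ℝ≥0) = ((↑) : ℝ≥0 → ℝ) ⁻¹' Iic (t : ℝ) := by
    ext s
    simp
  rw [h, lam_apply_coe measurableSet_Iic]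
  have : Ioi (0 : ℝ) ∩ Iic (t : ℝ) = Ioc 0 (t : ℝ) := rfl
  rw [this, Real.volume_Ioc, sub_zero]
  simp

instance : SigmaFinite lam := by
  refine ⟨⟨⟨fun n => Iic (n : ℝ≥0), fun n => trivial, fun n => ?_, ?_⟩⟩⟩
  · rw [lam_Iic]
    exact ENNReal.coe_lt_top
  · ext s
    simp only [mem_iUnion, mem_Iic, mem_univ, iff_true]
    exact exists_nat_ge s

instance : NullSingletonClass lam := by
  refine ⟨fun s => ?_⟩
  have h : ({s} : Set ℝ≥0) = ((↑) : ℝ≥0 → ℝ) ⁻¹' {(s : ℝ)} := by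
    ext x
    simp
  rw [h, lam_apply_coe (measurableSet_singleton _)]
  exact measure_mono_null inter_subset_right (by simp)

/-- `∫_0^t f ds` on the two time axes. -/
theorem integral_Iic_lam {E : Type*} [NormedAddCommGroup E] [NormedSpace ℝ E] (f : ℝ → E)
    (t : ℝ≥0) : ∫ s in Iic t, f (s : ℝ) ∂lam = ∫ x in Ioo (0 : ℝ) t, f x := by
  have h : (Iic t : Set ℝ≥0) = ((↑) : ℝ≥0 → ℝ) ⁻¹' Iic (t : ℝ) := by
    ext s
    simp
  rw [h, setIntegral_lam f measurableSet_Iic]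
  have : Ioi (0 : ℝ) ∩ Iic (t : ℝ) = Ioc 0 (t : ℝ) := rfl
  rw [this]
  exact setIntegral_congr_set Ioo_ae_eq_Ioc.symm

theorem lintegral_Iic_lam (f : ℝ → ℝ≥0∞) (t : ℝ≥0) :
    ∫⁻ s in Iic t, f (s : ℝ) ∂lam = ∫⁻ x in Ioo (0 : ℝ) t, f x := by
  have h : (Iic t : Set ℝ≥0) = ((↑) : ℝ≥0 → ℝ) ⁻¹' Iic (t : ℝ) := by
    ext s
    simp
  rw [h, setLIntegral_lam f measurableSet_Iic]
  have : Ioi (0 : ℝ) ∩ Iic (t : ℝ) = Ioc 0 (t : ℝ) := rfl
  rw [this]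
  exact setLIntegral_congr Ioo_ae_eq_Ioc.symm

/-- Almost everywhere statements on the two time axes. -/
theorem ae_lam {p : ℝ → Prop} (h : ∀ᵐ x ∂(volume : Measure ℝ), 0 < x → p x) :
    ∀ᵐ s : ℝ≥0 ∂lam, p (s : ℝ) := by
  have h1 : ∀ᵐ x ∂((volume : Measure ℝ).restrict (Ici 0)), p x := by
    rw [← restrict_Ioi_eq_restrict_Ici]
    rw [ae_restrict_iff' measurableSet_Ioi]
    exact h
  rw [← lam_map] at h1
  exact ae_of_ae_map coe_emb.measurable.aemeasurable h1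

theorem ae_of_lam {p : ℝ≥0 → Prop} (h : ∀ᵐ s : ℝ≥0 ∂lam, p s) :
    ∀ᵐ x ∂(volume : Measure ℝ), 0 ≤ x → p x.toNNReal := by
  have h1 : ∀ᵐ x ∂(lam.map ((↑) : ℝ≥0 → ℝ)), p x.toNNReal := by
    rw [coe_emb.ae_map_iff]
    simpa using h
  rw [lam_map, ae_restrict_iff' measurableSet_Ici] at h1
  exact h1

end Pool.Agent.W_332fe5
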